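import Pool.Agent.Lib.MP_9599cf_ntF.VDef

/-! # The zeros of Lehmer's polynomial -/

set_option autoImplicit false

namespace SalemLen

open Polynomial

private noncomputable def vcf (u : ℝ) : ℝ := u ^ 5 + u ^ 4 - 5 * u ^ 3 - 5 * u ^ 2 + 4 * u + 3

private theorem vcf_cont : Continuous vcf := by
  unfold vcf
  fun_prop

private theorem vc_up {a b : ℝ} (hab : a ≤ b) (ha : vcf a < 0) (hb : 0 < vcf b) :
    ∃ u, a < u ∧ u < b ∧ vcf u = 0 := by
  obtain ⟨u, ⟨h1, h2⟩, h3⟩ := intermediate_value_Ioo hab vcf_cont.continuousOn ⟨ha, hb⟩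
  exact ⟨u, h1, h2, h3⟩

private theorem vc_down {a b : ℝ} (hab : a ≤ b) (ha : 0 < vcf a) (hb : vcf b < 0) :
    ∃ u, a < u ∧ u < b ∧ vcf u = 0 := by
  obtain ⟨u, ⟨h1, h2⟩, h3⟩ := intermediate_value_Ioo' hab vcf_cont.continuousOn ⟨hb, ha⟩
  exact ⟨u, h1, h2, h3⟩

private theorem vc_eval (z : ℂ) : (cx lehmer).eval z =
    z ^ 10 + z ^ 9 - z ^ 7 - z ^ 6 - z ^ 5 - z ^ 4 - z ^ 3 + z + 1 := by
  simp [cx, lehmer]

private theorem vc_zero {z : ℂ} {u : ℝ} (hz : z ^ 2 - u * z + 1 = 0) (hu : vcf u = 0) :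
    (cx lehmer).eval z = 0 := by
  have h0 : z ≠ 0 := by
    rintro rfl
    simp at hz
  have h1 : (u : ℂ) = z + z⁻¹ := by
    field_simp
    linear_combination -hz
  have h2 : (u : ℂ) ^ 5 + (u : ℂ) ^ 4 - 5 * (u : ℂ) ^ 3 - 5 * (u : ℂ) ^ 2 + 4 * (u : ℂ) + 3 = 0 := by
    have h3 : ((vcf u : ℝ) : ℂ) = 0 := by rw [hu]; simp
    unfold vcf at h3
    push_cast at h3
    exact h3
  rw [vc_eval]
  have h4 : z ^ 10 + z ^ 9 - z ^ 7 - z ^ 6 - z ^ 5 - z ^ 4 - z ^ 3 + z + 1 =
      z ^ 5 * ((u : ℂ) ^ 5 + (u : ℂ) ^ 4 - 5 * (u : ℂ) ^ 3 - 5 * (u : ℂ) ^ 2 + 4 * (u : ℂ) + 3) := by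
    rw [h1]
    field_simp
    ring
  rw [h4, h2, mul_zero]

private noncomputable def vcz (p : ℝ × ℝ) : ℂ := ⟨p.1 / 2, p.2 * Real.sqrt (4 - p.1 ^ 2) / 2⟩

private theorem vcz_eq {p : ℝ × ℝ} (h1 : -2 < p.1) (h2 : p.1 < 2) (h3 : p.2 ^ 2 = 1) :
    vcz p ^ 2 - p.1 * vcz p + 1 = 0 := by
  have hs : Real.sqrt (4 - p.1 ^ 2) ^ 2 = 4 - p.1 ^ 2 := Real.sq_sqrt (by nlinarith)
  have e : vcz p ^ 2 = vcz p * vcz p := pow_two _
  rw [e]
  apply Complex.ext
  · simp only [vcz, Complex.add_re, Complex.sub_re, Complex.mul_re, Complex.ofReal_re,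
      Complex.ofReal_im, Complex.one_re, Complex.zero_re]
    have h4 : p.2 * Real.sqrt (4 - p.1 ^ 2) / 2 * (p.2 * Real.sqrt (4 - p.1 ^ 2) / 2) =
        p.2 ^ 2 * Real.sqrt (4 - p.1 ^ 2) ^ 2 / 4 := by ring
    rw [h4, h3, hs]
    ring
  · simp only [vcz, Complex.add_im, Complex.sub_im, Complex.mul_im, Complex.ofReal_re,
      Complex.ofReal_im, Complex.one_im, Complex.zero_im]
    ring

private theorem vcz_norm {p : ℝ × ℝ} (h1 : -2 < p.1) (h2 : p.1 < 2) (h3 : p.2 ^ 2 = 1) :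
    ‖vcz p‖ = 1 := by
  have hs : Real.sqrt (4 - p.1 ^ 2) ^ 2 = 4 - p.1 ^ 2 := Real.sq_sqrt (by nlinarith)
  have h4 : Complex.normSq (vcz p) = 1 := by
    rw [Complex.normSq_apply]
    simp only [vcz]
    calc p.1 / 2 * (p.1 / 2) + p.2 * Real.sqrt (4 - p.1 ^ 2) / 2 *
          (p.2 * Real.sqrt (4 - p.1 ^ 2) / 2) =
        (p.1 ^ 2 + p.2 ^ 2 * Real.sqrt (4 - p.1 ^ 2) ^ 2) / 4 := by ring
      _ = 1 := by rw [h3, hs]; ring
  have h5 : ‖vcz p‖ ^ 2 = 1 := by rw [← Complex.normSq_eq_norm_sq]; exact h4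
  nlinarith [norm_nonneg (vcz p)]

/-- PROOF. For `z ≠ 0`, `lehmer (z) = z ^ 5 * p (z + z⁻¹)` with `p = u ^ 5 + u ^ 4 - 5 u ^ 3 - 5 u ^ 2 + 4 u + 3`
(check: coefficients). `p` has a zero in each of the five intervals
`(-2, -3/2), (-3/2, -1), (-1, 0), (0, 3/2), (2, 51/25)` (sign changes at rational points; adjust the points), four
of them in `(-2, 2)`; these are all its zeros. Each zero in `(-2, 2)` gives two zeros `z` of absolute value one
of `lehmer`; the fifth zero gives `t` and `t⁻¹`. So `lehmer` has the ten zeros: eight different ones on the unit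
circle, `t`, `t⁻¹`; at most one (with multiplicity) outside the closed unit disc. -/
theorem lehmer_count (x y : ℂ) (Q : ℂ[X]) (h : cx lehmer = (X - C x) * ((X - C y) * Q))
    (hx : 1 < ‖x‖) (hy : 1 < ‖y‖) : False := by
  classical
  obtain ⟨u1, a1, b1, c1⟩ := vc_up (a := -2) (b := -(3 / 2)) (by norm_num)
    (by norm_num [vcf]) (by norm_num [vcf])
  obtain ⟨u2, a2, b2, c2⟩ := vc_down (a := -(3 / 2)) (b := -1) (by norm_num)
    (by norm_num [vcf]) (by norm_num [vcf])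
  obtain ⟨u3, a3, b3, c3⟩ := vc_up (a := -1) (b := 0) (by norm_num)
    (by norm_num [vcf]) (by norm_num [vcf])
  obtain ⟨u4, a4, b4, c4⟩ := vc_down (a := 0) (b := 3 / 2) (by norm_num)
    (by norm_num [vcf]) (by norm_num [vcf])
  obtain ⟨u5, a5, b5, c5⟩ := vc_up (a := 2) (b := 51 / 25) (by norm_num)
    (by norm_num [vcf]) (by norm_num [vcf])
  -- the set of the four zeros
  set U : Finset ℝ := {u1, u2, u3, u4} with hU
  have hUc : U.card = 4 := by
    rw [hU, Finset.card_insert_of_notMem, Finset.card_insert_of_notMem,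
      Finset.card_insert_of_notMem, Finset.card_singleton]
    · simp only [Finset.mem_singleton]
      intro h'; linarith
    · simp only [Finset.mem_insert, Finset.mem_singleton]
      rintro (h' | h') <;> linarith
    · simp only [Finset.mem_insert, Finset.mem_singleton]
      rintro (h' | h' | h') <;> linarith
  have hUm : ∀ u ∈ U, -2 < u ∧ u < 2 ∧ vcf u = 0 := by
    intro u hu
    simp only [hU, Finset.mem_insert, Finset.mem_singleton] at hu
    rcases hu with rfl | rfl | rfl | rfl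
    · exact ⟨by linarith, by linarith, c1⟩
    · exact ⟨by linarith, by linarith, c2⟩
    · exact ⟨by linarith, by linarith, c3⟩
    · exact ⟨by linarith, by linarith, c4⟩
  set V : Finset ℝ := {1, -1} with hV
  have hVc : V.card = 2 := by
    rw [hV, Finset.card_pair (by norm_num)]
  have hVm : ∀ v ∈ V, v ^ 2 = 1 := by
    intro v hv
    simp only [hV, Finset.mem_insert, Finset.mem_singleton] at hv
    rcases hv with rfl | rfl <;> norm_num
  set S : Finset ℂ := (U ×ˢ V).image vcz with hS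
  have hSc : S.card = 8 := by
    rw [hS, Finset.card_image_of_injOn, Finset.card_product, hUc, hVc]
    rintro ⟨p1, p2⟩ hp ⟨q1, q2⟩ hq hpq
    simp only [Finset.coe_product, Set.mem_prod, Finset.mem_coe] at hp hq
    have hre := congrArg Complex.re hpq
    have him := congrArg Complex.im hpq
    simp only [vcz] at hre him
    have e1 : p1 = q1 := by linarith
    subst e1
    have hpos : 0 < Real.sqrt (4 - p1 ^ 2) := by
      apply Real.sqrt_pos.2
      have := hUm p1 hp.1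
      nlinarith
    have e2 : p2 * Real.sqrt (4 - p1 ^ 2) = q2 * Real.sqrt (4 - p1 ^ 2) := by linarith
    have e3 : p2 = q2 := mul_right_cancel₀ hpos.ne' e2
    rw [e3]
  have hSm : ∀ z ∈ S, ‖z‖ = 1 ∧ (cx lehmer).eval z = 0 := by
    intro z hz
    rw [hS, Finset.mem_image] at hz
    obtain ⟨p, hp, rfl⟩ := hz
    rw [Finset.mem_product] at hp
    obtain ⟨d1, d2, d3⟩ := hUm p.1 hp.1
    have d4 := hVm p.2 hp.2
    exact ⟨vcz_norm d1 d2 d4, vc_zero (vcz_eq d1 d2 d4) d3⟩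
  -- the small real zero
  have hw : Real.sqrt (u5 ^ 2 - 4) ^ 2 = u5 ^ 2 - 4 := Real.sq_sqrt (by nlinarith)
  have hw0 : 0 ≤ Real.sqrt (u5 ^ 2 - 4) := Real.sqrt_nonneg _
  set w := Real.sqrt (u5 ^ 2 - 4) with hwd
  set r : ℝ := (u5 - w) / 2 with hr
  have hr0 : 0 < r := by
    have : w < u5 := by nlinarith
    rw [hr]; linarith
  have hr1 : r < 1 := by
    have : u5 - 2 < w := by
      by_contra hcon
      rw [not_lt] at hcon
      have : w ^ 2 ≤ (u5 - 2) ^ 2 := by nlinarith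
      nlinarith
    rw [hr]; linarith
  have hrz : ((r : ℂ)) ^ 2 - u5 * (r : ℂ) + 1 = 0 := by
    have h1 : r ^ 2 - u5 * r + 1 = 0 := by
      rw [hr]; nlinarith
    exact_mod_cast h1
  have hre := vc_zero hrz c5
  have hrn : ‖(r : ℂ)‖ < 1 := by
    rw [Complex.norm_real, Real.norm_eq_abs, abs_of_pos hr0]
    exact hr1
  have hrS : (r : ℂ) ∉ S := fun hmem => by
    have := (hSm _ hmem).1
    linarith
  set R : Finset ℂ := insert (r : ℂ) S with hR
  have hRc : R.card = 9 := by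
    rw [hR, Finset.card_insert_of_notMem hrS, hSc]
  have hRm : ∀ z ∈ R, ‖z‖ ≤ 1 ∧ (cx lehmer).eval z = 0 := by
    intro z hz
    rw [hR, Finset.mem_insert] at hz
    rcases hz with rfl | hz
    · exact ⟨hrn.le, hre⟩
    · exact ⟨(hSm z hz).1.le, (hSm z hz).2⟩
  -- degrees
  have hdeg : (cx lehmer).natDegree = 10 := by
    have : (cx lehmer) = X ^ 10 + X ^ 9 - X ^ 7 - X ^ 6 - X ^ 5 - X ^ 4 - X ^ 3 + X + 1 := by
      simp [cx, lehmer]
    rw [this]
    compute_degree!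
  have hne : cx lehmer ≠ 0 := by
    intro h0
    rw [h0] at hdeg
    simp at hdeg
  have hQ : Q ≠ 0 := by
    rintro rfl
    rw [mul_zero, mul_zero] at h
    exact hne h
  have hQd : Q.natDegree = 8 := by
    have h1 : (cx lehmer).natDegree = 1 + (1 + Q.natDegree) := by
      rw [h, natDegree_mul (X_sub_C_ne_zero x) (mul_ne_zero (X_sub_C_ne_zero y) hQ),
        natDegree_mul (X_sub_C_ne_zero y) hQ, natDegree_X_sub_C, natDegree_X_sub_C]
    omega
  have hsub : R ⊆ Q.roots.toFinset := by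
    intro z hz
    obtain ⟨e1, e2⟩ := hRm z hz
    rw [h, eval_mul, eval_mul, eval_sub, eval_sub, eval_X, eval_C, eval_C] at e2
    rw [Multiset.mem_toFinset, mem_roots hQ, IsRoot.def]
    have hzx : z - x ≠ 0 := by
      intro h0
      rw [sub_eq_zero] at h0
      rw [h0] at e1
      linarith
    have hzy : z - y ≠ 0 := by
      intro h0
      rw [sub_eq_zero] at h0
      rw [h0] at e1
      linarith
    rcases mul_eq_zero.1 e2 with h1 | h1
    · exact absurd h1 hzx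
    · rcases mul_eq_zero.1 h1 with h2 | h2
      · exact absurd h2 hzy
      · exact h2
  have h1 := Finset.card_le_card hsub
  have h2 := Multiset.toFinset_card_le Q.roots
  have h3 := card_roots' Q
  omega

end SalemLen
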