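import Pool.Agent.Lib.MP_9599cf_ntL.Defs

/-! # Salem numbers of length five: the polynomials -/

set_option autoImplicit false

namespace SalemLen

open Polynomial

/-- `X ^ (2 N) - X ^ (N + m) - X ^ N - X ^ (N - m) + 1`. -/
noncomputable def vp (N m : ℕ) : ℤ[X] := X ^ (2 * N) - X ^ (N + m) - X ^ N - X ^ (N - m) + 1

/-- `cp n (z + 1 / z) = z ^ n + 1 / z ^ n`. -/
noncomputable def cp : ℕ → ℝ[X]
  | 0 => 2
  | 1 => X
  | n + 2 => X * cp (n + 1) - cp n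

/-- `vp N m (z) = z ^ N * qp N m (z + 1 / z)`. -/
noncomputable def qp (N m : ℕ) : ℝ[X] := cp N - cp m - 1

theorem vp_eval (N m : ℕ) (z : ℂ) : (cx (vp N m)).eval z =
    z ^ (2 * N) - z ^ (N + m) - z ^ N - z ^ (N - m) + 1 := by
  simp [cx, vp]

/-- Lehmer's polynomial. -/
noncomputable def lehmer : ℤ[X] :=
  X ^ 10 + X ^ 9 - X ^ 7 - X ^ 6 - X ^ 5 - X ^ 4 - X ^ 3 + X + 1

end SalemLen
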