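import Pool.Agent.Lib.MP_9599cf_ntF.VDef

/-! # The polynomials `cp n`, `qp N m` -/

set_option autoImplicit false

namespace SalemLen

open Polynomial

private theorem VEval_rec (n : ℕ) : cp (n + 2) = X * cp (n + 1) - cp n := rfl

private theorem VEval_zero : cp 0 = 2 := rfl

private theorem VEval_one : cp 1 = X := rfl

/-- PROOF. Induction on `n` (two steps). -/
theorem cp_aeval (n : ℕ) {z : ℂ} (hz : z ≠ 0) :
    Polynomial.aeval (z + z⁻¹) (cp n) = z ^ n + (z⁻¹) ^ n := by
  have hw : z * z⁻¹ = 1 := mul_inv_cancel₀ hz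
  induction n using Nat.twoStepInduction with
  | zero =>
    rw [VEval_zero, map_ofNat, pow_zero, pow_zero]
    norm_num
  | one => rw [VEval_one, aeval_X, pow_one, pow_one]
  | more n ih1 ih2 =>
    rw [VEval_rec, map_sub, map_mul, aeval_X, ih1, ih2]
    linear_combination (z ^ n + z⁻¹ ^ n) * hw

/-- PROOF. Induction on `n`, or from `cp_aeval` with `z = exp (I θ)`. -/
theorem cp_cos (n : ℕ) (θ : ℝ) : (cp n).eval (2 * Real.cos θ) = 2 * Real.cos (n * θ) := by
  induction n using Nat.twoStepInduction with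
  | zero =>
    rw [VEval_zero, eval_ofNat, Nat.cast_zero, zero_mul, Real.cos_zero, mul_one]
  | one => rw [VEval_one, eval_X, Nat.cast_one, one_mul]
  | more n ih1 ih2 =>
    rw [VEval_rec, eval_sub, eval_mul, eval_X, ih1, ih2]
    have e1 : ((n + 2 : ℕ) : ℝ) * θ = ((n + 1 : ℕ) : ℝ) * θ + θ := by
      push_cast
      ring
    have e2 : (n : ℝ) * θ = ((n + 1 : ℕ) : ℝ) * θ - θ := by
      push_cast
      ring
    rw [e1, e2, Real.cos_add, Real.cos_sub]
    ring

private theorem VEval_deg (n : ℕ) : (cp n).natDegree ≤ n ∧ (0 < n → (cp n).Monic ∧ (cp n).natDegree = n) := by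
  induction n using Nat.twoStepInduction with
  | zero =>
    refine ⟨?_, fun h => absurd h (lt_irrefl _)⟩
    rw [VEval_zero, natDegree_ofNat]
  | one =>
    rw [VEval_one]
    exact ⟨natDegree_X_le, fun _ => ⟨monic_X, natDegree_X⟩⟩
  | more n ih1 ih2 =>
    obtain ⟨h1, h2⟩ := ih2.2 (Nat.succ_pos n)
    have h3 : (X * cp (n + 1)).natDegree = n + 2 := by
      rw [monic_X.natDegree_mul h1, natDegree_X, h2]
      ring
    have h4 : (X * cp (n + 1)).Monic := monic_X.mul h1
    have h5 : (cp n).natDegree < (X * cp (n + 1)).natDegree := by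
      rw [h3]
      exact lt_of_le_of_lt ih1.1 (by omega)
    have h6 : (X * cp (n + 1) - cp n).natDegree = n + 2 := by
      rw [natDegree_sub_eq_left_of_natDegree_lt h5, h3]
    rw [VEval_rec]
    exact ⟨h6.le, fun _ => ⟨h4.sub_of_left (degree_lt_degree h5), h6⟩⟩

/-- PROOF. `cp n` is monic of degree `n` for `n ≥ 1` (induction), and `cp m`, `1` have degree less than `N`. -/
theorem qp_monic {N m : ℕ} (hm : 0 < m) (hN : m < N) : (qp N m).Monic ∧ (qp N m).natDegree = N := by
  obtain ⟨h1, h2⟩ := (VEval_deg N).2 (by omega)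
  have h3 : (cp m).natDegree < (cp N).natDegree := by
    rw [h2]
    exact lt_of_le_of_lt (VEval_deg m).1 hN
  have h4 : (cp N - cp m).natDegree = N := by
    rw [natDegree_sub_eq_left_of_natDegree_lt h3, h2]
  have h5 : (cp N - cp m).Monic := h1.sub_of_left (degree_lt_degree h3)
  have h6 : (1 : ℝ[X]).natDegree < (cp N - cp m).natDegree := by
    rw [h4, natDegree_one]
    omega
  unfold qp
  exact ⟨h5.sub_of_left (degree_lt_degree h6), by
    rw [natDegree_sub_eq_left_of_natDegree_lt h6, h4]⟩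

/-- PROOF. From `cp_aeval` (`z ^ N * z⁻¹ ^ m = z ^ (N - m)` as `m < N`). -/
theorem qp_aeval {N m : ℕ} (hN : m < N) {z : ℂ} (hz : z ≠ 0) :
    z ^ N * Polynomial.aeval (z + z⁻¹) (qp N m) = (cx (vp N m)).eval z := by
  rw [vp_eval, qp, map_sub, map_sub, map_one, cp_aeval N hz, cp_aeval m hz]
  have h1 : ∀ k : ℕ, z ^ k * z⁻¹ ^ k = 1 := fun k => by
    rw [← mul_pow, mul_inv_cancel₀ hz, one_pow]
  have h2 : z ^ N = z ^ (N - m) * z ^ m := by
    rw [← pow_add]
    congr 1
    omega
  have h3 : z ^ N * z⁻¹ ^ m = z ^ (N - m) := by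
    rw [h2, mul_assoc, h1 m, mul_one]
  have h4 := h1 N
  have h5 : z ^ (2 * N) = z ^ N * z ^ N := by
    rw [two_mul, pow_add]
  have h6 : z ^ (N + m) = z ^ N * z ^ m := pow_add _ _ _
  rw [h5, h6]
  linear_combination h4 - h3

end SalemLen
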