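import Pool.Agent.Lib.MP_9599cf_ntF.VDef

/-! # Coprimality -/

set_option autoImplicit false

namespace SalemLen

open Polynomial

/-- PROOF. Let `d = gcd N m > 1` and `ζ = exp (2 π I / d) ≠ 1`, `ζ ^ d = 1`. All exponents `2 N`, `N + m`, `N`,
`N - m` are divisible by `d`, so `vp N m (s ζ) = vp N m (s) = 0`. By `Dom` (`cx P = (X - C s) * Q`), as
`s ζ ≠ s`, `Q (s ζ) = 0`, so `s = ‖s ζ‖ ≤ 1`, a contradiction. (`N > 0`, so `d > 0`.) -/
theorem coprime_of_dom {N m : ℕ} (hm : 0 < m) (hN : m < N) {s : ℝ} (hs : 1 < s)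
    (hd : Dom (vp N m) s) : Nat.Coprime m N := by
  by_contra hc
  have hg0 : 0 < Nat.gcd m N := Nat.gcd_pos_of_pos_left _ hm
  have hg1 : 1 < Nat.gcd m N := by
    rcases Nat.lt_or_ge 1 (Nat.gcd m N) with h | h
    · exact h
    · exact absurd (show Nat.gcd m N = 1 by omega) hc
  obtain ⟨ζ, hζ⟩ : ∃ ζ : ℂ, IsPrimitiveRoot ζ (Nat.gcd m N) :=
    ⟨_, Complex.isPrimitiveRoot_exp _ hg0.ne'⟩
  have hpow : ∀ e : ℕ, Nat.gcd m N ∣ e → ((s : ℂ) * ζ) ^ e = (s : ℂ) ^ e := by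
    intro e he
    rw [mul_pow, (hζ.pow_eq_one_iff_dvd e).2 he, mul_one]
  have hdm : Nat.gcd m N ∣ m := Nat.gcd_dvd_left _ _
  have hdN : Nat.gcd m N ∣ N := Nat.gcd_dvd_right _ _
  have h1 : (cx (vp N m)).eval ((s : ℂ) * ζ) = (cx (vp N m)).eval (s : ℂ) := by
    rw [vp_eval, vp_eval, hpow _ (Dvd.dvd.mul_left hdN 2), hpow _ (Nat.dvd_add hdN hdm), hpow _ hdN,
      hpow _ (Nat.dvd_sub hdN hdm)]
  obtain ⟨Q, hQ, hz⟩ := hd
  have h2 : (cx (vp N m)).eval (s : ℂ) = 0 := by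
    rw [hQ, eval_mul]
    simp
  rw [h2, hQ, eval_mul, mul_eq_zero] at h1
  have hs0 : (s : ℂ) ≠ 0 := by
    rw [Ne, Complex.ofReal_eq_zero]
    linarith
  have h3 : ((X : ℂ[X]) - C (s : ℂ)).eval ((s : ℂ) * ζ) ≠ 0 := by
    simp only [eval_sub, eval_X, eval_C]
    intro h4
    have h5 : (s : ℂ) * (ζ - 1) = 0 := by linear_combination h4
    rcases mul_eq_zero.1 h5 with h6 | h6
    · exact hs0 h6
    · exact hζ.ne_one hg1 (sub_eq_zero.1 h6)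
  have h4 := hz _ (h1.resolve_left h3)
  rw [norm_mul, hζ.norm'_eq_one hg0.ne', mul_one, Complex.norm_real, Real.norm_eq_abs] at h4
  have h5 := le_abs_self s
  linarith

end SalemLen
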