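import Mathlib

/-! # The inequality of Laguerre -/

set_option autoImplicit false

namespace SalemLen

open Polynomial

/-- PROOF. Induction on `U`. For `q = (X - C a) * f`: `q' = f + (X - C a) f'`, `q'' = 2 f' + (X - C a) f''`, so
`q' ^ 2 - q q'' = f ^ 2 + (u - a) ^ 2 * (f' ^ 2 - f f'')` at `u`. -/
theorem laguerre (U : Multiset ℝ) (u : ℝ) :
    ((U.map fun a => X - C a).prod).eval u *
      (derivative (derivative ((U.map fun a => X - C a).prod))).eval u ≤
      ((derivative ((U.map fun a => X - C a).prod)).eval u) ^ 2 := by
  induction U using Multiset.induction_on with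
  | empty => simp
  | cons a s ih =>
    rw [Multiset.map_cons, Multiset.prod_cons]
    set f := (s.map fun a => X - C a).prod with hf
    have h1 : derivative ((X - C a) * f) = f + (X - C a) * derivative f := by
      rw [derivative_mul]; simp
    have h2 : derivative (derivative ((X - C a) * f)) =
        2 * derivative f + (X - C a) * derivative (derivative f) := by
      rw [h1, derivative_add, derivative_mul]; simp; ring
    rw [h2, h1]
    simp only [eval_add, eval_mul, eval_sub, eval_X, eval_C, eval_ofNat]
    nlinarith [mul_nonneg (sq_nonneg (u - a)) (sub_nonneg.2 ih), sq_nonneg (eval u f)]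

end SalemLen
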