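import Mathlib

/-! # An inequality between the values of a polynomial with real zeros -/

set_option autoImplicit false

namespace SalemLen

open Polynomial

private theorem VMin_one {u1 u2 u3 l a : ℝ} (hl0 : 0 ≤ l) (hl1 : l ≤ 1) (h13 : u1 ≤ u3)
    (h2 : u2 = l * u1 + (1 - l) * u3) (ha : a < u1 ∨ u3 < a) :
    |u1 - a| ^ l * |u3 - a| ^ (1 - l) ≤ |u2 - a| := by
  have h1 := Real.geom_mean_le_arith_mean2_weighted hl0 (by linarith : (0 : ℝ) ≤ 1 - l)
    (abs_nonneg (u1 - a)) (abs_nonneg (u3 - a)) (by ring)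
  refine h1.trans (le_of_eq ?_)
  have h3 : u2 - a = l * (u1 - a) + (1 - l) * (u3 - a) := by rw [h2]; ring
  rcases ha with ha | ha
  · rw [h3, abs_of_pos (by linarith : (0 : ℝ) < u1 - a), abs_of_pos (by linarith : (0 : ℝ) < u3 - a),
      abs_of_nonneg]
    have e1 : 0 ≤ u1 - a := by linarith
    have e2 : 0 ≤ u3 - a := by linarith
    have e3 : 0 ≤ 1 - l := by linarith
    positivity
  · rw [h3, abs_of_neg (by linarith : u1 - a < 0), abs_of_neg (by linarith : u3 - a < 0),
      abs_of_nonpos]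
    · ring
    · have e1 : 0 ≤ a - u1 := by linarith
      have e2 : 0 ≤ a - u3 := by linarith
      have e3 : 0 ≤ 1 - l := by linarith
      nlinarith [mul_nonneg hl0 e1, mul_nonneg e3 e2]

private theorem VMin_ind {u1 u2 u3 l : ℝ} (hl0 : 0 ≤ l) (hl1 : l ≤ 1) (h13 : u1 ≤ u3)
    (h2 : u2 = l * u1 + (1 - l) * u3) (U : Multiset ℝ) (hU : ∀ a ∈ U, a < u1 ∨ u3 < a) :
    |((U.map fun a => X - C a).prod).eval u1| ^ l *
      |((U.map fun a => X - C a).prod).eval u3| ^ (1 - l) ≤
      |((U.map fun a => X - C a).prod).eval u2| := by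
  induction U using Multiset.induction_on with
  | empty => simp
  | cons a U ih =>
    have h3 := ih fun b hb => hU b (Multiset.mem_cons_of_mem hb)
    have h4 := VMin_one hl0 hl1 h13 h2 (hU a (Multiset.mem_cons_self a U))
    rw [Multiset.map_cons, Multiset.prod_cons, eval_mul, eval_mul, eval_mul, abs_mul, abs_mul,
      abs_mul, Real.mul_rpow (abs_nonneg _) (abs_nonneg _),
      Real.mul_rpow (abs_nonneg _) (abs_nonneg _)]
    simp only [eval_sub, eval_X, eval_C]
    calc _ = (|u1 - a| ^ l * |u3 - a| ^ (1 - l)) *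
          (|((U.map fun a => X - C a).prod).eval u1| ^ l *
            |((U.map fun a => X - C a).prod).eval u3| ^ (1 - l)) := by ring
      _ ≤ _ := mul_le_mul h4 h3 (by positivity) (abs_nonneg _)

/-- PROOF. Let `λ ∈ [0, 1]` with `u2 = λ u1 + (1 - λ) u3`. No `a ∈ U` is in `[u1, u3]`, so
`|u2 - a| = λ |u1 - a| + (1 - λ) |u3 - a| ≥ |u1 - a| ^ λ * |u3 - a| ^ (1 - λ)` (weighted AM-GM,
`Real.geom_mean_le_arith_mean2_weighted`). Product over `U` (induction):
`|q u2| ≥ |q u1| ^ λ * |q u3| ^ (1 - λ) ≥ min |q u1| |q u3|`. -/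
theorem min_le_abs (U : Multiset ℝ) {u1 u2 u3 : ℝ} (h12 : u1 ≤ u2) (h23 : u2 ≤ u3)
    (hne : ∀ u ∈ Set.Icc u1 u3, ((U.map fun a => X - C a).prod).eval u ≠ 0) :
    min |((U.map fun a => X - C a).prod).eval u1| |((U.map fun a => X - C a).prod).eval u3| ≤
      |((U.map fun a => X - C a).prod).eval u2| := by
  have h13 : u1 ≤ u3 := h12.trans h23
  have hU : ∀ a ∈ U, a < u1 ∨ u3 < a := by
    intro a ha
    by_contra hcon
    rw [not_or, not_lt, not_lt] at hcon
    refine hne a ⟨hcon.1, hcon.2⟩ ?_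
    obtain ⟨V, rfl⟩ := Multiset.exists_cons_of_mem ha
    rw [Multiset.map_cons, Multiset.prod_cons, eval_mul]
    simp
  obtain ⟨l, hl0, hl1, h2⟩ : ∃ l : ℝ, 0 ≤ l ∧ l ≤ 1 ∧ u2 = l * u1 + (1 - l) * u3 := by
    rcases h13.eq_or_lt with h | h
    · exact ⟨1, zero_le_one, le_rfl, by linarith⟩
    · refine ⟨(u3 - u2) / (u3 - u1), div_nonneg (by linarith) (by linarith), ?_, ?_⟩
      · rw [div_le_one (by linarith)]
        linarith
      · have h0 : u3 - u1 ≠ 0 := by linarith
        field_simp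
        ring
  refine le_trans ?_ (VMin_ind hl0 hl1 h13 h2 U hU)
  have hA : 0 < |((U.map fun a => X - C a).prod).eval u1| :=
    abs_pos.2 (hne u1 ⟨le_rfl, h13⟩)
  have hB : 0 < |((U.map fun a => X - C a).prod).eval u3| :=
    abs_pos.2 (hne u3 ⟨h13, le_rfl⟩)
  obtain ⟨m, hm⟩ : ∃ m : ℝ, m = min |((U.map fun a => X - C a).prod).eval u1|
    |((U.map fun a => X - C a).prod).eval u3| := ⟨_, rfl⟩
  have hm0 : 0 < m := by
    rw [hm]
    exact lt_min hA hB
  have hmA : m ≤ |((U.map fun a => X - C a).prod).eval u1| := by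
    rw [hm]
    exact min_le_left _ _
  have hmB : m ≤ |((U.map fun a => X - C a).prod).eval u3| := by
    rw [hm]
    exact min_le_right _ _
  rw [← hm]
  calc m = m ^ l * m ^ (1 - l) := by
        rw [← Real.rpow_add hm0, add_sub_cancel, Real.rpow_one]
    _ ≤ _ := mul_le_mul (Real.rpow_le_rpow hm0.le hmA hl0)
        (Real.rpow_le_rpow hm0.le hmB (by linarith)) (by positivity) (by positivity)

end SalemLen
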