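import Mathlib

/-! # Two elementary facts -/

set_option autoImplicit false

namespace SalemLen

/-- PROOF. `cos s - cos (κ s + ε) = 2 sin (((1 + κ) s + ε) / 2) * sin ((ε - (1 - κ) s) / 2)` (`Real.cos_sub_cos`).
Case `s ≥ 0`: if `ε - (1 - κ) s ≥ 0`, the second sine is between `0` and `sin (ε / 2)` and the first is at most
`1`. If `ε - (1 - κ) s < 0`, then (it is `≥ - π`) the second sine is `≤ 0`, and the first argument
`((1 + κ) s + ε) / 2` is in `[0, π]`, since `(1 + κ) s + ε < (1 + κ) s + (1 - κ) s = 2 s ≤ 2 π`: the product is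
`≤ 0`. Case `s < 0`: the second argument is in `(0, π]` (`ε - (1 - κ) s ≤ ε + π ≤ 2 π`), its sine is in `[0, 1]`;
the first argument `((1 + κ) s + ε) / 2`: if it is `≥ 0` it is at most `ε / 2`, so its sine is at most
`sin (ε / 2)`; if it is `< 0` it is `≥ - π`, so its sine is `≤ 0`. -/
theorem cos_sub_cos_le {κ ε s : ℝ} (h0 : 0 ≤ κ) (h1 : κ ≤ 1) (hε : 0 ≤ ε) (hε1 : ε ≤ Real.pi)
    (hs : |s| ≤ Real.pi) : Real.cos s - Real.cos (κ * s + ε) ≤ 2 * Real.sin (ε / 2) := by
  have hpi := Real.pi_pos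
  obtain ⟨hs1, hs2⟩ := abs_le.1 hs
  obtain ⟨A, hA⟩ : ∃ A : ℝ, A = (s + (κ * s + ε)) / 2 := ⟨_, rfl⟩
  obtain ⟨B, hB⟩ : ∃ B : ℝ, B = (ε - (1 - κ) * s) / 2 := ⟨_, rfl⟩
  have hB' : (s - (κ * s + ε)) / 2 = -B := by rw [hB]; ring
  have hkey : Real.cos s - Real.cos (κ * s + ε) = 2 * (Real.sin A * Real.sin B) := by
    rw [Real.cos_sub_cos, hB', Real.sin_neg, ← hA]
    ring
  have hE : 0 ≤ Real.sin (ε / 2) := Real.sin_nonneg_of_nonneg_of_le_pi (by linarith) (by linarith)
  rw [hkey]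
  suffices h : Real.sin A * Real.sin B ≤ Real.sin (ε / 2) by linarith
  have hAle := Real.sin_le_one A
  have hBle := Real.sin_le_one B
  rcases le_or_gt 0 s with hs0 | hs0
  · have hks : 0 ≤ κ * s := mul_nonneg h0 hs0
    have hks1 : 0 ≤ (1 - κ) * s := mul_nonneg (by linarith) hs0
    have hks2 : (1 - κ) * s = s - κ * s := by ring
    rcases le_or_gt 0 B with hB0 | hB0
    · have hsB : 0 ≤ Real.sin B := Real.sin_nonneg_of_nonneg_of_le_pi hB0 (by linarith)
      have hsB1 : Real.sin B ≤ Real.sin (ε / 2) :=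
        Real.sin_le_sin_of_le_of_le_pi_div_two (by linarith) (by linarith) (by linarith)
      calc Real.sin A * Real.sin B ≤ 1 * Real.sin B := mul_le_mul_of_nonneg_right hAle hsB
        _ = Real.sin B := one_mul _
        _ ≤ Real.sin (ε / 2) := hsB1
    · have hsB : Real.sin B ≤ 0 := Real.sin_nonpos_of_nonpos_of_neg_pi_le hB0.le (by linarith)
      have hsA : 0 ≤ Real.sin A :=
        Real.sin_nonneg_of_nonneg_of_le_pi (by linarith) (by linarith)
      exact (mul_nonpos_of_nonneg_of_nonpos hsA hsB).trans hE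
  · have hks : κ * s ≤ 0 := mul_nonpos_of_nonneg_of_nonpos h0 hs0.le
    have hks1 : (1 - κ) * s ≤ 0 := mul_nonpos_of_nonneg_of_nonpos (by linarith) hs0.le
    have hks2 : (1 - κ) * s = s - κ * s := by ring
    have hsB : 0 ≤ Real.sin B := Real.sin_nonneg_of_nonneg_of_le_pi (by linarith) (by linarith)
    rcases le_or_gt 0 A with hA0 | hA0
    · have hsA : 0 ≤ Real.sin A := Real.sin_nonneg_of_nonneg_of_le_pi hA0 (by linarith)
      have hsA1 : Real.sin A ≤ Real.sin (ε / 2) :=
        Real.sin_le_sin_of_le_of_le_pi_div_two (by linarith) (by linarith) (by linarith)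
      calc Real.sin A * Real.sin B ≤ Real.sin A * 1 := mul_le_mul_of_nonneg_left hBle hsA
        _ = Real.sin A := mul_one _
        _ ≤ Real.sin (ε / 2) := hsA1
    · have hsA : Real.sin A ≤ 0 := by
        refine Real.sin_nonpos_of_nonpos_of_neg_pi_le hA0.le ?_
        nlinarith
      exact (mul_nonpos_of_nonpos_of_nonneg hsA hsB).trans hE

/-- PROOF. Let `k` be the inverse of `m` modulo `N`, `1 ≤ k < N`, `k m = 1 + N l`. `2 k ≠ N` (`k` is coprime to
`N ≥ 3`). If `2 k < N` take it (`l` natural as `k m ≥ 1`). If `2 k > N` take `k' = N - k`: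
`k' m + 1 = N m - k m + 1 = N (m - l)`. -/
theorem exists_residue {N m : ℕ} (hN : 3 ≤ N) (hm : 0 < m) (hc : Nat.Coprime m N) :
    ∃ k l : ℕ, 1 ≤ k ∧ 2 * k < N ∧ (k * m = N * l + 1 ∨ k * m + 1 = N * l) := by
  obtain ⟨k, hkN, hk⟩ := Nat.exists_mul_mod_eq_one_of_coprime hc (by omega : 1 < N)
  obtain ⟨l, hl⟩ : ∃ l : ℕ, l = m * k / N := ⟨_, rfl⟩
  have h1 : m * k = N * l + 1 := by
    have := Nat.div_add_mod (m * k) N
    rw [hk, ← hl] at this
    exact this.symm
  have hk0 : 1 ≤ k := by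
    rcases Nat.eq_zero_or_pos k with h | h
    · rw [h, mul_zero] at h1
      omega
    · exact h
  have hne : 2 * k ≠ N := by
    intro h
    have h2 : k ∣ 1 := by
      have h3 : k ∣ N * l + 1 := ⟨m, by rw [← h1, mul_comm]⟩
      have h4 : k ∣ N * l := ⟨2 * l, by rw [← h]; ring⟩
      exact (Nat.dvd_add_right h4).1 h3
    have h5 : k = 1 := Nat.dvd_one.1 h2
    omega
  rcases lt_or_gt_of_ne hne with h | h
  · exact ⟨k, l, hk0, h, Or.inl (by rw [mul_comm, h1])⟩
  · obtain ⟨k', hk'⟩ : ∃ k', N = k + k' := ⟨N - k, by omega⟩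
    have hlm : l ≤ m := by
      by_contra hcon
      have h6 : N * (m + 1) ≤ N * l := Nat.mul_le_mul_left _ (by omega)
      have h7 : m * k ≤ m * N := Nat.mul_le_mul_left _ (by omega)
      have h8 : N * (m + 1) = m * N + N := by ring
      omega
    obtain ⟨l', hl'⟩ : ∃ l', m = l + l' := ⟨m - l, by omega⟩
    refine ⟨k', l', by omega, by omega, Or.inr ?_⟩
    have h9 : N * m = N * l + N * l' := by
      have : N * m = N * (l + l') := by rw [← hl']
      rw [this, mul_add]
    have h10 : N * m = m * k + k' * m := by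
      have : N * m = (k + k') * m := by rw [← hk']
      rw [this]; ring
    omega

end SalemLen
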