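import Pool.Agent.Lib.MP_9599cf_ntF.VDef

/-! # Lehmer's number -/

set_option autoImplicit false

namespace SalemLen

open Polynomial

/-- PROOF. Coefficients: `vp 7 4 = lehmer * (X ^ 4 - X ^ 3 + X ^ 2 - X + 1)`, `vp 6 1 = lehmer * (X ^ 2 - X + 1)`
(`ring`). -/
theorem vp_seven : vp 7 4 = lehmer * (X ^ 4 - X ^ 3 + X ^ 2 - X + 1) ∧
    vp 6 1 = lehmer * (X ^ 2 - X + 1) := by
  constructor
  · unfold vp lehmer
    norm_num
    ring
  · unfold vp lehmer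
    norm_num
    ring

private theorem VLehmer_eval (z : ℂ) : (cx lehmer).eval z =
    z ^ 10 + z ^ 9 - z ^ 7 - z ^ 6 - z ^ 5 - z ^ 4 - z ^ 3 + z + 1 := by
  simp [cx, lehmer]

/-- PROOF. `lehmer (1) = -1 < 0` and `lehmer (119 / 100) > 0`: intermediate value theorem. -/
theorem lehmer_root : ∃ t : ℝ, 1 < t ∧ t < 119 / 100 ∧ (cx lehmer).eval (t : ℂ) = 0 := by
  have hcont : ContinuousOn (fun x : ℝ => x ^ 10 + x ^ 9 - x ^ 7 - x ^ 6 - x ^ 5 - x ^ 4 - x ^ 3 + x + 1)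
      (Set.Icc 1 (119 / 100)) := by
    apply Continuous.continuousOn
    fun_prop
  have h := intermediate_value_Ioo (by norm_num : (1 : ℝ) ≤ 119 / 100) hcont
  have h0 : (0 : ℝ) ∈ Set.Ioo
      ((fun x : ℝ => x ^ 10 + x ^ 9 - x ^ 7 - x ^ 6 - x ^ 5 - x ^ 4 - x ^ 3 + x + 1) 1)
      ((fun x : ℝ => x ^ 10 + x ^ 9 - x ^ 7 - x ^ 6 - x ^ 5 - x ^ 4 - x ^ 3 + x + 1) (119 / 100)) := by
    constructor <;> norm_num
  obtain ⟨t, ⟨ht1, ht2⟩, ht⟩ := h h0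
  refine ⟨t, ht1, ht2, ?_⟩
  rw [VLehmer_eval]
  have ht' : t ^ 10 + t ^ 9 - t ^ 7 - t ^ 6 - t ^ 5 - t ^ 4 - t ^ 3 + t + 1 = 0 := ht
  exact_mod_cast ht'

/-- PROOF. `z ^ 10 * lehmer (z⁻¹) = lehmer (z)`. -/
theorem lehmer_inv {z : ℂ} (hz : z ≠ 0) (h : (cx lehmer).eval z = 0) : (cx lehmer).eval z⁻¹ = 0 := by
  rw [VLehmer_eval] at h ⊢
  have h1 : z ^ 10 * (z⁻¹ ^ 10 + z⁻¹ ^ 9 - z⁻¹ ^ 7 - z⁻¹ ^ 6 - z⁻¹ ^ 5 - z⁻¹ ^ 4 - z⁻¹ ^ 3 + z⁻¹ + 1) =
      z ^ 10 + z ^ 9 - z ^ 7 - z ^ 6 - z ^ 5 - z ^ 4 - z ^ 3 + z + 1 := by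
    field_simp
    ring
  rw [h] at h1
  rcases mul_eq_zero.mp h1 with h2 | h2
  · exact absurd h2 (pow_ne_zero _ hz)
  · exact h2

private theorem VLehmer_norm {z : ℂ} {n : ℕ} (hn : n ≠ 0) (h : z ^ n = -1) : ‖z‖ ≤ 1 := by
  have h1 : ‖z‖ ^ n = 1 := by
    rw [← norm_pow, h, norm_neg, norm_one]
  exact le_of_eq ((pow_eq_one_iff_of_nonneg (norm_nonneg z) hn).mp h1)

/-- PROOF. The factors `X ^ 4 - X ^ 3 + X ^ 2 - X + 1`, `X ^ 2 - X + 1` divide `X ^ 5 + 1`, `X ^ 3 + 1`, so their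
zeros have absolute value one. If `cx lehmer = (X - C t) * Q` with `Q` having its zeros in the closed disc, take
`Q * cx (..)`. -/
theorem dom_of_lehmer {t : ℝ} (h : Dom lehmer t) : Dom (vp 7 4) t ∧ Dom (vp 6 1) t := by
  obtain ⟨Q, hQ, hz⟩ := h
  constructor
  · refine ⟨Q * cx (X ^ 4 - X ^ 3 + X ^ 2 - X + 1), ?_, fun z h0 => ?_⟩
    · rw [vp_seven.1, ← mul_assoc, ← hQ]
      unfold cx
      rw [Polynomial.map_mul]
    · rw [eval_mul] at h0
      rcases mul_eq_zero.mp h0 with h1 | h1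
      · exact hz z h1
      · have h2 : z ^ 4 - z ^ 3 + z ^ 2 - z + 1 = 0 := by
          simpa [cx] using h1
        refine VLehmer_norm (n := 5) (by norm_num) ?_
        linear_combination (z + 1) * h2
  · refine ⟨Q * cx (X ^ 2 - X + 1), ?_, fun z h0 => ?_⟩
    · rw [vp_seven.2, ← mul_assoc, ← hQ]
      unfold cx
      rw [Polynomial.map_mul]
    · rw [eval_mul] at h0
      rcases mul_eq_zero.mp h0 with h1 | h1
      · exact hz z h1
      · have h2 : z ^ 2 - z + 1 = 0 := by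
          simpa [cx] using h1
        refine VLehmer_norm (n := 3) (by norm_num) ?_
        linear_combination (z + 1) * h2

/-- PROOF. Monic; length five: the coefficients are `1, -1, -1, -1, 1`. -/
theorem vp_seven_len : (vp 7 4).Monic ∧ len (vp 7 4) ≤ 5 := by
  have hv : vp 7 4 = X ^ 14 - X ^ 11 - X ^ 7 - X ^ 3 + 1 := by
    unfold vp
    norm_num
  rw [hv]
  constructor
  · monicity!
  · have hsub : (X ^ 14 - X ^ 11 - X ^ 7 - X ^ 3 + 1 : ℤ[X]).support ⊆ {0, 3, 7, 11, 14} := by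
      intro i hi
      rw [mem_support_iff] at hi
      by_contra hne
      simp only [Finset.mem_insert, Finset.mem_singleton, not_or] at hne
      obtain ⟨h0, h3, h7, h11, h14⟩ := hne
      apply hi
      simp [coeff_X_pow, coeff_one, h0, h3, h7, h11, h14]
    refine (Finset.sum_le_sum_of_subset hsub).trans ?_
    have e0 : (X ^ 14 - X ^ 11 - X ^ 7 - X ^ 3 + 1 : ℤ[X]).coeff 0 = 1 := by
      simp [coeff_X_pow, coeff_one]
    have e3 : (X ^ 14 - X ^ 11 - X ^ 7 - X ^ 3 + 1 : ℤ[X]).coeff 3 = -1 := by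
      simp [coeff_X_pow, coeff_one]
    have e7 : (X ^ 14 - X ^ 11 - X ^ 7 - X ^ 3 + 1 : ℤ[X]).coeff 7 = -1 := by
      simp [coeff_X_pow, coeff_one]
    have e11 : (X ^ 14 - X ^ 11 - X ^ 7 - X ^ 3 + 1 : ℤ[X]).coeff 11 = -1 := by
      simp [coeff_X_pow, coeff_one]
    have e14 : (X ^ 14 - X ^ 11 - X ^ 7 - X ^ 3 + 1 : ℤ[X]).coeff 14 = 1 := by
      simp [coeff_X_pow, coeff_one]
    rw [Finset.sum_insert (by decide), Finset.sum_insert (by decide), Finset.sum_insert (by decide),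
      Finset.sum_insert (by decide), Finset.sum_singleton, e0, e3, e7, e11, e14]
    decide

end SalemLen
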