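import Mathlib

/-! # Polynomials with only real zeros -/

set_option autoImplicit false

namespace SalemLen

open Polynomial

/-- PROOF. `q` mapped to `ℂ` splits; all its roots are real, so they are roots of `q` with the same
multiplicity, or: `q` splits over `ℝ` by induction on the degree (divide by `X - C a` for a real root `a`, which
exists since `ℂ` is algebraically closed and the roots are real). -/
theorem exists_prod {q : ℝ[X]} (hq : q.Monic) (h : ∀ u : ℂ, Polynomial.aeval u q = 0 → u.im = 0) :
    ∃ U : Multiset ℝ, q = (U.map fun a => X - C a).prod := by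
  obtain ⟨n, hn⟩ : ∃ n, q.natDegree = n := ⟨_, rfl⟩
  induction n generalizing q with
  | zero => exact ⟨0, by simpa using eq_one_of_monic_natDegree_zero hq hn⟩
  | succ n ih =>
    have hdeg : q.degree ≠ 0 := by
      intro h0
      have h1 := natDegree_eq_of_degree_eq_some (n := 0) (by simpa using h0)
      omega
    obtain ⟨u, hu⟩ := IsAlgClosed.exists_aeval_eq_zero ℂ q hdeg
    have him := h u hu
    have hre : ((u.re : ℝ) : ℂ) = u := Complex.ext (by simp) (by simp [him])
    have hroot : q.IsRoot u.re := by
      have h1 : aeval (algebraMap ℝ ℂ u.re) q = 0 := by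
        rw [Complex.coe_algebraMap, hre]
        exact hu
      rw [aeval_algebraMap_apply, Complex.coe_algebraMap, Complex.ofReal_eq_zero] at h1
      rwa [IsRoot, ← coe_aeval_eq_eval]
    obtain ⟨q', hq'⟩ := dvd_iff_isRoot.2 hroot
    have hm : ((X - C u.re) * q').Monic := hq' ▸ hq
    have hq'm : q'.Monic := (monic_X_sub_C u.re).of_mul_monic_left hm
    have hd : q'.natDegree = n := by
      rw [hq', (monic_X_sub_C u.re).natDegree_mul hq'm, natDegree_X_sub_C] at hn
      omega
    obtain ⟨U, hU⟩ := ih hq'm (fun w hw => h w (by rw [hq', map_mul, hw, mul_zero])) hd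
    exact ⟨u.re ::ₘ U, by rw [Multiset.map_cons, Multiset.prod_cons, ← hU, hq']⟩

end SalemLen
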