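import Pool.Agent.Lib.MP_9599cf_ntF.VEval

/-! # Real zeros -/

set_option autoImplicit false

namespace SalemLen

open Polynomial

/-- PROOF. Choose `z ≠ 0` with `z + z⁻¹ = u` (root of `z ^ 2 - u z + 1`). By `qp_aeval` `vp N m (z) = 0`; also
`vp N m (z⁻¹) = 0` (the same with `z⁻¹`). By `Dom`, `z = s` or `‖z‖ ≤ 1`; `z⁻¹ = s` or `‖z⁻¹‖ ≤ 1`. If `z` or
`z⁻¹` is `s`, `u` is real. Otherwise `‖z‖ = 1` and `z⁻¹ = conj z`, so `u` is real. -/
theorem real_of_root {N m : ℕ} (hN : m < N) {s : ℝ} (hs : 1 < s) (hd : Dom (vp N m) s) {u : ℂ}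
    (hu : Polynomial.aeval u (qp N m) = 0) : u.im = 0 := by
  obtain ⟨d, hd2⟩ := IsAlgClosed.exists_eq_mul_self (u ^ 2 - 4)
  set z : ℂ := (u + d) / 2 with hz
  have hz2 : z * z + 1 = u * z := by
    rw [hz]
    linear_combination (-1 / 4 : ℂ) * hd2
  have hz0 : z ≠ 0 := by
    intro h0
    rw [h0] at hz2
    simp at hz2
  have hzu : z + z⁻¹ = u := by
    have h1 : (z + z⁻¹) * z = u * z := by
      rw [← hz2, add_mul, inv_mul_cancel₀ hz0]
    exact mul_right_cancel₀ hz0 h1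
  have hzi : z⁻¹ ≠ 0 := inv_ne_zero hz0
  have hzu' : z⁻¹ + (z⁻¹)⁻¹ = u := by
    rw [inv_inv, add_comm]
    exact hzu
  have h1 : (cx (vp N m)).eval z = 0 := by
    rw [← qp_aeval hN hz0, hzu, hu, mul_zero]
  have h2 : (cx (vp N m)).eval z⁻¹ = 0 := by
    rw [← qp_aeval hN hzi, hzu', hu, mul_zero]
  obtain ⟨Q, hQ, hQ1⟩ := hd
  have key : ∀ w : ℂ, (cx (vp N m)).eval w = 0 → w = (s : ℂ) ∨ ‖w‖ ≤ 1 := by
    intro w hw
    rw [hQ, eval_mul, eval_sub, eval_X, eval_C] at hw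
    rcases mul_eq_zero.1 hw with h | h
    · exact Or.inl (sub_eq_zero.1 h)
    · exact Or.inr (hQ1 w h)
  rcases key z h1 with h3 | h3
  · rw [← hzu, h3, ← Complex.ofReal_inv, ← Complex.ofReal_add]
    exact Complex.ofReal_im _
  rcases key z⁻¹ h2 with h4 | h4
  · rw [← hzu', h4, ← Complex.ofReal_inv, ← Complex.ofReal_add]
    exact Complex.ofReal_im _
  have h5 : ‖z‖ = 1 := by
    refine le_antisymm h3 ?_
    rw [norm_inv] at h4
    have h6 : 0 < ‖z‖ := norm_pos_iff.2 hz0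
    exact (inv_le_one₀ h6).1 h4
  rw [← hzu, Complex.inv_eq_conj h5, Complex.add_im, Complex.conj_im]
  ring

end SalemLen
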