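import Pool.Agent.Lib.MP_9599cf_ntF.VDef

/-! # Comparison of the root -/

set_option autoImplicit false

namespace SalemLen

open Polynomial

private lemma vRoot_pos {N m : ℕ} (hm : 0 < m) (hN : m < N) {y : ℝ} (hy : 3 ≤ y) :
    0 < y ^ (2 * N) - y ^ (N + m) - y ^ N - y ^ (N - m) + 1 := by
  have hy1 : 1 ≤ y := by linarith
  have h1 : y ^ (N + m) ≤ y ^ (2 * N - 1) := pow_le_pow_right₀ hy1 (by omega)
  have h2 : y ^ N ≤ y ^ (2 * N - 1) := pow_le_pow_right₀ hy1 (by omega)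
  have h3 : y ^ (N - m) ≤ y ^ (2 * N - 1) := pow_le_pow_right₀ hy1 (by omega)
  have h4 : y ^ (2 * N) = y ^ (2 * N - 1) * y := by
    rw [← pow_succ]
    congr 1
    omega
  have h5 : 0 < y ^ (2 * N - 1) := by positivity
  rw [h4]
  nlinarith

/-- PROOF. If `s ≤ r`: the real polynomial `vp N m` is negative at `r` and positive for large `x` (monic of degree
`2 N`, e.g. for `x ≥ 3`), so it has a zero `x > r ≥ s > 1`; by `Dom` a zero `x ≠ s` has `|x| ≤ 1`, a
contradiction. -/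
theorem lt_of_neg {N m : ℕ} (hm : 0 < m) (hN : m < N) {s : ℝ} (hs : 1 < s) (hd : Dom (vp N m) s)
    {r : ℝ} (hneg : r ^ (2 * N) - r ^ (N + m) - r ^ N - r ^ (N - m) + 1 < 0) : r < s := by
  by_contra hsr
  rw [not_lt] at hsr
  have hr3 : r < 3 := by
    by_contra h
    exact absurd (vRoot_pos hm hN (not_lt.1 h)) (not_lt.2 hneg.le)
  have hc : Continuous (fun x : ℝ => x ^ (2 * N) - x ^ (N + m) - x ^ N - x ^ (N - m) + 1) := by
    fun_prop
  obtain ⟨x, hx, hx0⟩ := intermediate_value_Icc hr3.le hc.continuousOn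
    ⟨hneg.le, (vRoot_pos hm hN (le_refl (3 : ℝ))).le⟩
  dsimp only at hx0
  have hrx : r < x := by
    refine lt_of_le_of_ne hx.1 ?_
    intro e
    rw [← e] at hx0
    exact absurd hx0 hneg.ne
  obtain ⟨Q, hQ, hz⟩ := hd
  have h1 : (cx (vp N m)).eval (x : ℂ) = 0 := by
    rw [vp_eval]
    exact_mod_cast congrArg (fun t : ℝ => (t : ℂ)) hx0
  rw [hQ, eval_mul, eval_sub, eval_X, eval_C] at h1
  rcases mul_eq_zero.1 h1 with h2 | h2
  · have h3 : (x : ℂ) = (s : ℂ) := sub_eq_zero.1 h2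
    have h4 : x = s := by exact_mod_cast h3
    linarith
  · have h3 := hz _ h2
    rw [Complex.norm_real, Real.norm_eq_abs] at h3
    have h4 := le_abs_self x
    linarith

end SalemLen
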