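import Pool.Agent.Lib.MP_9599cf_ntF.VDef

/-! # The signs -/

set_option autoImplicit false

namespace SalemLen

open Polynomial

/-- PROOF. `a, b ∈ {1, -1}`. For `s > 1`: if `a = 1`, `s ^ (2 N) + s ^ (N + m) ± s ^ N + ... > 0`. If `a = -1`,
`b = 1`: `s ^ (2 N) - s ^ (N + m) + s ^ N - s ^ (N - m) + 1 =
s ^ (N + m) * (s ^ (N - m) - 1) + s ^ (N - m) * (s ^ m - 1) + 1 > 0`. So `a = b = -1`. -/
theorem shape_signs {N m : ℕ} (hm : 0 < m) (hN : m < N) {a b : ℤ} (ha : |a| = 1) (hb : |b| = 1)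
    {s : ℝ} (hs : 1 < s)
    (h : s ^ (2 * N) + a * s ^ (N + m) + b * s ^ N + a * s ^ (N - m) + 1 = 0) :
    a = -1 ∧ b = -1 := by
  obtain ⟨k, rfl⟩ : ∃ k, N = m + k := ⟨N - m, by omega⟩
  have hk : 0 < k := by omega
  have e0 : m + k - m = k := by omega
  rw [e0] at h
  have hx : 1 < s ^ m := one_lt_pow₀ hs hm.ne'
  have hy : 1 < s ^ k := one_lt_pow₀ hs hk.ne'
  have e1 : s ^ (2 * (m + k)) = (s ^ m) ^ 2 * (s ^ k) ^ 2 := by ring
  have e2 : s ^ (m + k + m) = (s ^ m) ^ 2 * s ^ k := by ring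
  have e3 : s ^ (m + k) = s ^ m * s ^ k := by ring
  rw [e1, e2, e3] at h
  set x := s ^ m with hxd
  set y := s ^ k with hyd
  have hxy : 0 < (x - 1) * (x * y) := by
    have h1 : 0 < x - 1 := by linarith
    have h2 : 0 < x * y := by positivity
    positivity
  have hpos1 : 0 < x ^ 2 * y ^ 2 := by positivity
  have hpos2 : 0 < x * y := by positivity
  have hpos3 : 0 < x ^ 2 * y := by positivity
  have hxy2 : 0 < x ^ 2 * y * (y - 1) := by
    have h1 : 0 < y - 1 := by linarith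
    positivity
  have hxy3 : 0 < y * (x - 1) := by
    have h1 : 0 < x - 1 := by linarith
    positivity
  rcases (abs_eq (by norm_num : (0 : ℤ) ≤ 1)).1 ha with ha | ha <;>
    rcases (abs_eq (by norm_num : (0 : ℤ) ≤ 1)).1 hb with hb | hb <;>
    subst ha <;> subst hb <;> push_cast at h
  · exfalso
    nlinarith
  · exfalso
    nlinarith
  · exfalso
    nlinarith
  · exact ⟨rfl, rfl⟩

end SalemLen
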