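import Pool.Agent.Lib.MP_9599cf_ntF.VDef

/-! # Small `N` -/

set_option autoImplicit false

namespace SalemLen

open Polynomial

private theorem vsm_e (n : ℕ) (u : ℝ) :
    (cp (n + 2)).eval u = u * (cp (n + 1)).eval u - (cp n).eval u := by
  rw [cp, eval_sub, eval_mul, eval_X]

private theorem vsm_d (n : ℕ) (u : ℝ) :
    (derivative (cp (n + 2))).eval u =
      (cp (n + 1)).eval u + u * (derivative (cp (n + 1))).eval u - (derivative (cp n)).eval u := by
  rw [cp, derivative_sub, derivative_mul, derivative_X, one_mul, eval_sub, eval_add, eval_mul, eval_X]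

private theorem vsm_dd (n : ℕ) (u : ℝ) :
    (derivative (derivative (cp (n + 2)))).eval u =
      2 * (derivative (cp (n + 1))).eval u + u * (derivative (derivative (cp (n + 1)))).eval u -
        (derivative (derivative (cp n))).eval u := by
  rw [cp, derivative_sub, derivative_mul, derivative_X, one_mul, derivative_sub, derivative_add,
    derivative_mul, derivative_X, one_mul]
  simp only [eval_sub, eval_add, eval_mul, eval_X]
  ring

private theorem vsm_e0 (u : ℝ) : (cp 0).eval u = 2 := by simp [cp]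

private theorem vsm_d0 (u : ℝ) : (derivative (cp 0)).eval u = 0 := by simp [cp]

private theorem vsm_f0 (u : ℝ) : (derivative (derivative (cp 0))).eval u = 0 := by simp [cp]

private theorem vsm_e1 (u : ℝ) : (cp 1).eval u = u := by simp [cp]

private theorem vsm_d1 (u : ℝ) : (derivative (cp 1)).eval u = 1 := by simp [cp]

private theorem vsm_f1 (u : ℝ) : (derivative (derivative (cp 1))).eval u = 0 := by simp [cp]

private theorem vsm_e2 (u : ℝ) : (cp 2).eval u =
    1 * u ^ 2 - 2 := by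
  rw [vsm_e, vsm_e1, vsm_e0]
  ring

private theorem vsm_d2 (u : ℝ) : (derivative (cp 2)).eval u =
    2 * u := by
  rw [vsm_d, vsm_e1, vsm_d1, vsm_d0]
  ring

private theorem vsm_f2 (u : ℝ) : (derivative (derivative (cp 2))).eval u =
    2 := by
  rw [vsm_dd, vsm_d1, vsm_f1, vsm_f0]
  ring

private theorem vsm_e3 (u : ℝ) : (cp 3).eval u =
    1 * u ^ 3 - 3 * u := by
  rw [vsm_e, vsm_e2, vsm_e1]
  ring

private theorem vsm_d3 (u : ℝ) : (derivative (cp 3)).eval u =
    3 * u ^ 2 - 3 := by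
  rw [vsm_d, vsm_e2, vsm_d2, vsm_d1]
  ring

private theorem vsm_f3 (u : ℝ) : (derivative (derivative (cp 3))).eval u =
    6 * u := by
  rw [vsm_dd, vsm_d2, vsm_f2, vsm_f1]
  ring

private theorem vsm_e4 (u : ℝ) : (cp 4).eval u =
    1 * u ^ 4 - 4 * u ^ 2 + 2 := by
  rw [vsm_e, vsm_e3, vsm_e2]
  ring

private theorem vsm_d4 (u : ℝ) : (derivative (cp 4)).eval u =
    4 * u ^ 3 - 8 * u := by
  rw [vsm_d, vsm_e3, vsm_d3, vsm_d2]
  ring

private theorem vsm_f4 (u : ℝ) : (derivative (derivative (cp 4))).eval u =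
    12 * u ^ 2 - 8 := by
  rw [vsm_dd, vsm_d3, vsm_f3, vsm_f2]
  ring

private theorem vsm_e5 (u : ℝ) : (cp 5).eval u =
    1 * u ^ 5 - 5 * u ^ 3 + 5 * u := by
  rw [vsm_e, vsm_e4, vsm_e3]
  ring

private theorem vsm_d5 (u : ℝ) : (derivative (cp 5)).eval u =
    5 * u ^ 4 - 15 * u ^ 2 + 5 := by
  rw [vsm_d, vsm_e4, vsm_d4, vsm_d3]
  ring

private theorem vsm_f5 (u : ℝ) : (derivative (derivative (cp 5))).eval u =
    20 * u ^ 3 - 30 * u := by
  rw [vsm_dd, vsm_d4, vsm_f4, vsm_f3]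
  ring

private theorem vsm_e6 (u : ℝ) : (cp 6).eval u =
    1 * u ^ 6 - 6 * u ^ 4 + 9 * u ^ 2 - 2 := by
  rw [vsm_e, vsm_e5, vsm_e4]
  ring

private theorem vsm_d6 (u : ℝ) : (derivative (cp 6)).eval u =
    6 * u ^ 5 - 24 * u ^ 3 + 18 * u := by
  rw [vsm_d, vsm_e5, vsm_d5, vsm_d4]
  ring

private theorem vsm_f6 (u : ℝ) : (derivative (derivative (cp 6))).eval u =
    30 * u ^ 4 - 72 * u ^ 2 + 18 := by
  rw [vsm_dd, vsm_d5, vsm_f5, vsm_f4]
  ring

private theorem vsm_e7 (u : ℝ) : (cp 7).eval u =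
    1 * u ^ 7 - 7 * u ^ 5 + 14 * u ^ 3 - 7 * u := by
  rw [vsm_e, vsm_e6, vsm_e5]
  ring

private theorem vsm_d7 (u : ℝ) : (derivative (cp 7)).eval u =
    7 * u ^ 6 - 35 * u ^ 4 + 42 * u ^ 2 - 7 := by
  rw [vsm_d, vsm_e6, vsm_d6, vsm_d5]
  ring

private theorem vsm_f7 (u : ℝ) : (derivative (derivative (cp 7))).eval u =
    42 * u ^ 5 - 140 * u ^ 3 + 84 * u := by
  rw [vsm_dd, vsm_d6, vsm_f6, vsm_f5]
  ring

private theorem vsm_e8 (u : ℝ) : (cp 8).eval u =
    1 * u ^ 8 - 8 * u ^ 6 + 20 * u ^ 4 - 16 * u ^ 2 + 2 := by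
  rw [vsm_e, vsm_e7, vsm_e6]
  ring

private theorem vsm_d8 (u : ℝ) : (derivative (cp 8)).eval u =
    8 * u ^ 7 - 48 * u ^ 5 + 80 * u ^ 3 - 32 * u := by
  rw [vsm_d, vsm_e7, vsm_d7, vsm_d6]
  ring

private theorem vsm_f8 (u : ℝ) : (derivative (derivative (cp 8))).eval u =
    56 * u ^ 6 - 240 * u ^ 4 + 240 * u ^ 2 - 32 := by
  rw [vsm_dd, vsm_d7, vsm_f7, vsm_f6]
  ring

private theorem vsm_e9 (u : ℝ) : (cp 9).eval u =
    1 * u ^ 9 - 9 * u ^ 7 + 27 * u ^ 5 - 30 * u ^ 3 + 9 * u := by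
  rw [vsm_e, vsm_e8, vsm_e7]
  ring

private theorem vsm_d9 (u : ℝ) : (derivative (cp 9)).eval u =
    9 * u ^ 8 - 63 * u ^ 6 + 135 * u ^ 4 - 90 * u ^ 2 + 9 := by
  rw [vsm_d, vsm_e8, vsm_d8, vsm_d7]
  ring

private theorem vsm_f9 (u : ℝ) : (derivative (derivative (cp 9))).eval u =
    72 * u ^ 7 - 378 * u ^ 5 + 540 * u ^ 3 - 180 * u := by
  rw [vsm_dd, vsm_d8, vsm_f8, vsm_f7]
  ring

private theorem vsm_e10 (u : ℝ) : (cp 10).eval u =
    1 * u ^ 10 - 10 * u ^ 8 + 35 * u ^ 6 - 50 * u ^ 4 + 25 * u ^ 2 - 2 := by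
  rw [vsm_e, vsm_e9, vsm_e8]
  ring

private theorem vsm_d10 (u : ℝ) : (derivative (cp 10)).eval u =
    10 * u ^ 9 - 80 * u ^ 7 + 210 * u ^ 5 - 200 * u ^ 3 + 50 * u := by
  rw [vsm_d, vsm_e9, vsm_d9, vsm_d8]
  ring

private theorem vsm_f10 (u : ℝ) : (derivative (derivative (cp 10))).eval u =
    90 * u ^ 8 - 560 * u ^ 6 + 1050 * u ^ 4 - 600 * u ^ 2 + 50 := by
  rw [vsm_dd, vsm_d9, vsm_f9, vsm_f8]
  ring

private theorem vsm_e11 (u : ℝ) : (cp 11).eval u =
    1 * u ^ 11 - 11 * u ^ 9 + 44 * u ^ 7 - 77 * u ^ 5 + 55 * u ^ 3 - 11 * u := by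
  rw [vsm_e, vsm_e10, vsm_e9]
  ring

private theorem vsm_d11 (u : ℝ) : (derivative (cp 11)).eval u =
    11 * u ^ 10 - 99 * u ^ 8 + 308 * u ^ 6 - 385 * u ^ 4 + 165 * u ^ 2 - 11 := by
  rw [vsm_d, vsm_e10, vsm_d10, vsm_d9]
  ring

private theorem vsm_f11 (u : ℝ) : (derivative (derivative (cp 11))).eval u =
    110 * u ^ 9 - 792 * u ^ 7 + 1848 * u ^ 5 - 1540 * u ^ 3 + 330 * u := by
  rw [vsm_dd, vsm_d10, vsm_f10, vsm_f9]
  ring

private theorem vsm_e12 (u : ℝ) : (cp 12).eval u =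
    1 * u ^ 12 - 12 * u ^ 10 + 54 * u ^ 8 - 112 * u ^ 6 + 105 * u ^ 4 - 36 * u ^ 2 + 2 := by
  rw [vsm_e, vsm_e11, vsm_e10]
  ring

private theorem vsm_d12 (u : ℝ) : (derivative (cp 12)).eval u =
    12 * u ^ 11 - 120 * u ^ 9 + 432 * u ^ 7 - 672 * u ^ 5 + 420 * u ^ 3 - 72 * u := by
  rw [vsm_d, vsm_e11, vsm_d11, vsm_d10]
  ring

private theorem vsm_f12 (u : ℝ) : (derivative (derivative (cp 12))).eval u =
    132 * u ^ 10 - 1080 * u ^ 8 + 3024 * u ^ 6 - 3360 * u ^ 4 + 1260 * u ^ 2 - 72 := by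
  rw [vsm_dd, vsm_d11, vsm_f11, vsm_f10]
  ring

private theorem vsm_lag {N m : ℕ}
    (hlag : ∀ u : ℝ, (qp N m).eval u * (derivative (derivative (qp N m))).eval u ≤
      ((derivative (qp N m)).eval u) ^ 2) (u : ℝ) :
    ((cp N).eval u - (cp m).eval u - 1) *
      ((derivative (derivative (cp N))).eval u - (derivative (derivative (cp m))).eval u) ≤
      ((derivative (cp N)).eval u - (derivative (cp m)).eval u) ^ 2 := by
  have h := hlag u
  simpa [qp] using h

private theorem vsm_7_1 (hlag : ∀ u : ℝ, (qp 7 1).eval u *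
    (derivative (derivative (qp 7 1))).eval u ≤ ((derivative (qp 7 1)).eval u) ^ 2) : False := by
  have h := vsm_lag hlag (5/4)
  rw [vsm_e7, vsm_e1, vsm_d7, vsm_d1, vsm_f7, vsm_f1] at h
  norm_num at h

private theorem vsm_7_2 (hlag : ∀ u : ℝ, (qp 7 2).eval u *
    (derivative (derivative (qp 7 2))).eval u ≤ ((derivative (qp 7 2)).eval u) ^ 2) : False := by
  have h := vsm_lag hlag (-7/4)
  rw [vsm_e7, vsm_e2, vsm_d7, vsm_d2, vsm_f7, vsm_f2] at h
  norm_num at h

private theorem vsm_7_3 (hlag : ∀ u : ℝ, (qp 7 3).eval u *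
    (derivative (derivative (qp 7 3))).eval u ≤ ((derivative (qp 7 3)).eval u) ^ 2) : False := by
  have h := vsm_lag hlag (-1/3)
  rw [vsm_e7, vsm_e3, vsm_d7, vsm_d3, vsm_f7, vsm_f3] at h
  norm_num at h

private theorem vsm_8_1 (hlag : ∀ u : ℝ, (qp 8 1).eval u *
    (derivative (derivative (qp 8 1))).eval u ≤ ((derivative (qp 8 1)).eval u) ^ 2) : False := by
  have h := vsm_lag hlag (3/2)
  rw [vsm_e8, vsm_e1, vsm_d8, vsm_d1, vsm_f8, vsm_f1] at h
  norm_num at h

private theorem vsm_8_3 (hlag : ∀ u : ℝ, (qp 8 3).eval u *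
    (derivative (derivative (qp 8 3))).eval u ≤ ((derivative (qp 8 3)).eval u) ^ 2) : False := by
  have h := vsm_lag hlag (-3/2)
  rw [vsm_e8, vsm_e3, vsm_d8, vsm_d3, vsm_f8, vsm_f3] at h
  norm_num at h

private theorem vsm_8_5 (hlag : ∀ u : ℝ, (qp 8 5).eval u *
    (derivative (derivative (qp 8 5))).eval u ≤ ((derivative (qp 8 5)).eval u) ^ 2) : False := by
  have h := vsm_lag hlag (-4/3)
  rw [vsm_e8, vsm_e5, vsm_d8, vsm_d5, vsm_f8, vsm_f5] at h
  norm_num at h

private theorem vsm_9_1 (hlag : ∀ u : ℝ, (qp 9 1).eval u *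
    (derivative (derivative (qp 9 1))).eval u ≤ ((derivative (qp 9 1)).eval u) ^ 2) : False := by
  have h := vsm_lag hlag (3/2)
  rw [vsm_e9, vsm_e1, vsm_d9, vsm_d1, vsm_f9, vsm_f1] at h
  norm_num at h

private theorem vsm_9_2 (hlag : ∀ u : ℝ, (qp 9 2).eval u *
    (derivative (derivative (qp 9 2))).eval u ≤ ((derivative (qp 9 2)).eval u) ^ 2) : False := by
  have h := vsm_lag hlag (-11/6)
  rw [vsm_e9, vsm_e2, vsm_d9, vsm_d2, vsm_f9, vsm_f2] at h
  norm_num at h

private theorem vsm_9_4 (hlag : ∀ u : ℝ, (qp 9 4).eval u *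
    (derivative (derivative (qp 9 4))).eval u ≤ ((derivative (qp 9 4)).eval u) ^ 2) : False := by
  have h := vsm_lag hlag (1/2)
  rw [vsm_e9, vsm_e4, vsm_d9, vsm_d4, vsm_f9, vsm_f4] at h
  norm_num at h

private theorem vsm_9_5 (hlag : ∀ u : ℝ, (qp 9 5).eval u *
    (derivative (derivative (qp 9 5))).eval u ≤ ((derivative (qp 9 5)).eval u) ^ 2) : False := by
  have h := vsm_lag hlag (1/3)
  rw [vsm_e9, vsm_e5, vsm_d9, vsm_d5, vsm_f9, vsm_f5] at h
  norm_num at h

private theorem vsm_9_7 (hlag : ∀ u : ℝ, (qp 9 7).eval u *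
    (derivative (derivative (qp 9 7))).eval u ≤ ((derivative (qp 9 7)).eval u) ^ 2) : False := by
  have h := vsm_lag hlag (-23/12)
  rw [vsm_e9, vsm_e7, vsm_d9, vsm_d7, vsm_f9, vsm_f7] at h
  norm_num at h

private theorem vsm_10_1 (hlag : ∀ u : ℝ, (qp 10 1).eval u *
    (derivative (derivative (qp 10 1))).eval u ≤ ((derivative (qp 10 1)).eval u) ^ 2) : False := by
  have h := vsm_lag hlag (5/3)
  rw [vsm_e10, vsm_e1, vsm_d10, vsm_d1, vsm_f10, vsm_f1] at h
  norm_num at h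

private theorem vsm_10_3 (hlag : ∀ u : ℝ, (qp 10 3).eval u *
    (derivative (derivative (qp 10 3))).eval u ≤ ((derivative (qp 10 3)).eval u) ^ 2) : False := by
  have h := vsm_lag hlag (-1/2)
  rw [vsm_e10, vsm_e3, vsm_d10, vsm_d3, vsm_f10, vsm_f3] at h
  norm_num at h

private theorem vsm_10_7 (hlag : ∀ u : ℝ, (qp 10 7).eval u *
    (derivative (derivative (qp 10 7))).eval u ≤ ((derivative (qp 10 7)).eval u) ^ 2) : False := by
  have h := vsm_lag hlag (-2/3)
  rw [vsm_e10, vsm_e7, vsm_d10, vsm_d7, vsm_f10, vsm_f7] at h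
  norm_num at h

private theorem vsm_11_1 (hlag : ∀ u : ℝ, (qp 11 1).eval u *
    (derivative (derivative (qp 11 1))).eval u ≤ ((derivative (qp 11 1)).eval u) ^ 2) : False := by
  have h := vsm_lag hlag (5/3)
  rw [vsm_e11, vsm_e1, vsm_d11, vsm_d1, vsm_f11, vsm_f1] at h
  norm_num at h

private theorem vsm_11_2 (hlag : ∀ u : ℝ, (qp 11 2).eval u *
    (derivative (derivative (qp 11 2))).eval u ≤ ((derivative (qp 11 2)).eval u) ^ 2) : False := by
  have h := vsm_lag hlag (-17/9)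
  rw [vsm_e11, vsm_e2, vsm_d11, vsm_d2, vsm_f11, vsm_f2] at h
  norm_num at h

private theorem vsm_11_3 (hlag : ∀ u : ℝ, (qp 11 3).eval u *
    (derivative (derivative (qp 11 3))).eval u ≤ ((derivative (qp 11 3)).eval u) ^ 2) : False := by
  have h := vsm_lag hlag (-4/3)
  rw [vsm_e11, vsm_e3, vsm_d11, vsm_d3, vsm_f11, vsm_f3] at h
  norm_num at h

private theorem vsm_11_4 (hlag : ∀ u : ℝ, (qp 11 4).eval u *
    (derivative (derivative (qp 11 4))).eval u ≤ ((derivative (qp 11 4)).eval u) ^ 2) : False := by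
  have h := vsm_lag hlag (-1/3)
  rw [vsm_e11, vsm_e4, vsm_d11, vsm_d4, vsm_f11, vsm_f4] at h
  norm_num at h

private theorem vsm_11_5 (hlag : ∀ u : ℝ, (qp 11 5).eval u *
    (derivative (derivative (qp 11 5))).eval u ≤ ((derivative (qp 11 5)).eval u) ^ 2) : False := by
  have h := vsm_lag hlag (4/5)
  rw [vsm_e11, vsm_e5, vsm_d11, vsm_d5, vsm_f11, vsm_f5] at h
  norm_num at h

private theorem vsm_11_6 (hlag : ∀ u : ℝ, (qp 11 6).eval u *
    (derivative (derivative (qp 11 6))).eval u ≤ ((derivative (qp 11 6)).eval u) ^ 2) : False := by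
  have h := vsm_lag hlag (2/3)
  rw [vsm_e11, vsm_e6, vsm_d11, vsm_d6, vsm_f11, vsm_f6] at h
  norm_num at h

private theorem vsm_11_7 (hlag : ∀ u : ℝ, (qp 11 7).eval u *
    (derivative (derivative (qp 11 7))).eval u ≤ ((derivative (qp 11 7)).eval u) ^ 2) : False := by
  have h := vsm_lag hlag (-1/3)
  rw [vsm_e11, vsm_e7, vsm_d11, vsm_d7, vsm_f11, vsm_f7] at h
  norm_num at h

private theorem vsm_11_8 (hlag : ∀ u : ℝ, (qp 11 8).eval u *
    (derivative (derivative (qp 11 8))).eval u ≤ ((derivative (qp 11 8)).eval u) ^ 2) : False := by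
  have h := vsm_lag hlag (-5/4)
  rw [vsm_e11, vsm_e8, vsm_d11, vsm_d8, vsm_f11, vsm_f8] at h
  norm_num at h

private theorem vsm_11_9 (hlag : ∀ u : ℝ, (qp 11 9).eval u *
    (derivative (derivative (qp 11 9))).eval u ≤ ((derivative (qp 11 9)).eval u) ^ 2) : False := by
  have h := vsm_lag hlag (-31/16)
  rw [vsm_e11, vsm_e9, vsm_d11, vsm_d9, vsm_f11, vsm_f9] at h
  norm_num at h

private theorem vsm_11_10 (hlag : ∀ u : ℝ, (qp 11 10).eval u *
    (derivative (derivative (qp 11 10))).eval u ≤ ((derivative (qp 11 10)).eval u) ^ 2) : False := by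
  have h := vsm_lag hlag (7/4)
  rw [vsm_e11, vsm_e10, vsm_d11, vsm_d10, vsm_f11, vsm_f10] at h
  norm_num at h

private theorem vsm_12_1 (hlag : ∀ u : ℝ, (qp 12 1).eval u *
    (derivative (derivative (qp 12 1))).eval u ≤ ((derivative (qp 12 1)).eval u) ^ 2) : False := by
  have h := vsm_lag hlag (7/4)
  rw [vsm_e12, vsm_e1, vsm_d12, vsm_d1, vsm_f12, vsm_f1] at h
  norm_num at h

private theorem vsm_12_5 (hlag : ∀ u : ℝ, (qp 12 5).eval u *
    (derivative (derivative (qp 12 5))).eval u ≤ ((derivative (qp 12 5)).eval u) ^ 2) : False := by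
  have h := vsm_lag hlag (-7/4)
  rw [vsm_e12, vsm_e5, vsm_d12, vsm_d5, vsm_f12, vsm_f5] at h
  norm_num at h

private theorem vsm_12_7 (hlag : ∀ u : ℝ, (qp 12 7).eval u *
    (derivative (derivative (qp 12 7))).eval u ≤ ((derivative (qp 12 7)).eval u) ^ 2) : False := by
  have h := vsm_lag hlag (-5/3)
  rw [vsm_e12, vsm_e7, vsm_d12, vsm_d7, vsm_f12, vsm_f7] at h
  norm_num at h

private theorem vsm_12_11 (hlag : ∀ u : ℝ, (qp 12 11).eval u *
    (derivative (derivative (qp 12 11))).eval u ≤ ((derivative (qp 12 11)).eval u) ^ 2) : False := by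
  have h := vsm_lag hlag (9/5)
  rw [vsm_e12, vsm_e11, vsm_d12, vsm_d11, vsm_f12, vsm_f11] at h
  norm_num at h

/-- PROOF. `interval_cases` for `N` (2 to 12) and `m`. If `gcd N m > 1`, contradiction to `hc` (`decide`). For
`(2,1) (3,1) (3,2) (4,1) (4,3) (5,1) (5,2) (5,3) (5,4) (6,5) (7,5) (7,6) (8,7) (9,8) (10,9)` the last inequality
holds (`norm_num`). `(6,1)` and `(7,4)` are the first alternatives. For the other pairs `hlag` fails at
`u = u0 (N, m)`: (7,1) 5/4; (7,2) -7/4; (7,3) -1/3; (8,1) 3/2; (8,3) -3/2; (8,5) -4/3; (9,1) 3/2; (9,2) -11/6;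
(9,4) 1/2; (9,5) 1/3; (9,7) -23/12; (10,1) 5/3; (10,3) -1/2; (10,7) -2/3; (11,1) 5/3; (11,2) -17/9;
(11,3) -4/3; (11,4) -1/3; (11,5) 4/5; (11,6) 2/3; (11,7) -1/3; (11,8) -5/4; (11,9) -31/16; (11,10) 7/4;
(12,1) 7/4; (12,5) -7/4; (12,7) -5/3; (12,11) 9/5. To evaluate, prove first the recurrences
`(cp (n + 2)).eval u = u * (cp (n + 1)).eval u - (cp n).eval u`,
`(derivative (cp (n + 2))).eval u = (cp (n + 1)).eval u + u * (derivative (cp (n + 1))).eval u - (derivative (cp n)).eval u`,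
`(derivative (derivative (cp (n + 2)))).eval u = 2 * (derivative (cp (n + 1))).eval u
+ u * (derivative (derivative (cp (n + 1)))).eval u - (derivative (derivative (cp n))).eval u`,
and compute the three sequences up to `12` for each `u` (16 different values of `u`); one private lemma for each
value of `u`. -/
theorem small_cases {N m : ℕ} (hN : N ≤ 12) (hm : 0 < m) (hmN : m < N) (hc : Nat.Coprime m N)
    (hlag : ∀ u : ℝ, (qp N m).eval u * (derivative (derivative (qp N m))).eval u ≤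
      ((derivative (qp N m)).eval u) ^ 2) :
    (N = 6 ∧ m = 1) ∨ (N = 7 ∧ m = 4) ∨
      (119 / 100 : ℝ) ^ (2 * N) - (119 / 100) ^ (N + m) - (119 / 100) ^ N - (119 / 100) ^ (N - m) + 1
        < 0 := by
  have h2 : 2 ≤ N := by omega
  interval_cases N
  · interval_cases m
    · exact Or.inr (Or.inr (by norm_num))
  · interval_cases m
    · exact Or.inr (Or.inr (by norm_num))
    · exact Or.inr (Or.inr (by norm_num))
  · interval_cases m
    · exact Or.inr (Or.inr (by norm_num))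
    · norm_num at hc
    · exact Or.inr (Or.inr (by norm_num))
  · interval_cases m
    · exact Or.inr (Or.inr (by norm_num))
    · exact Or.inr (Or.inr (by norm_num))
    · exact Or.inr (Or.inr (by norm_num))
    · exact Or.inr (Or.inr (by norm_num))
  · interval_cases m
    · exact Or.inl ⟨rfl, rfl⟩
    · norm_num at hc
    · norm_num at hc
    · norm_num at hc
    · exact Or.inr (Or.inr (by norm_num))
  · interval_cases m
    · exact (vsm_7_1 hlag).elim
    · exact (vsm_7_2 hlag).elim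
    · exact (vsm_7_3 hlag).elim
    · exact Or.inr (Or.inl ⟨rfl, rfl⟩)
    · exact Or.inr (Or.inr (by norm_num))
    · exact Or.inr (Or.inr (by norm_num))
  · interval_cases m
    · exact (vsm_8_1 hlag).elim
    · norm_num at hc
    · exact (vsm_8_3 hlag).elim
    · norm_num at hc
    · exact (vsm_8_5 hlag).elim
    · norm_num at hc
    · exact Or.inr (Or.inr (by norm_num))
  · interval_cases m
    · exact (vsm_9_1 hlag).elim
    · exact (vsm_9_2 hlag).elim
    · norm_num at hc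
    · exact (vsm_9_4 hlag).elim
    · exact (vsm_9_5 hlag).elim
    · norm_num at hc
    · exact (vsm_9_7 hlag).elim
    · exact Or.inr (Or.inr (by norm_num))
  · interval_cases m
    · exact (vsm_10_1 hlag).elim
    · norm_num at hc
    · exact (vsm_10_3 hlag).elim
    · norm_num at hc
    · norm_num at hc
    · norm_num at hc
    · exact (vsm_10_7 hlag).elim
    · norm_num at hc
    · exact Or.inr (Or.inr (by norm_num))
  · interval_cases m
    · exact (vsm_11_1 hlag).elim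
    · exact (vsm_11_2 hlag).elim
    · exact (vsm_11_3 hlag).elim
    · exact (vsm_11_4 hlag).elim
    · exact (vsm_11_5 hlag).elim
    · exact (vsm_11_6 hlag).elim
    · exact (vsm_11_7 hlag).elim
    · exact (vsm_11_8 hlag).elim
    · exact (vsm_11_9 hlag).elim
    · exact (vsm_11_10 hlag).elim
  · interval_cases m
    · exact (vsm_12_1 hlag).elim
    · norm_num at hc
    · norm_num at hc
    · norm_num at hc
    · exact (vsm_12_5 hlag).elim
    · norm_num at hc
    · exact (vsm_12_7 hlag).elim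
    · norm_num at hc
    · norm_num at hc
    · norm_num at hc
    · exact (vsm_12_11 hlag).elim

end SalemLen
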