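import Pool.Agent.Lib.MP_9599cf_ntF.VShape
import Pool.Agent.Lib.MP_9599cf_ntF.VSign
import Pool.Agent.Lib.MP_9599cf_ntF.VGcd
import Pool.Agent.Lib.MP_9599cf_ntF.VReal
import Pool.Agent.Lib.MP_9599cf_ntF.VProd
import Pool.Agent.Lib.MP_9599cf_ntF.VLag
import Pool.Agent.Lib.MP_9599cf_ntF.VLarge
import Pool.Agent.Lib.MP_9599cf_ntF.VSmall
import Pool.Agent.Lib.MP_9599cf_ntF.VRoot
import Pool.Agent.Lib.MP_9599cf_ntF.VLehmer
import Pool.Agent.Lib.MP_9599cf_ntF.VCount
import Pool.Agent.Lib.MP_9599cf_ntA.QRecip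
import Pool.Agent.Lib.MP_9599cf_ntA.Alg
import Pool.Agent.Lib.MP_9599cf_ntL.Strip
import Pool.Agent.Lib.MP_9599cf_ntL.Card4
import Pool.Agent.Lib.MP_9599cf_ntL.Recip
import Pool.Agent.Lib.MP_9599cf_ntL.LenCard

/-! # The least Salem number of length five -/

set_option autoImplicit false

namespace SalemLen

open Polynomial

theorem eval_cx_real (P : ℤ[X]) (x : ℝ) :
    (cx P).eval (x : ℂ) = ((Polynomial.aeval x P : ℝ) : ℂ) := by
  have h : (cx P).eval (x : ℂ) = Polynomial.aeval (x : ℂ) P := by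
    rw [cx, eval_map]
    rfl
  rw [h, show (x : ℂ) = algebraMap ℝ ℂ x from rfl, Polynomial.aeval_algebraMap_apply]
  rfl

theorem lehmer_monic : lehmer.Monic ∧ lehmer.coeff 0 ≠ 0 := by
  constructor
  · unfold lehmer
    monicity!
  · simp [lehmer, coeff_X, coeff_one, coeff_X_pow]

theorem exists_lehmer : ∃ t : ℝ, IsSalem t ∧ Dom lehmer t ∧ 1 < t ∧ t < 119 / 100 ∧
    (cx lehmer).eval (t : ℂ) = 0 := by
  obtain ⟨t, h1, h2, h3⟩ := lehmer_root
  have hinv0 : 0 < t⁻¹ := inv_pos.2 (by linarith)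
  have hinv1 : t⁻¹ < 1 := inv_lt_one_of_one_lt₀ h1
  have h4 : 2 < t + t⁻¹ := by
    have h5 : 0 < (t - 1) ^ 2 / t := div_pos (pow_pos (by linarith) 2) (by linarith)
    have h6 : (t - 1) ^ 2 / t = t + t⁻¹ - 2 := by
      have : t ≠ 0 := by linarith
      field_simp
      ring
    linarith
  obtain ⟨hs, hd⟩ := salem_of_recip lehmer_monic.1 lehmer_monic.2
    (fun z hz hz0 => lehmer_inv hz hz0) h1
    (fun a ha => by
      rw [ha] at h1 h2
      have h5 : (1 : ℤ) < a := by exact_mod_cast h1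
      have h6 : (a : ℝ) < (2 : ℤ) := by push_cast; linarith
      have h7 : a < 2 := by exact_mod_cast h6
      omega)
    (fun a ha => by
      have h5 : ((2 : ℤ) : ℝ) < (a : ℝ) := by push_cast; linarith
      have h6 : (a : ℝ) < ((3 : ℤ) : ℝ) := by push_cast; linarith
      have h7 : (2 : ℤ) < a := by exact_mod_cast h5
      have h8 : a < (3 : ℤ) := by exact_mod_cast h6
      omega)
    h3 (fun x y Q hQ hx hy => lehmer_count x y Q hQ hx hy)
  exact ⟨t, hs, hd, h1, h2, h3⟩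

/-- The set `T 5` has a least element, Lehmer's number. -/
theorem lehmer_five : ∃ t ∈ T 5, Polynomial.aeval t lehmer = 0 ∧ ∀ s ∈ T 5, t ≤ s := by
  obtain ⟨t, hs, hd, h1, h2, h3⟩ := exists_lehmer
  have hroot : Polynomial.aeval t lehmer = 0 := by
    rw [eval_cx_real] at h3
    exact_mod_cast h3
  obtain ⟨hd7, hd6⟩ := dom_of_lehmer hd
  refine ⟨t, ⟨hs, vp 7 4, vp_seven_len.1, vp_seven_len.2, hd7⟩, hroot, ?_⟩
  rintro s ⟨hss, P0, hP0, hl0, hd0⟩
  obtain ⟨P, hP, hl, hdP, hc0⟩ := exists_coeff_zero hP0 hss.2.1 hd0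
  rw [← hl] at hl0
  obtain ⟨c1, c2⟩ := card_cases hss hP hc0 hdP
  have c3 := card_le_len P
  have hcard : P.support.card = 5 := by
    by_contra hne
    have c4 := c2 (by omega)
    omega
  obtain ⟨N, m, a, b, hm, hmN, ha, hb, hPeq⟩ :=
    shape_coeffs hP hc0 hcard hl0 (hss.reverse_eq hP hc0 hdP)
  have hs0 : (cx P).eval (s : ℂ) = 0 := by
    obtain ⟨Q, hQ, -⟩ := hdP
    rw [hQ, eval_mul, eval_sub, eval_X, eval_C, sub_self, zero_mul]
  have hs1 : s ^ (2 * N) + a * s ^ (N + m) + b * s ^ N + a * s ^ (N - m) + 1 = 0 := by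
    rw [eval_cx_real, hPeq] at hs0
    have h4 : Polynomial.aeval s (X ^ (2 * N) + C a * X ^ (N + m) + C b * X ^ N +
        C a * X ^ (N - m) + 1 : ℤ[X]) = 0 := by exact_mod_cast hs0
    simpa using h4
  obtain ⟨ha', hb'⟩ := shape_signs hm hmN ha hb hss.2.1 hs1
  have hPv : P = vp N m := by
    rw [hPeq, ha', hb', vp, C_neg, C_1]
    ring
  rw [hPv] at hdP
  have hco := coprime_of_dom hm hmN hss.2.1 hdP
  obtain ⟨U, hU⟩ := exists_prod (qp_monic hm hmN).1
    (fun u hu => real_of_root hmN hss.2.1 hdP hu)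
  have hN : N ≤ 12 := by
    by_contra hcon
    exact not_large (by omega) hm hmN hco hU
  have hlag : ∀ u : ℝ, (qp N m).eval u * (derivative (derivative (qp N m))).eval u ≤
      ((derivative (qp N m)).eval u) ^ 2 := by
    intro u
    rw [hU]
    exact laguerre U u
  have hv : ∀ {F G : ℤ[X]}, F = lehmer * G → (cx F).eval (t : ℂ) = 0 := by
    intro F G hF
    rw [hF, cx, Polynomial.map_mul, eval_mul]
    change (cx lehmer).eval (t : ℂ) * _ = 0
    rw [h3, zero_mul]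
  rcases small_cases hN hm hmN hco hlag with ⟨rfl, rfl⟩ | ⟨rfl, rfl⟩ | hneg
  · exact (hdP.eq_of_root h1 (hv vp_seven.2)).le
  · exact (hdP.eq_of_root h1 (hv vp_seven.1)).le
  · have h5 := lt_of_neg hm hmN hss.2.1 hdP hneg
    linarith

end SalemLen
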