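import Pool.Agent.Lib.MP_9599cf_ntF.VDef

/-! # Reciprocal polynomials with five coefficients `± 1` -/

set_option autoImplicit false

namespace SalemLen

open Polynomial

private theorem VShape_abs {P : ℤ[X]} (hc : P.support.card = 5) (hl : len P ≤ 5) {i : ℕ}
    (hi : P.coeff i ≠ 0) : |P.coeff i| = 1 := by
  have h1 : ∀ j ∈ P.support, 1 ≤ (P.coeff j).natAbs := fun j hj => by
    have := mem_support_iff.1 hj
    omega
  have h2 : ∑ j ∈ P.support, 1 = 5 := by rw [Finset.sum_const, hc]; rfl
  have h3 : ∑ j ∈ P.support, 1 ≤ ∑ j ∈ P.support, (P.coeff j).natAbs := Finset.sum_le_sum h1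
  have h4 : ∑ j ∈ P.support, 1 = ∑ j ∈ P.support, (P.coeff j).natAbs := by
    have h5 : ∑ j ∈ P.support, (P.coeff j).natAbs ≤ 5 := hl
    omega
  have h5 := (Finset.sum_eq_sum_iff_of_le h1).1 h4 i (mem_support_iff.2 hi)
  rw [Int.abs_eq_natAbs, ← h5]
  rfl

private theorem VShape_sym {P : ℤ[X]} {s : ℤ} (h : P.reverse = C s * P) {i : ℕ}
    (hi : i ≤ P.natDegree) : P.coeff (P.natDegree - i) = s * P.coeff i := by
  have h1 := congrArg (fun Q => Polynomial.coeff Q i) h
  simp only [coeff_reverse, revAt_le hi, coeff_C_mul] at h1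
  exact h1

/-- PROOF. `len P ≤ 5` and five monomials: all coefficients are `± 1` (each nonzero one has absolute value at
least one). Let `n = P.natDegree`. As `P.coeff 0 ≠ 0` and `P.reverse = ± P`, `P.coeff (n - i) = ± P.coeff i` for
`i ≤ n` (`Polynomial.coeff_reverse`, `Polynomial.revAt_le`), so the support (five elements, in `[0, n]`) is
symmetric under `i ↦ n - i`; five is odd, so there is a fixed point `n = 2 N`, `P.coeff N ≠ 0`, which excludes the
sign `-`. So the support is `{0, i, N, 2 N - i, 2 N}` with `0 < i < N`, and `m = N - i`. -/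
theorem shape_coeffs {P : ℤ[X]} (hP : P.Monic) (h0 : P.coeff 0 ≠ 0) (hc : P.support.card = 5)
    (hl : len P ≤ 5) (hrev : P.reverse = P ∨ P.reverse = -P) :
    ∃ (N m : ℕ) (a b : ℤ), 0 < m ∧ m < N ∧ |a| = 1 ∧ |b| = 1 ∧
      P = X ^ (2 * N) + C a * X ^ (N + m) + C b * X ^ N + C a * X ^ (N - m) + 1 := by
  classical
  obtain ⟨s, hs0, hs⟩ : ∃ s : ℤ, s ≠ 0 ∧ P.reverse = C s * P := by
    rcases hrev with h | h
    · exact ⟨1, one_ne_zero, by rw [h, map_one, one_mul]⟩
    · exact ⟨-1, by norm_num, by rw [h, map_neg, map_one, neg_one_mul]⟩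
  obtain ⟨n, hn⟩ : ∃ n, P.natDegree = n := ⟨_, rfl⟩
  have hsym : ∀ i, i ≤ n → P.coeff (n - i) = s * P.coeff i := fun i hi => by
    rw [← hn]
    exact VShape_sym hs (by rw [hn]; exact hi)
  have hlead : P.coeff n = 1 := by
    rw [← hn]
    exact hP
  have hdeg : ∀ j, n < j → P.coeff j = 0 := fun j hj =>
    coeff_eq_zero_of_natDegree_lt (by rw [hn]; exact hj)
  have hmem : ∀ i, i ∈ P.support → i ≤ n := fun i hi => by
    by_contra hc'
    exact mem_support_iff.1 hi (hdeg i (by omega))
  -- the two halves
  set A := P.support.filter (fun i => 2 * i < n) with hA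
  set M := P.support.filter (fun i => 2 * i = n) with hM
  set D := P.support.filter (fun i => n < 2 * i) with hD
  have hAD : A.card = D.card := by
    refine Finset.card_bij (fun i _ => n - i) (fun i hi => ?_) (fun i hi j hj hij => ?_)
      (fun j hj => ?_)
    · rw [hA, Finset.mem_filter] at hi
      rw [hD, Finset.mem_filter]
      refine ⟨mem_support_iff.2 ?_, by omega⟩
      rw [hsym i (hmem i hi.1)]
      exact mul_ne_zero hs0 (mem_support_iff.1 hi.1)
    · rw [hA, Finset.mem_filter] at hi hj
      have h1 := hmem i hi.1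
      have h2 := hmem j hj.1
      omega
    · rw [hD, Finset.mem_filter] at hj
      have h1 := hmem j hj.1
      refine ⟨n - j, ?_, by omega⟩
      rw [hA, Finset.mem_filter]
      refine ⟨mem_support_iff.2 ?_, by omega⟩
      rw [hsym j h1]
      exact mul_ne_zero hs0 (mem_support_iff.1 hj.1)
  have hsum : A.card + (M.card + D.card) = 5 := by
    have h1 := Finset.card_filter_add_card_filter_not (s := P.support) (fun i => 2 * i < n)
    have h2 := Finset.card_filter_add_card_filter_not
      (s := P.support.filter (fun i => ¬ 2 * i < n)) (fun i => 2 * i = n)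
    have e1 : (P.support.filter (fun i => ¬ 2 * i < n)).filter (fun i => 2 * i = n) = M := by
      rw [hM]
      ext i
      simp only [Finset.mem_filter]
      constructor
      · rintro ⟨⟨q1, q2⟩, q3⟩
        exact ⟨q1, q3⟩
      · rintro ⟨q1, q2⟩
        exact ⟨⟨q1, by omega⟩, q2⟩
    have e2 : (P.support.filter (fun i => ¬ 2 * i < n)).filter (fun i => ¬ 2 * i = n) = D := by
      rw [hD]
      ext i
      simp only [Finset.mem_filter]
      constructor
      · rintro ⟨⟨q1, q2⟩, q3⟩
        exact ⟨q1, by omega⟩
      · rintro ⟨q1, q2⟩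
        exact ⟨⟨q1, by omega⟩, by omega⟩
    rw [e1, e2] at h2
    rw [← hA, hc] at h1
    omega
  have hM1 : M.card ≤ 1 := by
    refine Finset.card_le_one.2 fun i hi j hj => ?_
    rw [hM, Finset.mem_filter] at hi hj
    omega
  have hMc : M.card = 1 := by omega
  have hAc : A.card = 2 := by omega
  obtain ⟨N, hN⟩ := Finset.card_eq_one.1 hMc
  have hNM : N ∈ M := by rw [hN]; exact Finset.mem_singleton_self N
  rw [hM, Finset.mem_filter] at hNM
  obtain ⟨hNs, hNn⟩ := hNM
  have hNc := mem_support_iff.1 hNs
  have hs1 : s = 1 := by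
    have h1 := hsym N (by omega)
    have h2 : n - N = N := by omega
    rw [h2] at h1
    have h3 : (s - 1) * P.coeff N = 0 := by linear_combination -h1
    rcases mul_eq_zero.1 h3 with h4 | h4
    · omega
    · exact absurd h4 hNc
  have hn0 : 0 < n := by
    by_contra hc'
    have h1 : A = ∅ := by
      rw [hA]
      ext i
      simp only [Finset.mem_filter, Finset.notMem_empty, iff_false]
      rintro ⟨_, q2⟩
      omega
    rw [h1] at hAc
    exact absurd hAc (by norm_num)
  have h0A : 0 ∈ A := by
    rw [hA, Finset.mem_filter]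
    exact ⟨mem_support_iff.2 h0, by omega⟩
  have hEc : (A.erase 0).card = 1 := by rw [Finset.card_erase_of_mem h0A, hAc]
  obtain ⟨i, hi⟩ := Finset.card_eq_one.1 hEc
  have hiE : i ∈ A.erase 0 := by rw [hi]; exact Finset.mem_singleton_self i
  rw [Finset.mem_erase, hA, Finset.mem_filter] at hiE
  obtain ⟨hi0, his, hin⟩ := hiE
  have hic := mem_support_iff.1 his
  have hlow : ∀ j, 2 * j < n → j ≠ 0 → j ≠ i → P.coeff j = 0 := fun j h1 h2 h3 => by
    by_contra hc'
    have h4 : j ∈ A.erase 0 := by
      rw [Finset.mem_erase, hA, Finset.mem_filter]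
      exact ⟨h2, mem_support_iff.2 hc', h1⟩
    rw [hi, Finset.mem_singleton] at h4
    exact h3 h4
  subst hs1
  have hsym' : ∀ i, i ≤ n → P.coeff (n - i) = P.coeff i := fun i hi => by
    rw [hsym i hi, one_mul]
  have hc0 : P.coeff 0 = 1 := by
    have := hsym' n le_rfl
    rw [Nat.sub_self, hlead] at this
    exact this
  refine ⟨N, N - i, P.coeff i, P.coeff N, by omega, by omega, VShape_abs hc hl hic,
    VShape_abs hc hl hNc, ?_⟩
  have e1 : N - (N - i) = i := by omega
  have e2 : N + (N - i) = n - i := by omega
  rw [e1, e2, hNn]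
  ext j
  simp only [coeff_add, coeff_C_mul, coeff_X_pow, coeff_one]
  rcases lt_trichotomy (2 * j) n with h1 | h1 | h1
  · by_cases h2 : j = 0
    · subst h2
      rw [if_neg (by omega), if_neg (by omega), if_neg (by omega), if_neg (by omega), if_pos rfl,
        hc0]
      ring
    · by_cases h3 : j = i
      · subst h3
        rw [if_neg (by omega), if_neg (by omega), if_neg (by omega), if_pos rfl, if_neg (by omega)]
        ring
      · rw [hlow j h1 h2 h3, if_neg (by omega), if_neg (by omega), if_neg (by omega),
          if_neg h3, if_neg (by omega)]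
        ring
  · have h2 : j = N := by omega
    subst h2
    rw [if_neg (by omega), if_neg (by omega), if_pos rfl, if_neg (by omega), if_neg (by omega)]
    ring
  · by_cases h2 : n < j
    · rw [hdeg j h2, if_neg (by omega), if_neg (by omega), if_neg (by omega), if_neg (by omega),
        if_neg (by omega)]
      ring
    · have h3 := hsym' (n - j) (by omega)
      have h4 : n - (n - j) = j := by omega
      rw [h4] at h3
      rw [h3]
      by_cases h5 : j = n
      · subst h5
        rw [Nat.sub_self, hc0, if_pos rfl, if_neg (by omega), if_neg (by omega), if_neg (by omega),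
          if_neg (by omega)]
        ring
      · by_cases h6 : n - j = i
        · rw [h6, if_neg h5, if_pos (by omega), if_neg (by omega), if_neg (by omega),
            if_neg (by omega)]
          ring
        · rw [hlow (n - j) (by omega) (by omega) h6, if_neg h5, if_neg (by omega),
            if_neg (by omega), if_neg (by omega), if_neg (by omega)]
          ring

end SalemLen
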