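import Pool.Agent.Lib.MP_9599cf_ntF.WDef

/-! # Bounds for the power sums -/

set_option autoImplicit false

namespace SalemLen

open Polynomial

/-- PROOF. `cx P = (X - s) * Q`, `Q (1 / s) = 0` (`1 / s ≠ s`), so `Q = (X - 1 / s) * R` and all roots of `R` are in the closed
unit disc. The roots of `cx P` are `s`, `1 / s` and the `natDegree - 2` roots of `R`. -/
theorem ps_le {P : ℤ[X]} {s : ℝ} (hP : P.Monic) (hs : 1 < s) (hd : Dom P s)
    (hinv : (cx P).eval ((s : ℂ)⁻¹) = 0) (k : ℕ) :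
    ‖ps P k‖ ≤ (P.natDegree : ℝ) - 2 + s ^ k + (s⁻¹) ^ k := by
  obtain ⟨Q, hQ, hQr⟩ := hd
  have hs0 : 0 < s := by linarith
  have hcx0 : cx P ≠ 0 := (hP.map (Int.castRingHom ℂ)).ne_zero
  have hne : (s : ℂ)⁻¹ - (s : ℂ) ≠ 0 := by
    intro h
    have h1 : ((s⁻¹ : ℝ) : ℂ) = (s : ℂ) := by
      push_cast
      exact sub_eq_zero.1 h
    have h2 : s⁻¹ = s := by exact_mod_cast h1
    have h3 : s⁻¹ < 1 := inv_lt_one_of_one_lt₀ hs
    linarith
  have hQ0 : Q.eval ((s : ℂ)⁻¹) = 0 := by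
    rw [hQ, eval_mul, eval_sub, eval_X, eval_C] at hinv
    exact (mul_eq_zero.1 hinv).resolve_left hne
  obtain ⟨R, hR⟩ := dvd_iff_isRoot.2 (show IsRoot Q ((s : ℂ)⁻¹) from hQ0)
  have hfac : cx P = (X - C (s : ℂ)) * ((X - C ((s : ℂ)⁻¹)) * R) := by rw [hQ, hR]
  have hR0 : R ≠ 0 := by
    intro h
    rw [h, mul_zero, mul_zero] at hfac
    exact hcx0 hfac
  have h2 : (X - C ((s : ℂ)⁻¹)) * R ≠ 0 := mul_ne_zero (X_sub_C_ne_zero _) hR0
  have hroots : (cx P).roots = {(s : ℂ)} + ({((s : ℂ)⁻¹)} + R.roots) := by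
    have h1 : (X - C (s : ℂ)) * ((X - C ((s : ℂ)⁻¹)) * R) ≠ 0 := by
      rw [← hfac]
      exact hcx0
    rw [hfac, roots_mul h1, roots_mul h2, roots_X_sub_C, roots_X_sub_C]
  have hdeg : P.natDegree = R.natDegree + 2 := by
    have h1 : (cx P).natDegree = P.natDegree := hP.natDegree_map _
    rw [← h1, hfac, natDegree_mul (X_sub_C_ne_zero _) h2, natDegree_mul (X_sub_C_ne_zero _) hR0,
      natDegree_X_sub_C, natDegree_X_sub_C]
    ring
  have hps : ps P k = (s : ℂ) ^ k + (((s : ℂ)⁻¹) ^ k + (R.roots.map fun z => z ^ k).sum) := by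
    unfold ps
    rw [hroots, Multiset.map_add, Multiset.map_add, Multiset.sum_add, Multiset.sum_add,
      Multiset.map_singleton, Multiset.map_singleton, Multiset.sum_singleton,
      Multiset.sum_singleton]
  have hsum : ‖(R.roots.map fun z => z ^ k).sum‖ ≤ (R.natDegree : ℝ) := by
    refine (norm_multiset_sum_le _).trans ?_
    have h3 : ∀ x ∈ (R.roots.map fun z => z ^ k).map fun z => ‖z‖, x ≤ 1 := by
      intro x hx
      rw [Multiset.map_map, Multiset.mem_map] at hx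
      obtain ⟨z, hz, rfl⟩ := hx
      rw [Function.comp_apply, norm_pow]
      refine pow_le_one₀ (norm_nonneg _) (hQr z ?_)
      rw [hR, eval_mul, (mem_roots hR0).1 hz, mul_zero]
    have h4 := Multiset.sum_le_card_nsmul _ (1 : ℝ) h3
    rw [Multiset.card_map, Multiset.card_map, nsmul_eq_mul, mul_one] at h4
    exact h4.trans (by exact_mod_cast card_roots' R)
  have e1 : ‖(s : ℂ) ^ k‖ = s ^ k := by
    rw [norm_pow, Complex.norm_real, Real.norm_of_nonneg hs0.le]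
  have e2 : ‖((s : ℂ)⁻¹) ^ k‖ = (s⁻¹) ^ k := by
    rw [norm_pow, norm_inv, Complex.norm_real, Real.norm_of_nonneg hs0.le]
  have h5 := norm_add_le ((s : ℂ) ^ k) (((s : ℂ)⁻¹) ^ k + (R.roots.map fun z => z ^ k).sum)
  have h6 := norm_add_le (((s : ℂ)⁻¹) ^ k) ((R.roots.map fun z => z ^ k).sum)
  rw [e1] at h5
  rw [e2] at h6
  rw [hps, hdeg]
  push_cast
  linarith

end SalemLen
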