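import Pool.Agent.Lib.MP_9599cf_ntL.Defs

/-! # Reciprocal polynomials with five terms -/

set_option autoImplicit false

namespace SalemLen

open Polynomial

/-- `X ^ n + a X ^ (n - d) + b X ^ h + e a X ^ d + e`. -/
noncomputable def wp (n d h : ℕ) (a b e : ℤ) : ℤ[X] :=
  X ^ n + C a * X ^ (n - d) + C b * X ^ h + C (e * a) * X ^ d + C e

theorem wp_eval (n d h : ℕ) (a b e : ℤ) (z : ℂ) : (cx (wp n d h a b e)).eval z =
    z ^ n + a * z ^ (n - d) + b * z ^ h + e * a * z ^ d + e := by
  simp [cx, wp]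

theorem wp_aeval (n d h : ℕ) (a b e : ℤ) (x : ℝ) : Polynomial.aeval x (wp n d h a b e) =
    x ^ n + a * x ^ (n - d) + b * x ^ h + e * a * x ^ d + e := by
  simp [wp]

/-- The sums of the powers of the roots. -/
noncomputable def ps (P : ℤ[X]) (k : ℕ) : ℂ := ((cx P).roots.map fun z => z ^ k).sum

/-- The terms of the recurrence of Newton. -/
noncomputable def qk (p : ℕ → ℂ) (k i : ℕ) : ℂ :=
  if i < k then p (k - i) else if i = k then (k : ℂ) else 0

end SalemLen
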