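import Mathlib

/-!
# MP_9599cf_nt: end games of the power sum argument for polynomials with five terms

`V` is the multiset of the values `v = 2 re (z ^ m)` at the `2 N - 2` zeros `z` of
`z ^ (2 N) - A z ^ (N + m) + b z ^ N - A z ^ (N - m) + 1` on the unit circle, and `c = t ^ m + t ^ (-m)`
is the value at the remaining two zeros.
-/

set_option autoImplicit false

namespace SalemLen

namespace WEnd

theorem poly_sum (V : Multiset ℝ) (α β γ δ : ℝ) :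
    (V.map fun v => α * v ^ 3 + β * v ^ 2 + γ * v + δ).sum =
      α * (V.map fun v => v ^ 3).sum + β * (V.map fun v => v ^ 2).sum + γ * V.sum + δ * V.card := by
  induction V using Multiset.induction_on with
  | empty => simp
  | cons a s ih =>
    simp only [Multiset.map_cons, Multiset.sum_cons, Multiset.card_cons, ih]
    push_cast
    ring

theorem poly_nonneg {V : Multiset ℝ} (α β γ δ : ℝ)
    (h : ∀ v ∈ V, 0 ≤ α * v ^ 3 + β * v ^ 2 + γ * v + δ) :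
    0 ≤ α * (V.map fun v => v ^ 3).sum + β * (V.map fun v => v ^ 2).sum + γ * V.sum + δ * V.card := by
  rw [← poly_sum]
  apply Multiset.sum_nonneg
  intro x hx
  obtain ⟨v, hv, rfl⟩ := Multiset.mem_map.1 hx
  exact h v hv

theorem card_cast {V : Multiset ℝ} {N : ℕ} (hcard : V.card + 2 = 2 * N) :
    (V.card : ℝ) = 2 * N - 2 := by
  have h : ((V.card + 2 : ℕ) : ℝ) = ((2 * N : ℕ) : ℝ) := by rw [hcard]
  push_cast at h
  linarith

/-- `v ^ 2 (v + 2) ≥ 0` -/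
theorem cube {V : Multiset ℝ} (hlo : ∀ v ∈ V, -2 ≤ v) :
    0 ≤ (V.map fun v => v ^ 3).sum + 2 * (V.map fun v => v ^ 2).sum := by
  have h := poly_nonneg (V := V) 1 2 0 0 (fun v hv => by
    have h1 : 0 ≤ v + 2 := by linarith [hlo v hv]
    nlinarith [mul_nonneg (sq_nonneg v) h1])
  linarith

/-- `v (v + 2) ≤ 0` -/
theorem square {V : Multiset ℝ} (hlo : ∀ v ∈ V, -2 ≤ v ∧ v ≤ 0) :
    0 ≤ -(V.map fun v => v ^ 2).sum - 2 * V.sum := by
  have h := poly_nonneg (V := V) 0 (-1) (-2) 0 (fun v hv => by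
    have h1 : 0 ≤ v + 2 := by linarith [(hlo v hv).1]
    have h2 : 0 ≤ -v := by linarith [(hlo v hv).2]
    nlinarith [mul_nonneg h1 h2])
  linarith

/-- `A ≥ 2`, `d ≥ 4`. -/
theorem e1 {V : Multiset ℝ} {N : ℕ} {A b c : ℝ} (hN : 5 ≤ N) (hc : 2 < c) (hA : 2 ≤ A)
    (hcard : V.card + 2 = 2 * N) (h1 : V.sum = -2 * c)
    (h2 : (V.map fun v => v ^ 2).sum = 4 * N - 2 * c ^ 2)
    (h3 : (V.map fun v => v ^ 3).sum = -2 * c ^ 3) (hlo : ∀ v ∈ V, -2 ≤ v)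
    (hAb : ∀ v ∈ V, (A * v - b) ^ 2 ≤ 4) : False := by
  have hn : (5 : ℝ) ≤ N := by exact_mod_cast hN
  have hcd := card_cast hcard
  have i1 := poly_nonneg (V := V) 0 (-A ^ 2) (2 * A * b) (4 - b ^ 2)
    (fun v hv => by nlinarith [hAb v hv])
  rw [h1, h2, h3, hcd] at i1
  have i2 := cube hlo
  rw [h2, h3] at i2
  have i1' : 0 ≤ -A ^ 2 * (2 * N - c ^ 2) - 2 * A * b * c + (4 - b ^ 2) * ((N : ℝ) - 1) := by
    linarith
  have j0 : A ^ 2 * (2 * N * (N - 1) - N * c ^ 2) ≤ 4 * ((N : ℝ) - 1) ^ 2 := by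
    have k1 := mul_nonneg (by linarith : (0 : ℝ) ≤ (N : ℝ) - 1) i1'
    nlinarith [sq_nonneg (b * ((N : ℝ) - 1) + A * c)]
  have j1 : (N : ℝ) ^ 2 - 1 ≤ N * c ^ 2 := by
    rcases le_total (2 * N * ((N : ℝ) - 1) - N * c ^ 2) 0 with h | h
    · nlinarith [sq_nonneg ((N : ℝ) - 1)]
    · have k2 : 4 * (2 * N * ((N : ℝ) - 1) - N * c ^ 2) ≤
          A ^ 2 * (2 * N * ((N : ℝ) - 1) - N * c ^ 2) :=
        mul_le_mul_of_nonneg_right (by nlinarith) h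
      nlinarith
  have j2 : c ^ 3 + 2 * c ^ 2 ≤ 4 * N := by linarith
  have j3 : (N : ℝ) - 1 / 5 ≤ c ^ 2 := by
    by_contra h
    have h' : c ^ 2 < N - 1 / 5 := lt_of_not_ge h
    nlinarith
  have j4 : (219 : ℝ) / 100 ≤ c := by
    by_contra h
    have h' : c < 219 / 100 := lt_of_not_ge h
    nlinarith
  nlinarith [mul_nonneg (by linarith : (0 : ℝ) ≤ c - 219 / 100) (sq_nonneg c)]

/-- `b = 2 A - 2`, `d ≥ 2`. -/
theorem e2 {V : Multiset ℝ} {c : ℝ} (hc : 2 < c) (h1 : V.sum = -2 * c) (hV : ∀ v ∈ V, 0 ≤ v) :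
    False := by
  have := Multiset.sum_nonneg hV
  linarith

/-- `A = 1`, `b = -2`, `d ≥ 4`. -/
theorem e3 {V : Multiset ℝ} {N : ℕ} {c : ℝ} (hc : 2 < c) (h1 : V.sum = -2 * c)
    (h2 : (V.map fun v => v ^ 2).sum = 4 * N - 2 * c ^ 2)
    (h3 : (V.map fun v => v ^ 3).sum = -2 * c ^ 3) (hV : ∀ v ∈ V, -2 ≤ v ∧ v ≤ 0) : False := by
  have i1 := square hV
  rw [h1, h2] at i1
  have i2 := cube fun v hv => (hV v hv).1
  rw [h2, h3] at i2
  have j1 : 2 * (N : ℝ) ≤ c ^ 2 + 2 * c := by linarith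
  have j2 : c ^ 3 + 2 * c ^ 2 ≤ 4 * N := by linarith
  nlinarith [mul_pos (by linarith : (0 : ℝ) < c - 2) (by nlinarith : (0 : ℝ) < c ^ 2 + 2 * c)]

/-- `A = 1`, `b = -2`, `d = 3`. -/
theorem e4 {V : Multiset ℝ} {N : ℕ} {c : ℝ} (hc : 2 < c) (h1 : V.sum = -2 * c)
    (h2 : (V.map fun v => v ^ 2).sum = 4 * N - 2 * c ^ 2)
    (h3 : (V.map fun v => v ^ 3).sum = 6 - 2 * c ^ 3) (hV : ∀ v ∈ V, -2 ≤ v ∧ v ≤ 0) : N ≤ 4 := by
  have i1 := square hV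
  rw [h1, h2] at i1
  have i2 := cube fun v hv => (hV v hv).1
  rw [h2, h3] at i2
  have j1 : 2 * (N : ℝ) ≤ c ^ 2 + 2 * c := by linarith
  have j2 : c ^ 3 + 2 * c ^ 2 ≤ 4 * N + 3 := by linarith
  have j3 : c ^ 3 ≤ 4 * c + 3 := by nlinarith
  have j4 : c < 231 / 100 := by
    by_contra h
    have h' : 231 / 100 ≤ c := le_of_not_gt h
    nlinarith [mul_nonneg (by linarith : (0 : ℝ) ≤ c - 231 / 100) (sq_nonneg c),
      mul_nonneg (by linarith : (0 : ℝ) ≤ c - 231 / 100) (by linarith : (0 : ℝ) ≤ c)]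
  have j5 : (N : ℝ) < 5 := by nlinarith
  have : N < 5 := by exact_mod_cast j5
  omega

/-- `A = 1`, `b = -2`, `d = 2`. -/
theorem e5 {V : Multiset ℝ} {N m : ℕ} {c : ℝ} (hm : N = m + 2) (hc : 2 < c) (h1 : V.sum = -2 * c)
    (h2 : (V.map fun v => v ^ 2).sum = 4 + 4 * N - 2 * c ^ 2)
    (h3 : (V.map fun v => v ^ 3).sum = 12 * m - 2 * c ^ 3) (hV : ∀ v ∈ V, -2 ≤ v ∧ v ≤ 0) :
    N ≤ 12 := by
  have i1 := square hV
  rw [h1, h2] at i1
  have i2 := cube fun v hv => (hV v hv).1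
  rw [h2, h3] at i2
  have hmr : (m : ℝ) = N - 2 := by
    have : ((m + 2 : ℕ) : ℝ) = N := by rw [← hm]
    push_cast at this
    linarith
  rw [hmr] at i2
  have j1 : 2 * (N : ℝ) + 2 ≤ c ^ 2 + 2 * c := by linarith
  have j2 : c ^ 3 + 2 * c ^ 2 ≤ 10 * N - 8 := by linarith
  by_contra hN
  have hn : (13 : ℝ) ≤ N := by
    have : 13 ≤ N := by omega
    exact_mod_cast this
  have j3 : c * (2 * N + 2) ≤ 10 * N - 8 := by nlinarith
  have j4 : (438 : ℝ) / 100 ≤ c := by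
    by_contra h
    have h' : c < 438 / 100 := lt_of_not_ge h
    nlinarith
  have j5 : c < 5 := by
    by_contra h
    have h' : 5 ≤ c := le_of_not_gt h
    nlinarith
  -- `(5 - c) (2 N + 2) ≥ 18` and `2 N + 2 ≤ c ^ 2 + 2 c`
  have j6 : 18 ≤ (5 - c) * (c ^ 2 + 2 * c) := by
    nlinarith [mul_nonneg (by linarith : (0 : ℝ) ≤ 5 - c)
      (by linarith : (0 : ℝ) ≤ c ^ 2 + 2 * c - (2 * N + 2))]
  nlinarith [mul_nonneg (by linarith : (0 : ℝ) ≤ 5 - c) (by linarith : (0 : ℝ) ≤ c - 438 / 100),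
    mul_nonneg (mul_nonneg (by linarith : (0 : ℝ) ≤ 5 - c) (by linarith : (0 : ℝ) ≤ c - 438 / 100))
      (by linarith : (0 : ℝ) ≤ c)]

/-- `A = 1`, `b ≤ -3`, `d ≥ 3` (`s = 0`), or `d = 2` (`s = 2`). -/
theorem e6 {V : Multiset ℝ} {N : ℕ} {c s : ℝ} (hs : s ≤ 2) (hcard : V.card + 2 = 2 * N)
    (h1 : V.sum = -2 * c) (h2 : (V.map fun v => v ^ 2).sum = 2 * s + 4 * N - 2 * c ^ 2)
    (hhi : ∀ v ∈ V, v ≤ -1) : N ≤ 3 := by
  have hcd := card_cast hcard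
  have i1 := poly_nonneg (V := V) 0 0 (-1) (-1) (fun v hv => by nlinarith [hhi v hv])
  rw [h1, h2, hcd] at i1
  have i2 := poly_nonneg (V := V) 0 1 0 (-1) (fun v hv => by nlinarith [hhi v hv])
  rw [h1, h2, hcd] at i2
  by_contra hN
  have hn : (4 : ℝ) ≤ N := by
    have : 4 ≤ N := by omega
    exact_mod_cast this
  nlinarith

/-- `A = 1`, `b ≤ -2`, `d = 1`: here `v = 2 re z` and `c = t + 1 / t`. -/
theorem e7 {V : Multiset ℝ} {N : ℕ} {c : ℝ} (hc : 2 < c) (hc2 : c ≤ 2031 / 1000)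
    (hcard : V.card + 2 = 2 * N) (h1 : V.sum = 2 - 2 * c)
    (h2 : (V.map fun v => v ^ 2).sum = 2 + 4 * N - 2 * c ^ 2)
    (h3 : (V.map fun v => v ^ 3).sum = 8 - 2 * c ^ 3) (hhi : ∀ v ∈ V, v ≤ 1) : N ≤ 5 := by
  have hcd := card_cast hcard
  have i1 := poly_nonneg (V := V) (-1) (-1) 1 1 (fun v hv => by
    have h : 0 ≤ 1 - v := by linarith [hhi v hv]
    nlinarith [mul_nonneg h (sq_nonneg (v + 1))])
  rw [h1, h2, h3, hcd] at i1
  have hc3 : c ^ 3 + c ^ 2 - c - 1 < 10 := by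
    nlinarith [mul_nonneg (by linarith : (0 : ℝ) ≤ 2031 / 1000 - c) (by nlinarith : (0 : ℝ) ≤ c ^ 2),
      mul_nonneg (by linarith : (0 : ℝ) ≤ 2031 / 1000 - c) (by linarith : (0 : ℝ) ≤ c)]
  have j5 : (N : ℝ) < 6 := by linarith
  have : N < 6 := by exact_mod_cast j5
  omega

end WEnd

end SalemLen
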