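import Mathlib

/-! # The contradiction for `d = 5` and for `V ≤ A` -/

set_option autoImplicit false

namespace SalemLen

private theorem WFinB_pow {j : ℕ} (hj : 4 ≤ j) : 4 * j ≤ 2 ^ j := by
  induction j, hj using Nat.le_induction with
  | base => norm_num
  | succ k hk ih => rw [pow_succ]; omega

private theorem WFinB_sq {j : ℕ} (hj : 8 ≤ j) : 4 * j ^ 2 ≤ 2 ^ j := by
  induction j, hj using Nat.le_induction with
  | base => norm_num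
  | succ k hk ih => rw [pow_succ 2 k]; nlinarith

private theorem WFinB_pow' {j : ℕ} (hj : 6 ≤ j) : 4 * j + 2 < 2 ^ j := by
  induction j, hj using Nat.le_induction with
  | base => norm_num
  | succ k hk ih => rw [pow_succ]; omega

/-- PROOF. Let `j` with `2 ^ j < n ≤ 2 ^ (j + 1)`; `j ≥ 4`, `4 j ≤ 2 ^ j ≤ n`. `hj` divided by `2 ^ j`:
`5 ≤ (n - 1) / 2 ^ j + (V / 2) ^ j < 2 + (V / 2) ^ j` (`V⁻¹ ^ j ≤ 1`). For `j ≤ 8`: `(V / 2) ^ j ≤ 1.1261 ^ 8 < 2.6`. For `j ≥ 9`: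
`(V / 2) ^ j ≤ (1 + 2 / √n) ^ j ≤ exp (2 j / √n)`, `(2 j / √n) ^ 2 ≤ 4 j ^ 2 / 2 ^ j ≤ 324 / 512` (`512 j ^ 2 ≤ 81 * 2 ^ j`), so at
most `exp 0.8 < 2.3`. -/
theorem fin5 {n : ℕ} {V : ℝ} (hn : 25 ≤ n) (hV1 : 1 ≤ V) (hV : V ≤ 2 * (1 + 2 / √(n : ℝ)))
    (hV2 : V ≤ 22522 / 10000)
    (hj : ∀ j : ℕ, 0 < j → 4 * j ≤ n → 5 * (2 : ℝ) ^ j ≤ n - 2 + V ^ j + (V⁻¹) ^ j) : False := by
  obtain ⟨j, hj1, hj2⟩ : ∃ j : ℕ, 2 ^ j < n ∧ n ≤ 2 ^ (j + 1) := by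
    refine ⟨Nat.log 2 (n - 1), ?_, ?_⟩
    · have := Nat.pow_log_le_self 2 (show n - 1 ≠ 0 by omega)
      omega
    · have := Nat.lt_pow_succ_log_self (b := 2) (by norm_num) (n - 1)
      rw [Nat.succ_eq_add_one] at this
      omega
  have hj4 : 4 ≤ j := by
    by_contra hc
    have h1 : 2 ^ (j + 1) ≤ 2 ^ 4 := Nat.pow_le_pow_right (by norm_num) (by omega)
    omega
  have h4 := WFinB_pow hj4
  have h5 := hj j (by omega) (by omega)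
  have hinv : (V⁻¹) ^ j ≤ 1 := pow_le_one₀ (inv_nonneg.2 (by linarith)) (inv_le_one_of_one_le₀ hV1)
  have hn2 : (n : ℝ) ≤ 2 * 2 ^ j := by
    have : (n : ℝ) ≤ 2 ^ (j + 1) := by exact_mod_cast hj2
    rw [pow_succ] at this
    linarith
  have hpos : (0 : ℝ) < 2 ^ j := by positivity
  have h6 : 3 * (2 : ℝ) ^ j < V ^ j := by linarith
  have h7 : 3 < (V / 2) ^ j := by
    rw [div_pow, lt_div_iff₀ hpos]
    exact h6
  have hV0 : 0 ≤ V / 2 := by linarith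
  rcases le_or_gt j 8 with h8 | h8
  · have h9 : (V / 2) ^ j ≤ (11261 / 10000) ^ j := pow_le_pow_left₀ hV0 (by linarith) j
    have h10 : (11261 / 10000 : ℝ) ^ j ≤ (11261 / 10000) ^ 8 :=
      pow_le_pow_right₀ (by norm_num) h8
    have h11 : (11261 / 10000 : ℝ) ^ 8 < 3 := by norm_num
    linarith
  · have hs : 2 * (j : ℝ) ≤ √(n : ℝ) := by
      apply Real.le_sqrt_of_sq_le
      have h12 := WFinB_sq (show 8 ≤ j by omega)
      have h13 : 4 * j ^ 2 ≤ n := by omega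
      have h14 : (4 : ℝ) * (j : ℝ) ^ 2 ≤ n := by exact_mod_cast h13
      nlinarith
    have hsp : 0 < √(n : ℝ) := Real.sqrt_pos.2 (by
      have : (25 : ℝ) ≤ n := by exact_mod_cast hn
      linarith)
    have h15 : V / 2 ≤ Real.exp (2 / √(n : ℝ)) := by
      have := Real.add_one_le_exp (2 / √(n : ℝ))
      linarith
    have h16 : (V / 2) ^ j ≤ Real.exp (2 / √(n : ℝ)) ^ j := pow_le_pow_left₀ hV0 h15 j
    rw [← Real.exp_nat_mul] at h16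
    have h17 : (j : ℝ) * (2 / √(n : ℝ)) ≤ 1 := by
      rw [← mul_div_assoc, div_le_one hsp]
      linarith
    have h18 := Real.exp_le_exp.2 h17
    have h19 := Real.exp_one_lt_d9
    linarith

/-- PROOF. `j = n / 4 ≥ 6`: `2 A ^ j ≤ d A ^ j ≤ n - 2 + A ^ j + 1`, so `2 ^ j ≤ A ^ j ≤ n - 1 ≤ 4 j + 2`, false for `j ≥ 6`. -/
theorem finlt {n d : ℕ} {A V : ℝ} (hn : 25 ≤ n) (hd : 2 ≤ d) (hA : 2 ≤ A) (hV1 : 1 ≤ V) (hV : V ≤ A)
    (hj : ∀ j : ℕ, 0 < j → 4 * j ≤ n → (d : ℝ) * A ^ j ≤ n - 2 + V ^ j + (V⁻¹) ^ j) : False := by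
  obtain ⟨j, hj1, hj2⟩ : ∃ j : ℕ, 4 * j ≤ n ∧ n ≤ 4 * j + 3 := ⟨n / 4, by omega, by omega⟩
  have hj6 : 6 ≤ j := by omega
  have h5 := hj j (by omega) hj1
  have hinv : (V⁻¹) ^ j ≤ 1 := pow_le_one₀ (inv_nonneg.2 (by linarith)) (inv_le_one_of_one_le₀ hV1)
  have h6 : V ^ j ≤ A ^ j := pow_le_pow_left₀ (by linarith) hV j
  have h7 : (2 : ℝ) ^ j ≤ A ^ j := pow_le_pow_left₀ (by norm_num) hA j
  have h8 : (2 : ℝ) * A ^ j ≤ d * A ^ j := by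
    apply mul_le_mul_of_nonneg_right
    · exact_mod_cast hd
    · linarith [pow_pos (show (0 : ℝ) < 2 by norm_num) j]
  have h9 := WFinB_pow' hj6
  have h10 : (4 : ℝ) * j + 2 < 2 ^ j := by exact_mod_cast h9
  have h11 : (n : ℝ) ≤ 4 * j + 3 := by exact_mod_cast hj2
  linarith

end SalemLen
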