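import Mathlib

/-! # `V ≤ A` for positive `b`; small `n` -/

set_option autoImplicit false

namespace SalemLen

/-- PROOF. Suppose `V > A`. `h0` gives `V = A + A / y ^ 2 - b / y - 1 / (y ^ 2 V)`, so `A / y ^ 2 > b / y`, `y < A / b ≤ A`. Let
`X = y + 1 / y`. `A X - b > 0` (`h0`), so by `h3` (`A ^ 2 - 2 + b ^ 2 / 2 ≥ A ^ 2 - 3 / 2`)
`A X ≥ 1 + 5 √(A ^ 2 - 3 / 2)`. As `A ≥ 2`, `A ^ 2 - 3 / 2 ≥ (5 / 8) A ^ 2`, so `X ≥ 3.95`, `y ≥ 3.67`, so `A > 3.67`, and then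
`A ^ 2 - 3 / 2 ≥ 0.888 A ^ 2`, `X ≥ 4.71`, `y ≥ 4.48`, `A ≥ 4.48`. `V ≤ A (1 + 1 / y ^ 2) ≤ 1.05 A`, `V ^ 2 ≤ 1.11 A ^ 2`, so
`h2` (`V⁻¹ ≤ 1`): `(d - 1.11) A ^ 2 ≤ n - 1`, `A ^ 2 ≥ 20`, so `4 d ≤ n`, so `V ≤ y < A`, a contradiction. -/
theorem v_le {n d : ℕ} {A b y V : ℝ} (hn : 25 ≤ n) (hd : 3 ≤ d) (hA : 2 ≤ A) (hb : 1 ≤ b) (hy : 1 ≤ y)
    (hV1 : 1 ≤ V) (h0 : y * V + (y * V)⁻¹ = A * (y + y⁻¹) - b)
    (h3 : (n : ℝ) * (A ^ 2 - 2 + b ^ 2 / 2) + 4 ≤ (A * (y + y⁻¹) - b) ^ 2)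
    (h2 : (d : ℝ) * A ^ 2 ≤ n - 2 + V ^ 2 + (V⁻¹) ^ 2) (hyV : 4 * d ≤ n → V ≤ y) : V ≤ A := by
  by_contra hcon
  have hVA : A < V := not_le.mp hcon
  have hy0 : 0 < y := by linarith
  have hV0 : 0 < V := by linarith
  have hA0 : 0 < A := by linarith
  have hyi : y * y⁻¹ = 1 := mul_inv_cancel₀ hy0.ne'
  have hw0 : 0 < (y * V)⁻¹ := inv_pos.mpr (mul_pos hy0 hV0)
  have hz0 : 0 < y⁻¹ := inv_pos.mpr hy0
  have hu1 : V⁻¹ ≤ 1 := inv_le_one_of_one_le₀ hV1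
  have hu0 : 0 < V⁻¹ := inv_pos.mpr hV0
  generalize hz : y⁻¹ = z at *
  generalize hw : (y * V)⁻¹ = w at *
  generalize hu : V⁻¹ = u at *
  clear hz hw hu
  have hyA : y < A := by
    have h1 : 1 < A * z := by nlinarith [mul_pos hy0 (sub_pos.mpr hVA)]
    have h2 : y * 1 < y * (A * z) := mul_lt_mul_of_pos_left h1 hy0
    have h4 : y * (A * z) = A := by
      have : y * (A * z) = A * (y * z) := by ring
      rw [this, hyi, mul_one]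
    linarith
  have hn' : (25 : ℝ) ≤ (n : ℝ) := by exact_mod_cast hn
  have hd' : (3 : ℝ) ≤ (d : ℝ) := by exact_mod_cast hd
  have hX : 457 / 100 ≤ y + z := by
    by_contra hc
    have hc' : y + z < 457 / 100 := not_le.mp hc
    have e1 : 0 < A * (y + z) - b := by
      rw [← h0]
      have := mul_pos hy0 hV0
      linarith
    have e2 : A * (y + z) - b ≤ 457 / 100 * A - 1 := by nlinarith
    have e3 : (A * (y + z) - b) ^ 2 ≤ (457 / 100 * A - 1) ^ 2 := by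
      have := mul_self_le_mul_self e1.le e2
      nlinarith
    have e4 : A ^ 2 - 3 / 2 ≤ A ^ 2 - 2 + b ^ 2 / 2 := by nlinarith
    have e5 : 0 ≤ A ^ 2 - 3 / 2 := by nlinarith
    have e6 : 25 * (A ^ 2 - 3 / 2) ≤ (n : ℝ) * (A ^ 2 - 2 + b ^ 2 / 2) :=
      mul_le_mul hn' e4 e5 (by linarith)
    nlinarith
  have hy4 : 433 / 100 ≤ y := by
    by_contra hc
    have hc' : y < 433 / 100 := not_le.mp hc
    have e1 : y * (457 / 100) ≤ y * (y + z) := mul_le_mul_of_nonneg_left hX hy0.le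
    have e2 : y * (y + z) = y ^ 2 + 1 := by
      have : y * (y + z) = y ^ 2 + y * z := by ring
      rw [this, hyi]
    have e3 : 0 ≤ (y - 1) * (433 / 100 - y) := mul_nonneg (by linarith) (by linarith)
    nlinarith
  have hz4 : z ≤ 100 / 433 := by
    by_contra hc
    have hc' : 100 / 433 < z := not_le.mp hc
    have : 433 / 100 * z ≤ y * z := mul_le_mul_of_nonneg_right hy4 hz0.le
    linarith
  have hzz : z ^ 2 ≤ 534 / 10000 := by nlinarith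
  have hV : V ≤ A + A * z ^ 2 := by
    have e1 : z * (y * V + w) = z * (A * (y + z) - b) := by rw [h0]
    have e2 : z * (y * V + w) = (y * z) * V + z * w := by ring
    have e3 : z * (A * (y + z) - b) = A * (y * z) + A * z ^ 2 - z * b := by ring
    rw [e2, e3, hyi] at e1
    have e4 : 0 < z * w := mul_pos hz0 hw0
    have e5 : 0 ≤ z * b := mul_nonneg hz0.le (by linarith)
    linarith
  have hV' : V ≤ 10534 / 10000 * A := by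
    have : A * z ^ 2 ≤ A * (534 / 10000) := mul_le_mul_of_nonneg_left hzz hA0.le
    linarith
  have hVV : V ^ 2 ≤ 111 / 100 * A ^ 2 := by
    have e1 := mul_self_le_mul_self hV0.le hV'
    nlinarith [sq_nonneg A]
  have huu : u ^ 2 ≤ 1 := by nlinarith
  have hAA : 187 / 10 ≤ A ^ 2 := by nlinarith
  have h5 : ((d : ℝ) - 111 / 100) * A ^ 2 ≤ n - 1 := by nlinarith
  have h6 : ((d : ℝ) - 111 / 100) * (187 / 10) ≤ ((d : ℝ) - 111 / 100) * A ^ 2 :=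
    mul_le_mul_of_nonneg_left hAA (by linarith)
  have h7 : (4 : ℝ) * d ≤ n := by linarith
  have h8 : 4 * d ≤ n := by exact_mod_cast h7
  have h9 := hyV h8
  linarith

private theorem wVle_mono {x M : ℝ} (hx : 1 ≤ x) (hM : x ≤ M) : x + x⁻¹ ≤ M + M⁻¹ := by
  have hx0 : 0 < x := by linarith
  have hM0 : 0 < M := by linarith
  have h1 : M + M⁻¹ - (x + x⁻¹) = (M - x) * (1 - x⁻¹ * M⁻¹) := by
    field_simp
    ring
  have h2 : x⁻¹ * M⁻¹ ≤ 1 := by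
    have e1 : x⁻¹ ≤ 1 := inv_le_one_of_one_le₀ hx
    have e2 : M⁻¹ ≤ 1 := inv_le_one_of_one_le₀ (by linarith)
    have e3 : 0 < x⁻¹ := inv_pos.mpr hx0
    have e4 : 0 < M⁻¹ := inv_pos.mpr hM0
    nlinarith
  have h3 : 0 ≤ (M - x) * (1 - x⁻¹ * M⁻¹) := mul_nonneg (by linarith) (by linarith)
  linarith

/-- PROOF. `s ^ n + s⁻¹ ^ n ≤ r ^ n + r⁻¹ ^ n` with `r = 1.1763` (`x + 1 / x` is increasing for `x ≥ 1`), and
`2 n + 2 ≤ n (A ^ 2 - 2 + b ^ 2 / 2) + 2`. For `1 ≤ n ≤ 24` (`interval_cases`) `r ^ n + r⁻¹ ^ n < 2 n + 2`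
(`norm_num`; `n = 24`: `49.3 < 50`). -/
theorem n_ge {n : ℕ} {s A b : ℝ} (hn : 0 < n) (hs : 1 < s) (hr : s ≤ 11763 / 10000) (hA : 2 ≤ A)
    (h : (n : ℝ) * (A ^ 2 - 2 + b ^ 2 / 2) + 2 ≤ s ^ n + (s⁻¹) ^ n) : 25 ≤ n := by
  by_contra hcon
  have hn24 : n ≤ 24 := by omega
  have hs0 : 0 < s := by linarith
  have hx1 : 1 ≤ s ^ n := one_le_pow₀ hs.le
  have hxM : s ^ n ≤ (11763 / 10000 : ℝ) ^ n := pow_le_pow_left₀ hs0.le hr n
  rw [inv_pow] at h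
  have h1 := wVle_mono hx1 hxM
  have h2 : (2 : ℝ) * n + 2 ≤ (n : ℝ) * (A ^ 2 - 2 + b ^ 2 / 2) + 2 := by
    have e1 : (2 : ℝ) ≤ A ^ 2 - 2 + b ^ 2 / 2 := by nlinarith [sq_nonneg b]
    have e2 : (n : ℝ) * 2 ≤ (n : ℝ) * (A ^ 2 - 2 + b ^ 2 / 2) :=
      mul_le_mul_of_nonneg_left e1 (Nat.cast_nonneg n)
    linarith
  have h3 : (2 : ℝ) * n + 2 ≤ (11763 / 10000 : ℝ) ^ n + ((11763 / 10000 : ℝ) ^ n)⁻¹ := by linarith
  clear h1 h2 h hx1 hxM hcon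
  interval_cases n <;> norm_num at h3

end SalemLen
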