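import Pool.Agent.Lib.MP_9599cf_ntF.WEq
import Pool.Agent.Lib.MP_9599cf_ntF.WVle
import Pool.Agent.Lib.MP_9599cf_ntF.WFinB

/-! # The end: `e = -1` -/

set_option autoImplicit false

namespace SalemLen

/-- `n ≥ 25` by `n_ge` (`b = 0`). With `w = √s`, `y = w ^ (n - 2 d)`, `V = s ^ d` (`w ^ n = y V`), `sym_eq` (`a = -A`, `b = 0`,
`e = -1`) gives `y V - (y V)⁻¹ = A (y - y⁻¹)`, so `V ≤ A` by `v_anti`, and `finlt` gives the contradiction. -/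
theorem end_anti {n d A : ℕ} {s : ℝ} (hd : 2 ≤ d) (hdn : 2 * d < n) (hA : 2 ≤ A) (hs : 1 < s)
    (hr : s ≤ 11763 / 10000) (hroot : s ^ n - A * s ^ (n - d) + A * s ^ d - 1 = 0)
    (h3 : (n : ℝ) * ((A : ℝ) ^ 2 - 2) + 2 ≤ s ^ n + (s⁻¹) ^ n)
    (hj : ∀ j : ℕ, 0 < j → 4 * j ≤ n → (d : ℝ) * (A : ℝ) ^ j ≤ n - 2 + (s ^ d) ^ j + ((s ^ d)⁻¹) ^ j) :
    False := by
  have hA' : (2 : ℝ) ≤ (A : ℝ) := by exact_mod_cast hA
  have hn : 25 ≤ n := by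
    refine n_ge (b := 0) (by omega) hs hr hA' ?_
    have e : (n : ℝ) * ((A : ℝ) ^ 2 - 2 + 0 ^ 2 / 2) = (n : ℝ) * ((A : ℝ) ^ 2 - 2) := by ring
    rw [e]
    exact h3
  have hs0 : 0 < s := by linarith
  have hw0 : 0 < √s := Real.sqrt_pos.2 hs0
  have hw2 : (√s) ^ 2 = s := Real.sq_sqrt hs0.le
  have hw1 : 1 ≤ √s := by
    rw [Real.one_le_sqrt]
    exact hs.le
  have h1 := sym_eq (n := n) (d := d) (h := 0) (a := -(A : ℝ)) (b := 0) (e := -1) hdn (Or.inl rfl) hw0 (by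
    rw [hw2]
    linear_combination hroot)
  have hy1 : 1 ≤ (√s) ^ (n - 2 * d) := one_le_pow₀ hw1
  have hV1 : 1 ≤ s ^ d := one_le_pow₀ hs.le
  have hyV : (√s) ^ n = (√s) ^ (n - 2 * d) * s ^ d := by
    have e : s ^ d = (√s) ^ (2 * d) := by
      rw [pow_mul, hw2]
    rw [e, ← pow_add]
    congr 1
    omega
  rw [inv_pow, inv_pow, hyV] at h1
  have hVA : s ^ d ≤ (A : ℝ) := by
    refine v_anti (by linarith) hy1 hV1 ?_
    linear_combination h1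
  exact finlt hn hd hA' hV1 hVA hj

end SalemLen
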