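import Mathlib

/-! # A real inequality -/

set_option autoImplicit false

namespace SalemLen

private theorem wEta_aux {k z p B : ℝ} (hk : 5 ≤ k) (hz : 0 < z) (hp : 0 < p) (hpz : p ≤ z)
    (hc : 2 * z / k < p + B) :
    4 * (z + p + B) ^ 2 ≤ (k + 2) ^ 2 * (4 * (p * z) / k + B ^ 2) := by
  have hk0 : (k : ℝ) ≠ 0 := by positivity
  obtain ⟨v, hv⟩ : ∃ v, v = p + B - 2 * z / k := ⟨_, rfl⟩
  have hv0 : 0 < v := by rw [hv]; linarith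
  have hB : B = v + 2 * z / k - p := by rw [hv]; ring
  have key : (k + 2) ^ 2 * (4 * (p * z) / k + B ^ 2) - 4 * (z + p + B) ^ 2 =
      (k + 2) ^ 2 * (v - p) ^ 2 + 4 * (k + 2) * z * v - 4 * v ^ 2 := by
    rw [hB]
    field_simp
    ring
  have h1 : 0 ≤ (k + 2) ^ 2 * (v - p) ^ 2 + 4 * (k + 2) * z * v - 4 * v ^ 2 := by
    rcases le_or_gt v ((k + 2) * z) with hl | hl
    · have h2 : v * v ≤ (k + 2) * z * v := mul_le_mul_of_nonneg_right hl hv0.le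
      have h3 : 0 ≤ (k + 2) ^ 2 * (v - p) ^ 2 := by positivity
      nlinarith
    · have h2 : (k + 2) * p ≤ v := by nlinarith
      have h3 : 2 * v ≤ (k + 2) * (v - p) := by nlinarith
      have h4 : (2 * v) ^ 2 ≤ ((k + 2) * (v - p)) ^ 2 := by
        apply pow_le_pow_left₀ (by positivity) h3
      have h5 : 0 ≤ 4 * (k + 2) * z * v := by positivity
      nlinarith
  linarith

/-- PROOF. Let `z = A y ≥ A` and `z0 = (k / 4) (B + √(B ^ 2 + 8 A ^ 2 / k))`, the positive root of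
`z ^ 2 = (k / 2) (A ^ 2 + B z)`. If the claim fails, `A ^ 2 / z ^ 2 + B / z > 2 / k`, that is
`z ^ 2 < (k / 2) (A ^ 2 + B z)`, so `z < z0`. As `z + A ^ 2 / z` is increasing for `z ≥ A`,
`A (y + 1 / y) + B = z + A ^ 2 / z + B < z0 + A ^ 2 / z0 + B = z0 (1 + 2 / k)` (since `A ^ 2 / z0 = 2 z0 / k - B`).
Its square is at most `((k + 2) ^ 2 / 16) (B + √(B ^ 2 + 8 A ^ 2 / k)) ^ 2 ≤ ((k + 2) ^ 2 / 16) (4 B ^ 2 + 16 A ^ 2 / k) =
(k + 2) ^ 2 (B ^ 2 / 4 + A ^ 2 / k) ≤ k ^ 2 (A ^ 2 / 2 + B ^ 2 / 2) ≤ k ^ 2 (A ^ 2 - 2 + B ^ 2 / 2)` (as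
`(k + 2) ^ 2 ≤ 2 k ^ 2 ≤ k ^ 3 / 2` for `k ≥ 5`, `A ^ 2 ≥ 4`), a contradiction to `h` (the `+ 4`). -/
theorem eta_le {k A B y : ℝ} (hk : 5 ≤ k) (hA : 2 ≤ A) (hB : 0 ≤ B) (hy : 1 ≤ y)
    (h : k ^ 2 * (A ^ 2 - 2 + B ^ 2 / 2) + 4 ≤ (A * (y + y⁻¹) + B) ^ 2) :
    (y⁻¹) ^ 2 + B / (A * y) ≤ 2 / k := by
  by_contra hcon
  push Not at hcon
  have hy0 : 0 < y := by linarith
  have hA0 : 0 < A := by linarith
  have hk0 : 0 < k := by linarith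
  obtain ⟨z, hz⟩ : ∃ z, z = A * y := ⟨_, rfl⟩
  obtain ⟨p, hp⟩ : ∃ p, p = A * y⁻¹ := ⟨_, rfl⟩
  have hz0 : 0 < z := by rw [hz]; positivity
  have hp0 : 0 < p := by rw [hp]; positivity
  have hpz : p * z = A ^ 2 := by
    rw [hp, hz]
    field_simp
  have hyi : y⁻¹ ≤ 1 := inv_le_one_of_one_le₀ hy
  have hple : p ≤ z := by
    rw [hp, hz]
    apply mul_le_mul_of_nonneg_left _ hA0.le
    linarith
  have hc : 2 * z / k < p + B := by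
    have h1 : 2 / k * z < ((y⁻¹) ^ 2 + B / (A * y)) * z := mul_lt_mul_of_pos_right hcon hz0
    have h2 : ((y⁻¹) ^ 2 + B / (A * y)) * z = p + B := by
      rw [hp, hz]
      field_simp
    have h3 : 2 / k * z = 2 * z / k := by ring
    rw [h2, h3] at h1
    exact h1
  have h4 := wEta_aux hk hz0 hp0 hple hc
  have h5 : A * (y + y⁻¹) + B = z + p + B := by rw [hz, hp]; ring
  rw [h5] at h
  rw [hpz] at h4
  have hA2 : 4 ≤ A ^ 2 := by nlinarith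
  have h6 : (k + 2) ^ 2 ≤ 2 * k ^ 2 := by nlinarith
  have h7 : (k + 2) ^ 2 * B ^ 2 ≤ 2 * k ^ 2 * B ^ 2 := mul_le_mul_of_nonneg_right h6 (by positivity)
  have h8 : (k + 2) ^ 2 * (4 * A ^ 2 / k) ≤ 4 * (k ^ 2 * (A ^ 2 - 2)) := by
    have h9 : (k + 2) ^ 2 * (4 * A ^ 2 / k) ≤ 2 * k ^ 2 * (4 * A ^ 2 / k) :=
      mul_le_mul_of_nonneg_right h6 (by positivity)
    have h10 : 2 * k ^ 2 * (4 * A ^ 2 / k) = 8 * k * A ^ 2 := by
      field_simp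
      ring
    have h11 : 8 * k * A ^ 2 ≤ 4 * (k ^ 2 * (A ^ 2 - 2)) := by
      have h12 : 2 * A ^ 2 ≤ k * (A ^ 2 - 2) := by nlinarith
      nlinarith
    linarith
  nlinarith

end SalemLen
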