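import Mathlib

/-! # The contradiction for `d ≥ 6` -/

set_option autoImplicit false

namespace SalemLen

private theorem WFinA_core {n d j : ℕ} {A V s : ℝ} (hn : 1 ≤ n) (hd : 6 ≤ d) (hA : 2 ≤ A)
    (hV1 : 1 ≤ V) (hV : V ≤ A * (1 + s))
    (h : (d : ℝ) * A ^ j ≤ n - 2 + V ^ j + (V⁻¹) ^ j) :
    (6 : ℝ) ≤ ((n : ℝ) - 1) / 2 ^ j + (1 + s) ^ j := by
  have hn' : (1 : ℝ) ≤ n := by exact_mod_cast hn
  have hd' : (6 : ℝ) ≤ d := by exact_mod_cast hd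
  have hAj : (2 : ℝ) ^ j ≤ A ^ j := pow_le_pow_left₀ (by norm_num) hA j
  have h2j : (0 : ℝ) < 2 ^ j := by positivity
  have hVj : V ^ j ≤ A ^ j * (1 + s) ^ j := by
    rw [← mul_pow]
    exact pow_le_pow_left₀ (by linarith) hV j
  have hVi : (V⁻¹) ^ j ≤ 1 := pow_le_one₀ (inv_nonneg.mpr (by linarith)) (inv_le_one_of_one_le₀ hV1)
  have h1 : 6 * A ^ j ≤ (d : ℝ) * A ^ j := mul_le_mul_of_nonneg_right hd' (by linarith)
  have h2 : (6 - (1 + s) ^ j) * A ^ j ≤ (n : ℝ) - 1 := by nlinarith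
  rcases le_or_gt (6 : ℝ) ((1 + s) ^ j) with h3 | h3
  · have : (0 : ℝ) ≤ ((n : ℝ) - 1) / 2 ^ j := div_nonneg (by linarith) h2j.le
    linarith
  · have h4 : (6 - (1 + s) ^ j) * 2 ^ j ≤ (n : ℝ) - 1 :=
      (mul_le_mul_of_nonneg_left hAj (by linarith)).trans h2
    have h5 : 6 - (1 + s) ^ j ≤ ((n : ℝ) - 1) / 2 ^ j := by
      rw [le_div_iff₀ h2j]
      exact h4
    linarith

private theorem WFinA_lin (j : ℕ) (hj : 4 ≤ j) : 4 * j ≤ 2 ^ j := by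
  induction j, hj using Nat.le_induction with
  | base => norm_num
  | succ m hm ih =>
    rw [pow_succ]
    omega

private theorem WFinA_sq (j : ℕ) (hj : 7 ≤ j) : 128 * j ^ 2 ≤ 49 * 2 ^ j := by
  induction j, hj using Nat.le_induction with
  | base => norm_num
  | succ m hm ih =>
    rw [pow_succ 2 m]
    nlinarith

private theorem WFinA_s {x c : ℝ} (hx : 0 < x) (hc : 0 < c) (h : 4 / c ^ 2 ≤ x) : 2 / √x ≤ c := by
  have h1 : 0 < √x := Real.sqrt_pos.mpr hx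
  rw [div_le_iff₀ h1]
  have h2 : √x ^ 2 = x := Real.sq_sqrt hx.le
  have h3 : 4 ≤ x * c ^ 2 := by
    rw [div_le_iff₀ (by positivity)] at h
    exact h
  have h4 : (2 : ℝ) ^ 2 ≤ (c * √x) ^ 2 := by
    rw [mul_pow, h2]
    linarith
  exact le_of_sq_le_sq h4 (by positivity)

/-- PROOF. Let `j` with `2 ^ j < n ≤ 2 ^ (j + 1)`; `j ≥ 4`, `4 j ≤ 2 ^ j ≤ n`. `hj` divided by `A ^ j` (with `V⁻¹ ^ j ≤ 1`,
`V / A ≤ 1 + 2 / √n`): `d ≤ (n - 1) / A ^ j + (1 + 2 / √n) ^ j ≤ (n - 1) / 2 ^ j + (1 + 2 / √n) ^ j`. This is less than `6`: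
`25 ≤ n ≤ 32` (`j = 4`): `31 / 16 + (1.4) ^ 4 < 5.8`. `33 ≤ n ≤ 48` (`j = 5`): `2 / √33 ≤ 0.3482`,
`47 / 32 + 1.3482 ^ 5 < 5.93`. `49 ≤ n ≤ 64`: `63 / 32 + (9 / 7) ^ 5 < 5.5`. `65 ≤ n ≤ 128` (`j = 6`): `2 / √65 ≤ 0.2481`,
`127 / 64 + 1.2481 ^ 6 < 5.8`. `j ≥ 7`: `(n - 1) / 2 ^ j < 2`, `(1 + 2 / √n) ^ j ≤ exp (2 j / √n)`,
`(2 j / √n) ^ 2 ≤ 4 j ^ 2 / 2 ^ j ≤ 196 / 128` (`128 j ^ 2 ≤ 49 * 2 ^ j` for `j ≥ 7`), so it is at most `exp 1.24 < 3.5`. -/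
theorem fin6 {n d : ℕ} {A V : ℝ} (hn : 25 ≤ n) (hd : 6 ≤ d) (hA : 2 ≤ A) (hV1 : 1 ≤ V)
    (hV : V ≤ A * (1 + 2 / √(n : ℝ)))
    (hj : ∀ j : ℕ, 0 < j → 4 * j ≤ n → (d : ℝ) * A ^ j ≤ n - 2 + V ^ j + (V⁻¹) ^ j) : False := by
  set s : ℝ := 2 / √(n : ℝ) with hsdef
  have hn0 : (0 : ℝ) < n := by
    have : 0 < n := by omega
    exact_mod_cast this
  have hs0 : 0 ≤ s := by positivity
  have key : ∀ (j : ℕ) (c : ℝ), 0 < j → 4 * j ≤ n → s ≤ c →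
      (6 : ℝ) ≤ ((n : ℝ) - 1) / 2 ^ j + (1 + c) ^ j := by
    intro j c h0 h4 hc
    have h := WFinA_core (n := n) (by omega) hd hA hV1 hV (hj j h0 h4)
    have h' : (1 + s) ^ j ≤ (1 + c) ^ j := pow_le_pow_left₀ (by linarith) (by linarith) j
    linarith
  rcases le_or_gt n 32 with h32 | h32
  · have hh : (n : ℝ) ≤ 32 := by exact_mod_cast h32
    have hl : (25 : ℝ) ≤ n := by exact_mod_cast hn
    have hs : s ≤ 0.4 := WFinA_s hn0 (by norm_num) (by norm_num; linarith)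
    have h := key 4 0.4 (by norm_num) (by omega) hs
    norm_num at h
    linarith
  rcases le_or_gt n 48 with h48 | h48
  · have hh : (n : ℝ) ≤ 48 := by exact_mod_cast h48
    have hl : (33 : ℝ) ≤ n := by exact_mod_cast h32
    have hs : s ≤ 0.3482 := WFinA_s hn0 (by norm_num) (by norm_num; linarith)
    have h := key 5 0.3482 (by norm_num) (by omega) hs
    norm_num at h
    linarith
  rcases le_or_gt n 64 with h64 | h64
  · have hh : (n : ℝ) ≤ 64 := by exact_mod_cast h64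
    have hl : (49 : ℝ) ≤ n := by exact_mod_cast h48
    have hs : s ≤ 2 / 7 := WFinA_s hn0 (by norm_num) (by norm_num; linarith)
    have h := key 5 (2 / 7) (by norm_num) (by omega) hs
    norm_num at h
    linarith
  rcases le_or_gt n 128 with h128 | h128
  · have hh : (n : ℝ) ≤ 128 := by exact_mod_cast h128
    have hl : (65 : ℝ) ≤ n := by exact_mod_cast h64
    have hs : s ≤ 0.2481 := WFinA_s hn0 (by norm_num) (by norm_num; linarith)
    have h := key 6 0.2481 (by norm_num) (by omega) hs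
    norm_num at h
    linarith
  obtain ⟨j, hj1, hj2⟩ : ∃ j : ℕ, 2 ^ j ≤ n - 1 ∧ n - 1 < 2 ^ (j + 1) :=
    ⟨Nat.log 2 (n - 1), Nat.pow_log_le_self 2 (by omega), Nat.lt_pow_succ_log_self (by norm_num) _⟩
  have hj7 : 7 ≤ j := by
    by_contra hlt
    have h1 : 2 ^ (j + 1) ≤ 2 ^ 7 := Nat.pow_le_pow_right (by norm_num) (by omega)
    norm_num at h1
    omega
  have hlin := WFinA_lin j (by omega)
  have hsq := WFinA_sq j hj7
  have h2j : (0 : ℝ) < 2 ^ j := by positivity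
  have hnr : (2 : ℝ) ^ j ≤ n := by
    have : 2 ^ j ≤ n := by omega
    exact_mod_cast this
  have hnr2 : (n : ℝ) - 1 < 2 * 2 ^ j := by
    have h1 : n ≤ 2 * 2 ^ j := by
      rw [pow_succ] at hj2
      omega
    have h2 : (n : ℝ) ≤ 2 * 2 ^ j := by exact_mod_cast h1
    linarith
  have hsqr : 128 * (j : ℝ) ^ 2 ≤ 49 * 2 ^ j := by exact_mod_cast hsq
  have h := key j s (by omega) (by omega) le_rfl
  have hdiv : ((n : ℝ) - 1) / 2 ^ j < 2 := by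
    rw [div_lt_iff₀ h2j]
    exact hnr2
  have hs2 : s ^ 2 = 4 / n := by
    rw [hsdef, div_pow, Real.sq_sqrt hn0.le]
    norm_num
  have hsj : (j : ℝ) * s ≤ 5 / 4 := by
    have h1 : ((j : ℝ) * s) ^ 2 ≤ (5 / 4) ^ 2 := by
      rw [mul_pow, hs2, ← mul_div_assoc, div_le_iff₀ hn0]
      nlinarith
    exact le_of_sq_le_sq h1 (by norm_num)
  have hexp : (1 + s) ^ j ≤ Real.exp (5 / 4) := by
    have h1 : 1 + s ≤ Real.exp s := by
      have := Real.add_one_le_exp s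
      linarith
    calc (1 + s) ^ j ≤ (Real.exp s) ^ j := pow_le_pow_left₀ (by linarith) h1 j
      _ = Real.exp ((j : ℝ) * s) := by rw [← Real.exp_nat_mul]
      _ ≤ Real.exp (5 / 4) := Real.exp_le_exp.mpr hsj
  have he : Real.exp (5 / 4) < 4 := by
    have h1 : Real.exp (5 / 4) ^ 4 = Real.exp 1 ^ 5 := by
      rw [← Real.exp_nat_mul, ← Real.exp_nat_mul]
      norm_num
    have h2 := Real.exp_one_lt_d9
    have h3 : Real.exp 1 ^ 5 < 4 ^ 4 := by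
      have h4 : Real.exp 1 ^ 5 ≤ (2.7182818286 : ℝ) ^ 5 :=
        pow_le_pow_left₀ (Real.exp_pos 1).le h2.le 5
      have h5 : (2.7182818286 : ℝ) ^ 5 < 4 ^ 4 := by norm_num
      linarith
    rw [← h1] at h3
    exact lt_of_pow_lt_pow_left₀ 4 (by norm_num) h3
  linarith

end SalemLen
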