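import Pool.Agent.Lib.MP_9599cf_ntF.WEq
import Pool.Agent.Lib.MP_9599cf_ntF.WVle
import Pool.Agent.Lib.MP_9599cf_ntF.WFinA
import Pool.Agent.Lib.MP_9599cf_ntF.WFinB
import Pool.Agent.Lib.MP_9599cf_ntF.WEta

/-! # The end: `e = 1`, `b ≤ 0` -/

set_option autoImplicit false

namespace SalemLen

/-- PROOF. `r = 1.1763`. If `r ^ d ≤ A` the value in `hr0` is `r ^ (n - d) (r ^ d - A) + b r ^ h - A r ^ d + 1 < 0`, a contradiction.
So `A < r ^ d`; as `r ^ 4 < 2` and `r ^ 5 ≤ 2.2522 < 3`, `d ≥ 5` and if `d = 5` then `A = 2`. `n ≥ 25` by `n_ge`. Let `w = √s`,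
`y = w ^ (n - 2 d) ≥ 1`, `V = s ^ d` (`w ^ n = y V`), `B = -b ≥ 0`; `sym_eq` gives `y V + (y V)⁻¹ = A (y + y⁻¹) + B`, so
`s ^ n + s⁻¹ ^ n = (y V) ^ 2 + (y V)⁻¹ ^ 2 = (A (y + y⁻¹) + B) ^ 2 - 2`, and `h3` is the hypothesis of `eta_le` with `k = √n ≥ 5`.
By `v_upper` `V ≤ A (1 + 2 / √n)`. If `d ≥ 6` use `fin6`; if `d = 5` use `fin5` (`V = s ^ 5 ≤ r ^ 5 ≤ 2.2522`). -/
theorem end_neg {n d h A : ℕ} {b : ℤ} {s : ℝ} (hd : 2 ≤ d) (hdn : 2 * d < n) (hA : 2 ≤ A) (hs : 1 < s)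
    (hr : s ≤ 11763 / 10000) (hb : b ≤ 0) (hb' : b = 0 ∨ n = 2 * h)
    (hroot : s ^ n - A * s ^ (n - d) + b * s ^ h - A * s ^ d + 1 = 0)
    (hr0 : (0 : ℝ) ≤ (11763 / 10000) ^ n - A * (11763 / 10000) ^ (n - d) + b * (11763 / 10000) ^ h -
      A * (11763 / 10000) ^ d + 1)
    (h3 : (n : ℝ) * ((A : ℝ) ^ 2 - 2 + (b : ℝ) ^ 2 / 2) + 2 ≤ s ^ n + (s⁻¹) ^ n)
    (hj : ∀ j : ℕ, 0 < j → 4 * j ≤ n → (d : ℝ) * (A : ℝ) ^ j ≤ n - 2 + (s ^ d) ^ j + ((s ^ d)⁻¹) ^ j) :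
    False := by
  have hA' : (2 : ℝ) ≤ A := by exact_mod_cast hA
  have hbR : (b : ℝ) ≤ 0 := by exact_mod_cast hb
  have hs0 : 0 < s := by linarith
  have hAr : (A : ℝ) < (11763 / 10000) ^ d := by
    by_contra hc
    push Not at hc
    have e1 : (11763 / 10000 : ℝ) ^ n = (11763 / 10000) ^ (n - d) * (11763 / 10000) ^ d := by
      rw [← pow_add]
      congr 1
      omega
    have e2 : (0 : ℝ) < (11763 / 10000) ^ (n - d) := by positivity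
    have e3 : (0 : ℝ) < (11763 / 10000) ^ h := by positivity
    have e4 : (1 : ℝ) ≤ (11763 / 10000) ^ d := one_le_pow₀ (by norm_num)
    have e5 : (11763 / 10000 : ℝ) ^ (n - d) * (11763 / 10000) ^ d ≤
        (11763 / 10000) ^ (n - d) * A := mul_le_mul_of_nonneg_left hc e2.le
    have e6 : (b : ℝ) * (11763 / 10000) ^ h ≤ 0 := mul_nonpos_of_nonpos_of_nonneg hbR e3.le
    have e7 : (2 : ℝ) * 1 ≤ A * (11763 / 10000) ^ d :=
      mul_le_mul hA' e4 (by norm_num) (by linarith)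
    rw [e1] at hr0
    linarith
  have hd5 : 5 ≤ d := by
    by_contra hc
    have h1 : (11763 / 10000 : ℝ) ^ d ≤ (11763 / 10000) ^ 4 :=
      pow_le_pow_right₀ (by norm_num) (by omega)
    have h2 : (11763 / 10000 : ℝ) ^ 4 < 2 := by norm_num
    linarith
  have hn25 : 25 ≤ n := n_ge (by omega) hs hr hA' h3
  have hw2 : (√s) ^ 2 = s := Real.sq_sqrt hs0.le
  have hw1 : 1 ≤ √s := Real.one_le_sqrt.2 hs.le
  have hw0 : 0 < √s := by linarith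
  obtain ⟨w, hw⟩ : ∃ w, w = √s := ⟨_, rfl⟩
  rw [← hw] at hw2 hw1 hw0
  have hy1 : 1 ≤ w ^ (n - 2 * d) := one_le_pow₀ hw1
  have hV1 : 1 ≤ s ^ d := one_le_pow₀ hs.le
  have hsym := sym_eq (a := -(A : ℝ)) (b := (b : ℝ)) (e := 1) hdn
    (by
      rcases hb' with h0 | h0
      · exact Or.inl (by rw [h0]; norm_num)
      · exact Or.inr h0) hw0
    (by
      rw [hw2]
      linarith)
  have hwn : w ^ n = w ^ (n - 2 * d) * s ^ d := by
    rw [← hw2, ← pow_mul, ← pow_add]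
    congr 1
    omega
  have h0 : w ^ (n - 2 * d) * s ^ d + (w ^ (n - 2 * d) * s ^ d)⁻¹ =
      (A : ℝ) * (w ^ (n - 2 * d) + (w ^ (n - 2 * d))⁻¹) + (-(b : ℝ)) := by
    rw [inv_pow, inv_pow, hwn] at hsym
    linarith
  have hsn : s ^ n + (s⁻¹) ^ n = ((A : ℝ) * (w ^ (n - 2 * d) + (w ^ (n - 2 * d))⁻¹) + (-(b : ℝ))) ^ 2
      - 2 := by
    rw [← h0, ← hwn]
    have e1 : s ^ n = (w ^ n) ^ 2 := by rw [← pow_mul, mul_comm n 2, pow_mul, hw2]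
    have e2 : w ^ n * (w ^ n)⁻¹ = 1 := mul_inv_cancel₀ (pow_pos hw0 n).ne'
    rw [inv_pow, e1]
    have e3 : ((w ^ n) ^ 2)⁻¹ = ((w ^ n)⁻¹) ^ 2 := by rw [inv_pow]
    rw [e3]
    linear_combination (-2 : ℝ) * e2
  have hn0 : (0 : ℝ) ≤ n := Nat.cast_nonneg n
  have hk2 : (√(n : ℝ)) ^ 2 = n := Real.sq_sqrt hn0
  have hk5 : 5 ≤ √(n : ℝ) := by
    apply Real.le_sqrt_of_sq_le
    have : (25 : ℝ) ≤ n := by exact_mod_cast hn25
    linarith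
  have heta := eta_le (k := √(n : ℝ)) (A := (A : ℝ)) (B := -(b : ℝ)) hk5 hA' (by linarith) hy1 (by
    rw [hk2]
    rw [hsn] at h3
    have : (-(b : ℝ)) ^ 2 = (b : ℝ) ^ 2 := by ring
    rw [this]
    linarith)
  have hV := v_upper (by linarith) hy1 hV1 h0 heta
  rcases hd5.lt_or_eq with h6 | h6
  · exact fin6 hn25 h6 hA' hV1 hV hj
  · subst h6
    have hA2 : A = 2 := by
      have h1 : (11763 / 10000 : ℝ) ^ 5 < 3 := by norm_num
      have h2 : (A : ℝ) < 3 := by linarith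
      have h3 : A < 3 := by exact_mod_cast h2
      omega
    subst hA2
    refine fin5 hn25 hV1 (by simpa using hV) ?_ fun j j0 j4 => by simpa using hj j j0 j4
    have h1 : s ^ 5 ≤ (11763 / 10000 : ℝ) ^ 5 := pow_le_pow_left₀ hs0.le hr 5
    have h2 : (11763 / 10000 : ℝ) ^ 5 ≤ 22522 / 10000 := by norm_num
    linarith

end SalemLen
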