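import Pool.Agent.Lib.MP_9599cf_ntF.WEq
import Pool.Agent.Lib.MP_9599cf_ntF.WVle
import Pool.Agent.Lib.MP_9599cf_ntF.WFinB

/-! # The end: `e = 1`, `b ≥ 1` -/

set_option autoImplicit false

namespace SalemLen

/-- PROOF. `n = 2 h`, `n ≥ 25` by `n_ge`. Let `y = s ^ (h - d)`, `V = s ^ d`, `y V = s ^ h`. `hroot` divided by `s ^ h`:
`y V + (y V)⁻¹ = A (y + y⁻¹) - b`, `s ^ n + s⁻¹ ^ n = (y V) ^ 2 + (y V)⁻¹ ^ 2 = (A (y + y⁻¹) - b) ^ 2 - 2`. `v_le` (with `hj 2`; if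
`4 d ≤ 2 h` then `d ≤ h - d`, so `V ≤ y`) gives `V ≤ A`, and `finlt` gives the contradiction. -/
theorem end_pos {d h A : ℕ} {b : ℤ} {s : ℝ} (hd : 3 ≤ d) (hdh : d < h) (hA : 2 ≤ A) (hs : 1 < s)
    (hr : s ≤ 11763 / 10000) (hb : 1 ≤ b)
    (hroot : s ^ (2 * h) - A * s ^ (2 * h - d) + b * s ^ h - A * s ^ d + 1 = 0)
    (h3 : ((2 * h : ℕ) : ℝ) * ((A : ℝ) ^ 2 - 2 + (b : ℝ) ^ 2 / 2) + 2 ≤ s ^ (2 * h) + (s⁻¹) ^ (2 * h))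
    (hj : ∀ j : ℕ, 0 < j → 4 * j ≤ 2 * h →
      (d : ℝ) * (A : ℝ) ^ j ≤ ((2 * h : ℕ) : ℝ) - 2 + (s ^ d) ^ j + ((s ^ d)⁻¹) ^ j) :
    False := by
  have hA' : (2 : ℝ) ≤ A := by exact_mod_cast hA
  have hb' : (1 : ℝ) ≤ b := by exact_mod_cast hb
  have hn : 25 ≤ 2 * h := n_ge (by omega) hs hr hA' h3
  obtain ⟨y, hy⟩ : ∃ y, y = s ^ (h - d) := ⟨_, rfl⟩
  obtain ⟨V, hV⟩ : ∃ V, V = s ^ d := ⟨_, rfl⟩
  have hy1 : 1 ≤ y := by rw [hy]; exact one_le_pow₀ hs.le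
  have hV1 : 1 ≤ V := by rw [hV]; exact one_le_pow₀ hs.le
  have hy0 : y ≠ 0 := by linarith
  have hV0 : V ≠ 0 := by linarith
  have e1 : s ^ h = y * V := by
    rw [hy, hV, ← pow_add]
    congr 1
    omega
  have e2 : s ^ (2 * h) = (y * V) ^ 2 := by
    rw [← e1, ← pow_mul]
    congr 1
    omega
  have e3 : s ^ (2 * h - d) = y * (y * V) := by
    rw [← e1, hy, ← pow_add]
    congr 1
    omega
  have hroot' : (y * V) ^ 2 - A * (y * (y * V)) + b * (y * V) - A * V + 1 = 0 := by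
    rw [← e2, ← e3, ← e1, hV]
    exact hroot
  have h0 : y * V + (y * V)⁻¹ = A * (y + y⁻¹) - b := by
    field_simp
    linear_combination hroot'
  have e4 : (s⁻¹) ^ (2 * h) = ((y * V)⁻¹) ^ 2 := by
    rw [inv_pow, e2, inv_pow]
  have h5 : ((2 * h : ℕ) : ℝ) * ((A : ℝ) ^ 2 - 2 + (b : ℝ) ^ 2 / 2) + 4 ≤ (A * (y + y⁻¹) - b) ^ 2 := by
    rw [← h0]
    have h6 : (y * V + (y * V)⁻¹) ^ 2 = (y * V) ^ 2 + ((y * V)⁻¹) ^ 2 + 2 := by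
      have h7 : (y * V) * (y * V)⁻¹ = 1 := mul_inv_cancel₀ (mul_ne_zero hy0 hV0)
      linear_combination 2 * h7
    rw [e2, e4] at h3
    linarith
  have hj' : ∀ j : ℕ, 0 < j → 4 * j ≤ 2 * h →
      (d : ℝ) * (A : ℝ) ^ j ≤ ((2 * h : ℕ) : ℝ) - 2 + V ^ j + (V⁻¹) ^ j := by
    rw [hV]
    exact hj
  have h8 : V ≤ A := by
    refine v_le (n := 2 * h) (d := d) hn hd hA' hb' hy1 hV1 h0 h5 (hj' 2 (by norm_num) (by omega)) ?_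
    intro h9
    rw [hV, hy]
    exact pow_le_pow_right₀ hs.le (by omega)
  exact finlt (n := 2 * h) (d := d) hn (by omega) hA' hV1 h8 hj'

end SalemLen
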