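import Mathlib

/-!
Moment inequalities for the real parts of the unimodular roots: the final estimates.
-/

set_option autoImplicit false

namespace SalemLen

theorem msum_nonneg (V : Multiset ℝ) (f : ℝ → ℝ) (h : ∀ v ∈ V, 0 ≤ f v) : 0 ≤ (V.map f).sum := by
  apply Multiset.sum_nonneg
  intro x hx
  obtain ⟨v, hv, rfl⟩ := Multiset.mem_map.mp hx
  exact h v hv

theorem msum_cubic (V : Multiset ℝ) (a b c d : ℝ) :
    (V.map fun v => a + b * v + c * v ^ 2 + d * v ^ 3).sum =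
      a * V.card + b * V.sum + c * (V.map fun v => v ^ 2).sum + d * (V.map fun v => v ^ 3).sum := by
  induction V using Multiset.induction_on with
  | empty => simp
  | cons x V ih => simp only [Multiset.map_cons, Multiset.sum_cons, ih, Multiset.card_cons]; push_cast; ring

/-- A nonnegative cubic on `V` has nonnegative moment combination. -/
theorem msum_cubic_nonneg (V : Multiset ℝ) (a b c d : ℝ)
    (h : ∀ v ∈ V, 0 ≤ a + b * v + c * v ^ 2 + d * v ^ 3) :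
    0 ≤ a * V.card + b * V.sum + c * (V.map fun v => v ^ 2).sum +
      d * (V.map fun v => v ^ 3).sum := by
  rw [← msum_cubic]
  exact msum_nonneg V _ h

/-- e2 -/
theorem wend2 (V : Multiset ℝ) (c : ℝ) (hc : 0 < c) (h : ∀ v ∈ V, 0 ≤ v)
    (h1 : V.sum = - 2 * c) : False := by
  have := msum_cubic_nonneg V 0 1 0 0 (fun v hv => by have := h v hv; linarith)
  linarith

/-- e9 -/
theorem wend9 (V : Multiset ℝ) (c : ℝ) (hc : 0 < c) (h : ∀ v ∈ V, 1 ≤ v)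
    (h1 : V.sum = - 2 * c) : False :=
  wend2 V c hc (fun v hv => by have := h v hv; linarith) h1

/-- e1 -/
theorem wend1 (V : Multiset ℝ) (N : ℕ) (c A b : ℝ) (hc : 2 < c) (hA : 2 ≤ A) (hN : 5 ≤ N)
    (h : ∀ v ∈ V, -2 ≤ v ∧ (A * v - b) ^ 2 ≤ 4)
    (h0 : V.card + 2 = 2 * N) (h1 : V.sum = - 2 * c)
    (h2 : (V.map fun v => v ^ 2).sum = 4 * N - 2 * c ^ 2)
    (h3 : (V.map fun v => v ^ 3).sum = - 2 * c ^ 3) : False := by
  have h0' : (V.card : ℝ) = 2 * N - 2 := by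
    have : ((V.card + 2 : ℕ) : ℝ) = ((2 * N : ℕ) : ℝ) := by rw [h0]
    push_cast at this; linarith
  have hN' : (5 : ℝ) ≤ N := by exact_mod_cast hN
  have hApos : 0 < A := by linarith
  -- center `s = b / A`, `|v - s| ≤ 1`
  obtain ⟨s, hs⟩ : ∃ s : ℝ, b = A * s := ⟨b / A, by field_simp⟩
  have hv : ∀ v ∈ V, 0 ≤ (1 - s ^ 2) + (2 * s) * v + (-1) * v ^ 2 + 0 * v ^ 3 := by
    intro v hv
    obtain ⟨-, h4⟩ := h v hv
    have e : (A * v - b) ^ 2 = A ^ 2 * (v - s) ^ 2 := by rw [hs]; ring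
    rw [e] at h4
    have : 4 * (v - s) ^ 2 ≤ A ^ 2 * (v - s) ^ 2 := by
      apply mul_le_mul_of_nonneg_right _ (sq_nonneg _); nlinarith
    nlinarith
  have k1 := msum_cubic_nonneg V _ _ _ _ hv
  have k2 := msum_cubic_nonneg V 0 0 2 1 (fun v hv => by
    have := (h v hv).1
    nlinarith [mul_nonneg (sq_nonneg v) (by linarith : 0 ≤ v + 2)])
  rw [h0', h1, h2, h3] at k1 k2
  -- `k1 : (1 - s²)(2N-2) - 4 s c - 4N + 2c² ≥ 0`
  set n : ℝ := (N : ℝ) with hn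
  have k3 : (n ^ 2 - 1) ≤ n * c ^ 2 := by
    -- multiply by (2N-2)/2 and complete the square
    have : (n - 1) * ((1 - s ^ 2) * (2 * n - 2) + 2 * s * (-2 * c) + -1 * (4 * n - 2 * c ^ 2) + 0 * (-2 * c ^ 3)) ≥ 0 :=
      mul_nonneg (by linarith) k1
    nlinarith [sq_nonneg ((n - 1) * s + c)]
  have k4 : c ^ 3 + 2 * c ^ 2 ≤ 4 * n := by linarith
  -- contradiction for n ≥ 5
  have k5 : n * c ^ 3 ≤ 2 * (n ^ 2 + 1) := by nlinarith
  -- c^2 ≥ n - 1/n, c^3 ≤ 2 n + 2 / n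
  have k6 : (n ^ 2 - 1) * c ≤ 2 * (n ^ 2 + 1) := by
    have : (n ^ 2 - 1) * c ≤ n * c ^ 2 * c := mul_le_mul_of_nonneg_right k3 (by linarith)
    nlinarith
  have k7 : c ≤ 13 / 6 := by
    by_contra hcon
    push Not at hcon
    nlinarith
  nlinarith

/-- e3 -/
theorem wend3 (V : Multiset ℝ) (N : ℕ) (c : ℝ) (hc : 2 < c)
    (h : ∀ v ∈ V, -2 ≤ v ∧ v ≤ 0)
    (h0 : V.card + 2 = 2 * N) (h1 : V.sum = - 2 * c)
    (h2 : (V.map fun v => v ^ 2).sum = 4 * N - 2 * c ^ 2)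
    (h3 : (V.map fun v => v ^ 3).sum = - 2 * c ^ 3) : False := by
  have k1 := msum_cubic_nonneg V 0 0 2 1 (fun v hv => by
    have := (h v hv).1
    nlinarith [mul_nonneg (sq_nonneg v) (by linarith : 0 ≤ v + 2)])
  have k2 := msum_cubic_nonneg V 0 (-2) (-1) 0 (fun v hv => by
    obtain ⟨a, b⟩ := h v hv
    nlinarith [mul_nonneg (by linarith : 0 ≤ -v) (by linarith : 0 ≤ v + 2)])
  rw [h1, h2, h3] at k1
  rw [h1, h2, h3] at k2
  have : c ^ 3 ≤ 4 * c := by linarith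
  nlinarith

/-- e4 -/
theorem wend4 (V : Multiset ℝ) (N : ℕ) (c : ℝ) (hc : 2 < c)
    (h : ∀ v ∈ V, -2 ≤ v ∧ v ≤ 0)
    (h0 : V.card + 2 = 2 * N) (h1 : V.sum = - 2 * c)
    (h2 : (V.map fun v => v ^ 2).sum = 4 * N - 2 * c ^ 2)
    (h3 : (V.map fun v => v ^ 3).sum = 6 - 2 * c ^ 3) : N ≤ 4 := by
  have k1 := msum_cubic_nonneg V 0 0 2 1 (fun v hv => by
    have := (h v hv).1
    nlinarith [mul_nonneg (sq_nonneg v) (by linarith : 0 ≤ v + 2)])
  have k2 := msum_cubic_nonneg V 0 (-2) (-1) 0 (fun v hv => by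
    obtain ⟨a, b⟩ := h v hv
    nlinarith [mul_nonneg (by linarith : 0 ≤ -v) (by linarith : 0 ≤ v + 2)])
  rw [h1, h2, h3] at k1
  rw [h1, h2, h3] at k2
  have k3 : c ^ 3 ≤ 4 * c + 3 := by linarith
  have k4 : c ≤ 2303 / 1000 := by
    by_contra hcon
    push Not at hcon
    nlinarith [mul_pos (by linarith : 0 < c - 2303 / 1000) (by linarith : 0 < c)]
  have k5 : 2 * (N : ℝ) ≤ c ^ 2 + 2 * c := by linarith
  have k6 : (N : ℝ) < 5 := by nlinarith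
  have : N < 5 := by exact_mod_cast k6
  omega

/-- e5 -/
theorem wend5 (V : Multiset ℝ) (N m : ℕ) (c : ℝ) (hc : 2 < c)
    (h : ∀ v ∈ V, -2 ≤ v ∧ v ≤ 0) (hm : N = m + 2)
    (h0 : V.card + 2 = 2 * N) (h1 : V.sum = - 2 * c)
    (h2 : (V.map fun v => v ^ 2).sum = 4 + 4 * N - 2 * c ^ 2)
    (h3 : (V.map fun v => v ^ 3).sum = 12 * m - 2 * c ^ 3) : N ≤ 12 := by
  have k1 := msum_cubic_nonneg V 0 0 2 1 (fun v hv => by
    have := (h v hv).1
    nlinarith [mul_nonneg (sq_nonneg v) (by linarith : 0 ≤ v + 2)])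
  have k2 := msum_cubic_nonneg V 0 (-2) (-1) 0 (fun v hv => by
    obtain ⟨a, b⟩ := h v hv
    nlinarith [mul_nonneg (by linarith : 0 ≤ -v) (by linarith : 0 ≤ v + 2)])
  rw [h1, h2, h3] at k1
  rw [h1, h2, h3] at k2
  have hm' : (N : ℝ) = m + 2 := by rw [hm]; push_cast; ring
  have k3 : c ^ 3 + 2 * c ^ 2 ≤ 10 * N - 8 := by linarith
  have k4 : 2 * (N : ℝ) + 2 ≤ c ^ 2 + 2 * c := by linarith
  by_contra hcon
  have hN : (13 : ℝ) ≤ N := by exact_mod_cast (by omega : 13 ≤ N)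
  have k5 : 438 / 100 < c := by
    by_contra hc2
    push Not at hc2
    nlinarith
  have k6 : c ^ 3 - 3 * c ^ 2 - 10 * c + 18 ≤ 0 := by linarith
  nlinarith [mul_pos (by linarith : 0 < c - 438 / 100) (by linarith : 0 < c),
    mul_pos (mul_pos (by linarith : 0 < c - 438 / 100) (by linarith : 0 < c)) (by linarith : 0 < c)]

/-- e6 -/
theorem wend6 (V : Multiset ℝ) (N : ℕ) (c s : ℝ) (hc : 2 < c) (hs : s ≤ 2)
    (h : ∀ v ∈ V, -2 ≤ v ∧ v ≤ -1)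
    (h0 : V.card + 2 = 2 * N) (h1 : V.sum = - 2 * c)
    (h2 : (V.map fun v => v ^ 2).sum = 2 * s + 4 * N - 2 * c ^ 2) : N ≤ 3 := by
  have h0' : (V.card : ℝ) = 2 * N - 2 := by
    have : ((V.card + 2 : ℕ) : ℝ) = ((2 * N : ℕ) : ℝ) := by rw [h0]
    push_cast at this; linarith
  have k1 := msum_cubic_nonneg V (-1) (-1) 0 0 (fun v hv => by
    have := (h v hv).2
    linarith)
  have k2 := msum_cubic_nonneg V (-1) 0 1 0 (fun v hv => by
    obtain ⟨a, b⟩ := h v hv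
    nlinarith)
  rw [h0', h1, h2] at k2
  rw [h0', h1] at k1
  have k3 : (N : ℝ) - 1 ≤ c := by linarith
  have k4 : c ^ 2 ≤ N + 1 + s := by linarith
  by_contra hcon
  have hN : (4 : ℝ) ≤ N := by exact_mod_cast (by omega : 4 ≤ N)
  nlinarith

/-- e7 -/
theorem wend7 (V : Multiset ℝ) (N : ℕ) (c : ℝ) (hc : 2 < c) (hc2 : c < 2031 / 1000)
    (h : ∀ v ∈ V, -2 ≤ v ∧ v ≤ 1)
    (h0 : V.card + 2 = 2 * N) (h1 : V.sum = 2 - 2 * c)
    (h2 : (V.map fun v => v ^ 2).sum = 2 + 4 * N - 2 * c ^ 2)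
    (h3 : (V.map fun v => v ^ 3).sum = 8 - 2 * c ^ 3) : N ≤ 4 := by
  have h0' : (V.card : ℝ) = 2 * N - 2 := by
    have : ((V.card + 2 : ℕ) : ℝ) = ((2 * N : ℕ) : ℝ) := by rw [h0]
    push_cast at this; linarith
  have k1 := msum_cubic_nonneg V 4 0 (-3) (-1) (fun v hv => by
    obtain ⟨a, b⟩ := h v hv
    nlinarith [mul_nonneg (sq_nonneg (v + 2)) (by linarith : 0 ≤ 1 - v)])
  rw [h0', h1, h2, h3] at k1
  have k3 : 4 * (N : ℝ) + 22 ≤ 2 * c ^ 3 + 6 * c ^ 2 := by linarith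
  have k4 : c ^ 2 ≤ (2031 / 1000) ^ 2 := by nlinarith
  have k5 : c ^ 3 ≤ (2031 / 1000) ^ 3 := by
    have : c ^ 3 = c ^ 2 * c := by ring
    nlinarith
  have : (N : ℝ) < 5 := by nlinarith
  have : N < 5 := by exact_mod_cast this
  omega

/-- e8 -/
theorem wend8 (V : Multiset ℝ) (n : ℕ) (c : ℝ) (hc : 2 < c)
    (h : ∀ v ∈ V, -2 ≤ v ∧ v ≤ -1)
    (h0 : V.card + 2 = n) (h1 : V.sum = - 2 * c)
    (h2 : (V.map fun v => v ^ 2).sum = 2 * n - 2 * c ^ 2) : n ≤ 6 := by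
  have h0' : (V.card : ℝ) = n - 2 := by
    have : ((V.card + 2 : ℕ) : ℝ) = (n : ℝ) := by rw [h0]
    push_cast at this; linarith
  have k1 := msum_cubic_nonneg V (-1) (-1) 0 0 (fun v hv => by
    have := (h v hv).2
    linarith)
  have k2 := msum_cubic_nonneg V (-1) 0 1 0 (fun v hv => by
    obtain ⟨a, b⟩ := h v hv
    nlinarith)
  rw [h0', h1, h2] at k2
  rw [h0', h1] at k1
  have k3 : (n : ℝ) - 2 ≤ 2 * c := by linarith
  have k4 : 2 * c ^ 2 ≤ n + 2 := by linarith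
  by_contra hcon
  have hN : (7 : ℝ) ≤ n := by exact_mod_cast (by omega : 7 ≤ n)
  nlinarith

end SalemLen
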