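import Mathlib

/-! # The equation in symmetric form -/

set_option autoImplicit false

namespace SalemLen

/-- PROOF. Divide by `w ^ n`: `(w ^ 2) ^ (n - d) = w ^ n * w ^ (n - 2 d)`, `(w ^ 2) ^ d * w ^ (n - 2 d) = w ^ n`, and if `n = 2 h`
`(w ^ 2) ^ h = w ^ n`. -/
theorem sym_eq {n d h : ℕ} {a b e : ℝ} (hdn : 2 * d < n) (hb : b = 0 ∨ n = 2 * h) {w : ℝ} (hw : 0 < w)
    (h0 : (w ^ 2) ^ n + a * (w ^ 2) ^ (n - d) + b * (w ^ 2) ^ h + e * a * (w ^ 2) ^ d + e = 0) :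
    w ^ n + e * (w⁻¹) ^ n + a * (w ^ (n - 2 * d) + e * (w⁻¹) ^ (n - 2 * d)) + b = 0 := by
  have hbh : b * (w ^ 2) ^ h = b * w ^ n := by
    rcases hb with rfl | rfl
    · simp
    · rw [← pow_mul]
  rw [hbh] at h0
  obtain ⟨k, rfl⟩ : ∃ k, n = k + 2 * d := ⟨n - 2 * d, by omega⟩
  have e1 : k + 2 * d - 2 * d = k := by omega
  have e2 : k + 2 * d - d = k + d := by omega
  rw [e2] at h0
  rw [e1, inv_pow, inv_pow]
  have hK : w ^ k ≠ 0 := (pow_pos hw k).ne'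
  have hW : w ^ (k + 2 * d) ≠ 0 := (pow_pos hw _).ne'
  have f1 : (w ^ 2) ^ (k + 2 * d) = w ^ (k + 2 * d) * w ^ (k + 2 * d) := by
    rw [← pow_mul, ← pow_add]; congr 1; ring
  have f2 : (w ^ 2) ^ (k + d) = w ^ (k + 2 * d) * w ^ k := by
    rw [← pow_mul, ← pow_add]; congr 1; ring
  have f3 : (w ^ 2) ^ d = w ^ (k + 2 * d) * (w ^ k)⁻¹ := by
    rw [eq_mul_inv_iff_mul_eq₀ hK, ← pow_mul, ← pow_add]; congr 1; ring
  rw [f1, f2, f3] at h0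
  have key : w ^ (k + 2 * d) * (w ^ (k + 2 * d) + e * (w ^ (k + 2 * d))⁻¹ +
      a * (w ^ k + e * (w ^ k)⁻¹) + b) = 0 := by
    have h1 : w ^ (k + 2 * d) * (w ^ (k + 2 * d))⁻¹ = 1 := mul_inv_cancel₀ hW
    linear_combination h0 + e * h1
  exact (mul_eq_zero.1 key).resolve_left hW

/-- PROOF. `V = s ^ d`, `y = w ^ (n - 2 d)`, `w ^ n = y V`, `w⁻¹ ^ n = (y V)⁻¹`; `V = A + A / y ^ 2 + B / y - 1 / (y ^ 2 V)`. -/
theorem v_upper {A B y V t : ℝ} (hA : 0 < A) (hy : 1 ≤ y) (hV : 1 ≤ V)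
    (h0 : y * V + (y * V)⁻¹ = A * (y + y⁻¹) + B) (ht : (y⁻¹) ^ 2 + B / (A * y) ≤ t) :
    V ≤ A * (1 + t) := by
  have hy0 : 0 < y := by linarith
  have hV0 : 0 < V := by linarith
  have h1 : 0 ≤ (y * V)⁻¹ := by positivity
  have h2 : y * V ≤ A * (y + y⁻¹) + B := by linarith
  have h3 : V ≤ (A * (y + y⁻¹) + B) / y := by
    rw [le_div_iff₀ hy0]; linarith
  have h4 : (A * (y + y⁻¹) + B) / y = A * (1 + ((y⁻¹) ^ 2 + B / (A * y))) := by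
    field_simp
    ring
  rw [h4] at h3
  exact h3.trans (mul_le_mul_of_nonneg_left (by linarith) hA.le)

/-- PROOF. `V = A - A / y ^ 2 + 1 / (y ^ 2 V)` and `1 / V ≤ 1 ≤ A`. -/
theorem v_anti {A y V : ℝ} (hA : 1 ≤ A) (hy : 1 ≤ y) (hV : 1 ≤ V)
    (h0 : y * V - (y * V)⁻¹ = A * (y - y⁻¹)) : V ≤ A := by
  have hy0 : 0 < y := by linarith
  have hV0 : 0 < V := by linarith
  have h1 : (y * V)⁻¹ ≤ y⁻¹ := by
    apply inv_anti₀ hy0
    nlinarith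
  have h2 : y⁻¹ ≤ A * y⁻¹ := by
    have : 0 < y⁻¹ := by positivity
    nlinarith
  have h3 : V * y ≤ A * y := by linarith
  exact le_of_mul_le_mul_right h3 hy0

end SalemLen
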