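import Pool.Agent.Lib.MP_9599cf_ntF.WDef

/-! # Coprimality -/

set_option autoImplicit false

namespace SalemLen

open Polynomial

/-- PROOF. As `coprime_of_dom` (file `VGcd`): for a root of unity `ζ ≠ 1` of order `g`, `s ζ` is a root of `wp ..`, as all
exponents of terms with nonzero coefficients are divisible by `g`; but `|s ζ| = s > 1`, `s ζ ≠ s`. -/
theorem dom_gcd {n d h : ℕ} {a b e : ℤ} {s : ℝ} (hs : 1 < s) (hd : Dom (wp n d h a b e) s) {g : ℕ}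
    (hdn : d ≤ n) (hg : 0 < g) (h1 : g ∣ n) (h2 : g ∣ d) (h3 : b = 0 ∨ g ∣ h) : g = 1 := by
  have _ := hdn
  by_contra hc
  have hg1 : 1 < g := by omega
  obtain ⟨ζ, hζ⟩ : ∃ ζ : ℂ, IsPrimitiveRoot ζ g := ⟨_, Complex.isPrimitiveRoot_exp _ hg.ne'⟩
  have hpow : ∀ k : ℕ, g ∣ k → ((s : ℂ) * ζ) ^ k = (s : ℂ) ^ k := by
    intro k hk
    rw [mul_pow, (hζ.pow_eq_one_iff_dvd k).2 hk, mul_one]
  have hb : (b : ℂ) * ((s : ℂ) * ζ) ^ h = b * (s : ℂ) ^ h := by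
    rcases h3 with h3 | h3
    · rw [h3, Int.cast_zero, zero_mul, zero_mul]
    · rw [hpow _ h3]
  have h4 : (cx (wp n d h a b e)).eval ((s : ℂ) * ζ) = (cx (wp n d h a b e)).eval (s : ℂ) := by
    rw [wp_eval, wp_eval, hpow _ h1, hpow _ h2, hpow _ (Nat.dvd_sub h1 h2), hb]
  obtain ⟨Q, hQ, hz⟩ := hd
  have h5 : (cx (wp n d h a b e)).eval (s : ℂ) = 0 := by
    rw [hQ, eval_mul]
    simp
  rw [h5, hQ, eval_mul, mul_eq_zero] at h4
  have hs0 : (s : ℂ) ≠ 0 := by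
    rw [Ne, Complex.ofReal_eq_zero]
    linarith
  have h6 : ((X : ℂ[X]) - C (s : ℂ)).eval ((s : ℂ) * ζ) ≠ 0 := by
    simp only [eval_sub, eval_X, eval_C]
    intro h7
    have h8 : (s : ℂ) * (ζ - 1) = 0 := by linear_combination h7
    rcases mul_eq_zero.1 h8 with h9 | h9
    · exact hs0 h9
    · exact hζ.ne_one hg1 (sub_eq_zero.1 h9)
  have h7 := hz _ (h4.resolve_left h6)
  rw [norm_mul, hζ.norm'_eq_one hg.ne', mul_one, Complex.norm_real, Real.norm_eq_abs] at h7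
  have h8 := le_abs_self s
  linarith

end SalemLen
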