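import Pool.Agent.Lib.MP_9599cf_ntF.WDef

/-! # Reciprocal roots -/

set_option autoImplicit false

namespace SalemLen

open Polynomial

private theorem WInv_pow {z : ℂ} (hz : z ≠ 0) (p q : ℕ) : z ^ (p + q) * z⁻¹ ^ q = z ^ p := by
  rw [pow_add, mul_assoc, ← mul_pow, mul_inv_cancel₀ hz, one_pow, mul_one]

/-- PROOF. `z ^ n * P (z⁻¹) = e * P z` (`e ^ 2 = 1`; `e = 1`, `n = 2 h` if `b ≠ 0`), by `wp_eval`. -/
theorem wp_inv {n d h : ℕ} {a b e : ℤ} (hdn : 2 * d < n) (he : e = 1 ∨ e = -1)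
    (hb : b = 0 ∨ (e = 1 ∧ n = 2 * h)) {z : ℂ} (hz : z ≠ 0) (h0 : (cx (wp n d h a b e)).eval z = 0) :
    (cx (wp n d h a b e)).eval z⁻¹ = 0 := by
  rw [wp_eval] at h0 ⊢
  have hn : z ^ n ≠ 0 := pow_ne_zero _ hz
  obtain ⟨m, hm⟩ : ∃ m, n = d + m := ⟨n - d, by omega⟩
  have h1 : n - d = m := by omega
  have e1 : z ^ n * z⁻¹ ^ n = 1 := by
    have := WInv_pow hz 0 n
    rwa [zero_add, pow_zero] at this
  have e2 : z ^ n * z⁻¹ ^ m = z ^ d := by rw [hm]; exact WInv_pow hz d m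
  have e3 : z ^ n * z⁻¹ ^ d = z ^ m := by rw [hm, add_comm]; exact WInv_pow hz m d
  have e4 : (b : ℂ) * (z ^ n * z⁻¹ ^ h) = (e : ℂ) * (b : ℂ) * z ^ h := by
    rcases hb with hb | ⟨hb1, hb2⟩
    · rw [hb]; simp
    · have : z ^ n * z⁻¹ ^ h = z ^ h := by
        rw [hb2, two_mul]; exact WInv_pow hz h h
      rw [this, hb1]; simp
  have e5 : (e : ℂ) * (e : ℂ) = 1 := by
    rcases he with he | he
    · rw [he]; simp
    · rw [he]; simp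
  rw [h1] at h0 ⊢
  have key : z ^ n * (z⁻¹ ^ n + (a : ℂ) * z⁻¹ ^ m + (b : ℂ) * z⁻¹ ^ h + (e : ℂ) * (a : ℂ) * z⁻¹ ^ d +
      (e : ℂ)) = 0 := by
    have : z ^ n * (z⁻¹ ^ n + (a : ℂ) * z⁻¹ ^ m + (b : ℂ) * z⁻¹ ^ h +
        (e : ℂ) * (a : ℂ) * z⁻¹ ^ d + (e : ℂ)) =
        (z ^ n * z⁻¹ ^ n) + a * (z ^ n * z⁻¹ ^ m) + b * (z ^ n * z⁻¹ ^ h) +
          e * a * (z ^ n * z⁻¹ ^ d) + e * z ^ n := by ring
    rw [this, e1, e2, e3, e4]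
    have h2 : (e : ℂ) * (z ^ n + a * z ^ m + b * z ^ h + e * a * z ^ d + e) = 0 := by
      rw [h0, mul_zero]
    linear_combination h2 - ((a : ℂ) * z ^ d + 1) * e5
  exact (mul_eq_zero.1 key).resolve_left hn

end SalemLen
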