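import Pool.Agent.Lib.MP_9599cf_ntF.WDef

/-! # The power sums: four terms -/

set_option autoImplicit false

namespace SalemLen

theorem WPowA_lt {p : ℕ → ℂ} {k i : ℕ} (h : i < k) : qk p k i = p (k - i) := if_pos h

theorem WPowA_eq {p : ℕ → ℂ} {k : ℕ} : qk p k k = (k : ℂ) := by simp [qk]

theorem WPowA_gt {p : ℕ → ℂ} {k i : ℕ} (h : k < i) : qk p k i = 0 := by
  rw [qk, if_neg (by omega), if_neg (by omega)]

theorem WPowA_aux {p : ℕ → ℂ} {n d : ℕ} {A e : ℂ}
    (hrec : ∀ k, 0 < k → p k = A * qk p k d + e * A * qk p k (n - d) - e * qk p k n)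
    (hd : 2 ≤ d) (hdn : 2 * d < n) (hc : Nat.Coprime d n) (k : ℕ) :
    (∀ r : ℕ, 1 ≤ r → r < d → (d : ℤ) ∣ (k : ℤ) - r * n → 0 < k →
      (k : ℤ) < r * ((n : ℤ) - d) → p k = 0) ∧
    (d ∣ k → 0 < k → (k : ℤ) < d * ((n : ℤ) - d) → p k = d * A ^ (k / d)) := by
  have hcop : IsCoprime (d : ℤ) (n : ℤ) := Nat.isCoprime_iff_coprime.2 hc
  have nd : ∀ s : ℤ, (d : ℤ) ∣ s * n → (d : ℤ) ∣ s := fun s hs => hcop.dvd_of_dvd_mul_right hs
  have nz : ∀ s : ℤ, 0 < s → s < d → ¬ (d : ℤ) ∣ s * n := fun s h1 h2 h3 => by
    have := Int.le_of_dvd h1 (nd s h3)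
    omega
  have hnd : ((n - d : ℕ) : ℤ) = (n : ℤ) - d := by push_cast [show d ≤ n by omega]; ring
  induction k using Nat.strong_induction_on with
  | _ k IH =>
  refine ⟨fun r r1 r2 hk k0 hlt => ?_, fun hk k0 hlt => ?_⟩
  · rw [hrec k k0]
    have t1 : qk p k d = 0 := by
      rcases lt_trichotomy d k with h1 | h1 | h1
      · rw [WPowA_lt h1]
        have e1 : ((k - d : ℕ) : ℤ) = (k : ℤ) - d := by push_cast [h1.le]; ring
        refine (IH (k - d) (by omega)).1 r r1 r2 ?_ (by omega) ?_
        · rw [e1]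
          have : (k : ℤ) - d - r * n = ((k : ℤ) - r * n) - d := by ring
          rw [this]
          exact dvd_sub hk (dvd_refl _)
        · rw [e1]; linarith
      · exfalso
        refine nz r (by omega) (by omega) ?_
        have : (r : ℤ) * n = (k : ℤ) - ((k : ℤ) - r * n) := by ring
        rw [this]
        exact dvd_sub (by rw [h1]) hk
      · exact WPowA_gt h1
    have t2 : qk p k (n - d) = 0 := by
      by_cases hr : r = 1
      · subst hr
        refine WPowA_gt ?_
        have : (k : ℤ) < (n : ℤ) - d := by simpa using hlt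
        omega
      · have hr2 : ((r - 1 : ℕ) : ℤ) = (r : ℤ) - 1 := by push_cast [r1]; ring
        rcases lt_trichotomy (n - d) k with h1 | h1 | h1
        · rw [WPowA_lt h1]
          have e1 : ((k - (n - d) : ℕ) : ℤ) = (k : ℤ) - (n - d) := by
            rw [Nat.cast_sub h1.le, hnd]
          refine (IH (k - (n - d)) (by omega)).1 (r - 1) (by omega) (by omega) ?_ (by omega) ?_
          · rw [e1, hr2]
            have : (k : ℤ) - (n - d) - ((r : ℤ) - 1) * n = ((k : ℤ) - r * n) + d := by ring
            rw [this]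
            exact dvd_add hk (dvd_refl _)
          · rw [e1, hr2]; linarith
        · exfalso
          refine nz ((r : ℤ) - 1) (by omega) (by omega) ?_
          have : ((r : ℤ) - 1) * n = -(((k : ℤ) - r * n) + d) := by rw [← h1, hnd]; ring
          rw [this]
          exact (dvd_neg).2 (dvd_add hk (dvd_refl _))
        · exact WPowA_gt h1
    have t3 : qk p k n = 0 := by
      by_cases hr : r = 1
      · subst hr
        refine WPowA_gt ?_
        have : (k : ℤ) < (n : ℤ) - d := by simpa using hlt
        omega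
      · have hr2 : ((r - 1 : ℕ) : ℤ) = (r : ℤ) - 1 := by push_cast [r1]; ring
        rcases lt_trichotomy n k with h1 | h1 | h1
        · rw [WPowA_lt h1]
          have e1 : ((k - n : ℕ) : ℤ) = (k : ℤ) - n := by push_cast [h1.le]; ring
          refine (IH (k - n) (by omega)).1 (r - 1) (by omega) (by omega) ?_ (by omega) ?_
          · rw [e1, hr2]
            have : (k : ℤ) - n - ((r : ℤ) - 1) * n = (k : ℤ) - r * n := by ring
            rw [this]
            exact hk
          · rw [e1, hr2]
            have : (0 : ℤ) < d := by omega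
            linarith
        · exfalso
          refine nz ((r : ℤ) - 1) (by omega) (by omega) ?_
          have : ((r : ℤ) - 1) * n = -((k : ℤ) - r * n) := by rw [← h1]; ring
          rw [this]
          exact (dvd_neg).2 hk
        · exact WPowA_gt h1
    rw [t1, t2, t3]; ring
  · rw [hrec k k0]
    obtain ⟨j, rfl⟩ := hk
    have hj : 0 < j := Nat.pos_of_mul_pos_left k0
    have hdk : (d : ℤ) ∣ ((d * j : ℕ) : ℤ) := by push_cast; exact dvd_mul_right _ _
    have t1 : A * qk p (d * j) d = d * A ^ (d * j / d) := by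
      rw [Nat.mul_div_cancel_left _ (by omega : 0 < d)]
      rcases Nat.lt_or_ge 1 j with h1 | h1
      · have h2 : d < d * j := by
          calc d = d * 1 := (mul_one d).symm
            _ < d * j := Nat.mul_lt_mul_of_pos_left h1 (by omega)
        have e0 : d * j - d = d * (j - 1) := by rw [Nat.mul_sub, mul_one]
        rw [WPowA_lt h2, e0]
        rw [(IH (d * (j - 1)) (by rw [← e0]; omega)).2 (dvd_mul_right _ _)
          (Nat.mul_pos (by omega) (by omega)) ?_]
        · rw [Nat.mul_div_cancel_left _ (by omega : 0 < d)]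
          obtain ⟨j', rfl⟩ : ∃ j', j = j' + 1 := ⟨j - 1, by omega⟩
          rw [Nat.add_sub_cancel, pow_succ]; ring
        · rw [← e0, Nat.cast_sub h2.le]
          have : (0 : ℤ) < d := by omega
          linarith
      · obtain rfl : j = 1 := by omega
        rw [mul_one, WPowA_eq, pow_one]; ring
    have t2 : qk p (d * j) (n - d) = 0 := by
      rcases lt_trichotomy (n - d) (d * j) with h1 | h1 | h1
      · rw [WPowA_lt h1]
        have e1 : ((d * j - (n - d) : ℕ) : ℤ) = ((d * j : ℕ) : ℤ) - (n - d) := by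
          rw [Nat.cast_sub h1.le, hnd]
        have hr2 : ((d - 1 : ℕ) : ℤ) = (d : ℤ) - 1 := by push_cast [show 1 ≤ d by omega]; ring
        refine (IH (d * j - (n - d)) (by omega)).1 (d - 1) (by omega) (by omega) ?_ (by omega) ?_
        · rw [e1, hr2]
          have : ((d * j : ℕ) : ℤ) - (n - d) - ((d : ℤ) - 1) * n =
              ((d * j : ℕ) : ℤ) + d * (1 - n) := by ring
          rw [this]
          exact dvd_add hdk (dvd_mul_right _ _)
        · rw [e1, hr2]; linarith
      · exfalso
        refine nz 1 (by omega) (by omega) ?_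
        have : (1 : ℤ) * n = ((d * j : ℕ) : ℤ) + d := by rw [← h1, hnd]; ring
        rw [this]
        exact dvd_add hdk (dvd_refl _)
      · exact WPowA_gt h1
    have t3 : qk p (d * j) n = 0 := by
      rcases lt_trichotomy n (d * j) with h1 | h1 | h1
      · rw [WPowA_lt h1]
        have e1 : ((d * j - n : ℕ) : ℤ) = ((d * j : ℕ) : ℤ) - n := by
          rw [Nat.cast_sub h1.le]
        have hr2 : ((d - 1 : ℕ) : ℤ) = (d : ℤ) - 1 := by push_cast [show 1 ≤ d by omega]; ring
        refine (IH (d * j - n) (by omega)).1 (d - 1) (by omega) (by omega) ?_ (by omega) ?_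
        · rw [e1, hr2]
          have : ((d * j : ℕ) : ℤ) - n - ((d : ℤ) - 1) * n = ((d * j : ℕ) : ℤ) - d * n := by ring
          rw [this]
          exact dvd_sub hdk (dvd_mul_right _ _)
        · rw [e1, hr2]
          have : (0 : ℤ) < d := by omega
          linarith
      · exfalso
        refine nz 1 (by omega) (by omega) ?_
        have : (1 : ℤ) * n = ((d * j : ℕ) : ℤ) := by rw [← h1]; ring
        rw [this]
        exact hdk
      · exact WPowA_gt h1
    rw [t1, t2, t3]; ring

/-- PROOF. Strong induction on `k` of: (1) for `1 ≤ r < d`, `k ≡ r n` mod `d`, `0 < k < r (n - d)`: `p k = 0`; (2) for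
`d ∣ k`, `0 < k < d (n - d)`: `p k = d * A ^ (k / d)`. In the recurrence for (1): `k - d` (if positive; it is not zero as
`d` does not divide `k`) is in the same case; `k - (n - d)` and `k - n` have `r - 1` in place of `r`, and if positive they
are less than `(r - 1) (n - d)`, so for `r = 1` they do not occur (`k < n - d`), and for `r ≥ 2` (1) applies. For (2):
`k - (n - d)`, `k - n` are `≡ (d - 1) n` and less than `(d - 1) (n - d)` (not zero mod `d`, `d ≥ 2`), so (1) applies (`r = d - 1`).
The first claim is (2) (`j d < d (n - d)` as `4 j ≤ n`, `2 d < n`). For the second: `p d = d A`,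
`p (n - d) = A * p (n - 2 d) + e A (n - d) = e A (n - d)` (`n - 2 d ≡ n`, `< n - d`, so `p (n - 2 d) = 0`),
`p n = A * p (n - d) + e A * p d - e n`. -/
theorem pow_zero {p : ℕ → ℂ} {n d : ℕ} {A e : ℂ}
    (hrec : ∀ k, 0 < k → p k = A * qk p k d + e * A * qk p k (n - d) - e * qk p k n)
    (hd : 2 ≤ d) (hdn : 2 * d < n) (hc : Nat.Coprime d n) :
    (∀ j : ℕ, 0 < j → 4 * j ≤ n → p (j * d) = d * A ^ j) ∧ p n = e * n * (A ^ 2 - 1) := by
  have hd0 : (0 : ℤ) < d := by omega
  have key : ∀ j : ℕ, 0 < j → 4 * j ≤ n → p (j * d) = d * A ^ j := by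
    intro j hj hj4
    have h1 := (WPowA_aux hrec hd hdn hc (j * d)).2 (dvd_mul_left _ _)
      (Nat.mul_pos hj (by omega)) ?_
    · rw [h1, Nat.mul_div_cancel _ (by omega : 0 < d)]
    · push_cast
      rw [mul_comm]
      exact mul_lt_mul_of_pos_left (by omega) hd0
  refine ⟨key, ?_⟩
  have pd : p d = d * A := by
    have := key 1 (by omega) (by omega)
    rwa [one_mul, pow_one] at this
  have p2 : p (n - d - d) = 0 := by
    have e1 : ((n - d - d : ℕ) : ℤ) = (n : ℤ) - 2 * d := by omega
    refine (WPowA_aux hrec hd hdn hc (n - d - d)).1 1 le_rfl (by omega) ?_ (by omega) ?_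
    · rw [e1]
      exact ⟨-2, by push_cast; ring⟩
    · rw [e1]; push_cast; linarith
  have pnd : p (n - d) = e * A * ((n : ℂ) - d) := by
    rw [hrec (n - d) (by omega), WPowA_lt (show d < n - d by omega), p2, WPowA_eq,
      WPowA_gt (show n - d < n by omega), Nat.cast_sub (show d ≤ n by omega)]
    ring
  rw [hrec n (by omega), WPowA_lt (show d < n by omega), WPowA_lt (show n - d < n by omega),
    WPowA_eq, pnd, show n - (n - d) = d by omega, pd]
  ring

end SalemLen
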