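import Pool.Agent.Lib.MP_9599cf_ntF.WRec
import Pool.Agent.Lib.MP_9599cf_ntF.WPowA
import Pool.Agent.Lib.MP_9599cf_ntF.WBnd
import Pool.Agent.Lib.MP_9599cf_ntF.WInv

/-! # The inequalities, four terms -/

set_option autoImplicit false

namespace SalemLen

open Polynomial

/-- PROOF. `p = ps (wp ..)` satisfies the hypothesis of `pow_zero` (`ps_rec` with `a = -A`, `b = 0`). `ps_le` (with `wp_inv` for
the root `s`, `wp_monic` for the degree) for `k = n` (`p n = e n (A ^ 2 - 1)`) and `k = j d`. -/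
theorem ineq_zero {n d h A : ℕ} {e : ℤ} {s : ℝ} (hd : 2 ≤ d) (hdn : 2 * d < n) (hh : h < n)
    (he : e = 1 ∨ e = -1) (hA : 2 ≤ A) (hc : Nat.Coprime d n) (hs : 1 < s)
    (hdom : Dom (wp n d h (-(A : ℤ)) 0 e) s) :
    (n : ℝ) * ((A : ℝ) ^ 2 - 2) + 2 ≤ s ^ n + (s⁻¹) ^ n ∧
      ∀ j : ℕ, 0 < j → 4 * j ≤ n → (d : ℝ) * (A : ℝ) ^ j ≤ n - 2 + (s ^ d) ^ j + ((s ^ d)⁻¹) ^ j := by
  obtain ⟨hmon, hdeg⟩ := wp_monic (n := n) (d := d) (h := h) (a := -(A : ℤ)) (b := 0) (e := e) (by omega) hdn hh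
  have hs0 : (s : ℂ) ≠ 0 := by
    rw [Ne, Complex.ofReal_eq_zero]
    linarith
  have hroot : (cx (wp n d h (-(A : ℤ)) 0 e)).eval (s : ℂ) = 0 := by
    obtain ⟨Q, hQ, _⟩ := hdom
    rw [hQ, eval_mul, eval_sub, eval_X, eval_C, sub_self, zero_mul]
  have hinv := wp_inv hdn he (Or.inl rfl) hs0 hroot
  have hrec : ∀ k, 0 < k → ps (wp n d h (-(A : ℤ)) 0 e) k = (A : ℂ) * qk (ps (wp n d h (-(A : ℤ)) 0 e)) k d +
      (e : ℂ) * (A : ℂ) * qk (ps (wp n d h (-(A : ℤ)) 0 e)) k (n - d) -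
      (e : ℂ) * qk (ps (wp n d h (-(A : ℤ)) 0 e)) k n := by
    intro k hk
    have h1 := ps_rec (n := n) (d := d) (h := h) (a := -(A : ℤ)) (b := 0) (e := e) (by omega) hdn he hh
      (Or.inl rfl) hk
    push_cast at h1
    linear_combination h1
  obtain ⟨h1, h2⟩ := pow_zero hrec hd hdn hc
  have hA' : (2 : ℝ) ≤ (A : ℝ) := by exact_mod_cast hA
  have hn0 : (0 : ℝ) ≤ (n : ℝ) := Nat.cast_nonneg n
  refine ⟨?_, ?_⟩
  · have h3 := ps_le hmon hs hdom hinv n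
    have h4 : ‖ps (wp n d h (-(A : ℤ)) 0 e) n‖ = (n : ℝ) * ((A : ℝ) ^ 2 - 1) := by
      have h5 : ps (wp n d h (-(A : ℤ)) 0 e) n = (((e : ℝ) * ((n : ℝ) * ((A : ℝ) ^ 2 - 1)) : ℝ) : ℂ) := by
        rw [h2]
        push_cast
        ring
      have h6 : 0 ≤ (n : ℝ) * ((A : ℝ) ^ 2 - 1) := mul_nonneg hn0 (by nlinarith)
      have h7 : |(e : ℝ)| = 1 := by
        rcases he with he | he
        · rw [he, Int.cast_one, abs_one]
        · rw [he, Int.cast_neg, Int.cast_one, abs_neg, abs_one]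
      rw [h5, Complex.norm_real, Real.norm_eq_abs, abs_mul, h7, one_mul, abs_of_nonneg h6]
    rw [h4, hdeg] at h3
    linarith
  · intro j hj hj4
    have h3 := ps_le hmon hs hdom hinv (j * d)
    have h4 : ‖ps (wp n d h (-(A : ℤ)) 0 e) (j * d)‖ = (d : ℝ) * (A : ℝ) ^ j := by
      rw [h1 j hj hj4, norm_mul, norm_pow, Complex.norm_natCast, Complex.norm_natCast]
    have h5 : s ^ (j * d) = (s ^ d) ^ j := by rw [mul_comm, pow_mul]
    have h6 : (s⁻¹) ^ (j * d) = ((s ^ d)⁻¹) ^ j := by rw [mul_comm, pow_mul, inv_pow]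
    rw [h4, hdeg, h5, h6] at h3
    exact h3

end SalemLen
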