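import Pool.Agent.Lib.MP_9599cf_ntF.WDef

/-! # The power sums: five terms -/

set_option autoImplicit false

namespace SalemLen

theorem WPowB_lt {p : ℕ → ℂ} {k i : ℕ} (h : i < k) : qk p k i = p (k - i) := if_pos h

theorem WPowB_eq {p : ℕ → ℂ} {k : ℕ} : qk p k k = (k : ℂ) := by simp [qk]

theorem WPowB_gt {p : ℕ → ℂ} {k i : ℕ} (h : k < i) : qk p k i = 0 := by
  rw [qk, if_neg (by omega), if_neg (by omega)]

theorem WPowB_aux {p : ℕ → ℂ} {h d : ℕ} {A b : ℂ}
    (hrec : ∀ k, 0 < k → p k = A * qk p k d - b * qk p k h + A * qk p k (2 * h - d) - qk p k (2 * h))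
    (hd : 3 ≤ d) (hdh : d < h) (hc : Nat.Coprime d h) (k : ℕ) :
    (∀ r : ℕ, 1 ≤ r → r < d → (d : ℤ) ∣ (k : ℤ) - r * h → 0 < k →
      (k : ℤ) < r * h - ((r / 2 : ℕ) : ℤ) * d → p k = 0) ∧
    (d ∣ k → 0 < k → 2 * (k : ℤ) + d ^ 2 < 2 * d * h → p k = d * A ^ (k / d)) := by
  have hcop : IsCoprime (d : ℤ) (h : ℤ) := Nat.isCoprime_iff_coprime.2 hc
  have nd : ∀ s : ℤ, (d : ℤ) ∣ s * h → (d : ℤ) ∣ s := fun s hs => hcop.dvd_of_dvd_mul_right hs
  have nz : ∀ s : ℤ, 0 < s → s < d → ¬ (d : ℤ) ∣ s * h := fun s h1 h2 h3 => by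
    have := Int.le_of_dvd h1 (nd s h3)
    omega
  have hd0 : (0 : ℤ) < d := by omega
  have hh0 : (0 : ℤ) < h := by omega
  induction k using Nat.strong_induction_on with
  | _ k IH =>
  refine ⟨fun r r1 r2 hk k0 hlt => ?_, fun hk k0 hlt => ?_⟩
  · rw [hrec k k0]
    have t1 : qk p k d = 0 := by
      rcases lt_trichotomy d k with h1 | h1 | h1
      · rw [WPowB_lt h1]
        have e : ((k - d : ℕ) : ℤ) = (k : ℤ) - d := by push_cast [h1.le]; ring
        refine (IH (k - d) (by omega)).1 r r1 r2 ?_ (by omega) ?_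
        · rw [e]
          have : (k : ℤ) - d - r * h = ((k : ℤ) - r * h) - d := by ring
          rw [this]
          exact dvd_sub hk (dvd_refl _)
        · rw [e]; linarith
      · exfalso
        refine nz r (by omega) (by omega) ?_
        have : (r : ℤ) * h = (k : ℤ) - ((k : ℤ) - r * h) := by ring
        rw [this]
        exact dvd_sub (by rw [h1]) hk
      · exact WPowB_gt h1
    have t2 : qk p k h = 0 := by
      by_cases hr : r = 1
      · subst hr
        refine WPowB_gt ?_
        have : (k : ℤ) < h := by simpa using hlt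
        omega
      · have hr1 : ((r / 2 : ℕ) : ℤ) * d ≥ (((r - 1) / 2 : ℕ) : ℤ) * d := by
          refine mul_le_mul_of_nonneg_right ?_ hd0.le
          have : (r - 1) / 2 ≤ r / 2 := by omega
          exact_mod_cast this
        have hr2 : ((r - 1 : ℕ) : ℤ) = (r : ℤ) - 1 := by push_cast [r1]; ring
        rcases lt_trichotomy h k with h1 | h1 | h1
        · rw [WPowB_lt h1]
          have e : ((k - h : ℕ) : ℤ) = (k : ℤ) - h := by push_cast [h1.le]; ring
          refine (IH (k - h) (by omega)).1 (r - 1) (by omega) (by omega) ?_ (by omega) ?_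
          · rw [e, hr2]
            have : (k : ℤ) - h - ((r : ℤ) - 1) * h = (k : ℤ) - r * h := by ring
            rw [this]
            exact hk
          · rw [e, hr2]; linarith
        · exfalso
          refine nz ((r : ℤ) - 1) (by omega) (by omega) ?_
          have : ((r : ℤ) - 1) * h = -((k : ℤ) - r * h) := by rw [← h1]; ring
          rw [this]
          exact (dvd_neg).2 hk
        · exact WPowB_gt h1
    have hs : ((2 * h - d : ℕ) : ℤ) = 2 * h - d := by push_cast [show d ≤ 2 * h by omega]; ring
    have hk2 : r < 3 → k < 2 * h - d := by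
      intro hr
      have : r = 1 ∨ r = 2 := by omega
      rcases this with hr | hr
      · subst hr
        have : (k : ℤ) < h := by simpa using hlt
        omega
      · subst hr
        have : (k : ℤ) < 2 * h - d := by simpa using hlt
        omega
    have hr3 : 3 ≤ r → ((r / 2 : ℕ) : ℤ) * d = (((r - 2) / 2 : ℕ) : ℤ) * d + d := by
      intro hr
      have : ((r / 2 : ℕ) : ℤ) = (((r - 2) / 2 : ℕ) : ℤ) + 1 := by
        have : r / 2 = (r - 2) / 2 + 1 := by omega
        exact_mod_cast this
      rw [this]; ring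
    have hr4 : 3 ≤ r → ((r - 2 : ℕ) : ℤ) = (r : ℤ) - 2 := fun hr => by
      push_cast [show 2 ≤ r by omega]; ring
    have t3 : qk p k (2 * h - d) = 0 := by
      by_cases hr : r < 3
      · exact WPowB_gt (hk2 hr)
      · push Not at hr
        rcases lt_trichotomy (2 * h - d) k with h1 | h1 | h1
        · rw [WPowB_lt h1]
          have e : ((k - (2 * h - d) : ℕ) : ℤ) = (k : ℤ) - (2 * h - d) := by
            rw [Nat.cast_sub h1.le, hs]
          refine (IH (k - (2 * h - d)) (by omega)).1 (r - 2) (by omega) (by omega) ?_ (by omega) ?_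
          · rw [e, hr4 hr]
            have : (k : ℤ) - (2 * h - d) - ((r : ℤ) - 2) * h = ((k : ℤ) - r * h) + d := by ring
            rw [this]
            exact dvd_add hk (dvd_refl _)
          · rw [e, hr4 hr]
            have := hr3 hr
            linarith
        · exfalso
          refine nz ((r : ℤ) - 2) (by omega) (by omega) ?_
          have h1' : (k : ℤ) = 2 * h - d := by rw [← hs, h1]
          have : ((r : ℤ) - 2) * h = -(((k : ℤ) - r * h) + d) := by rw [h1']; ring
          rw [this]
          exact (dvd_neg).2 (dvd_add hk (dvd_refl _))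
        · exact WPowB_gt h1
    have t4 : qk p k (2 * h) = 0 := by
      by_cases hr : r < 3
      · exact WPowB_gt (by have := hk2 hr; omega)
      · push Not at hr
        rcases lt_trichotomy (2 * h) k with h1 | h1 | h1
        · rw [WPowB_lt h1]
          have e : ((k - (2 * h) : ℕ) : ℤ) = (k : ℤ) - 2 * h := by
            rw [Nat.cast_sub h1.le]; push_cast; ring
          refine (IH (k - 2 * h) (by omega)).1 (r - 2) (by omega) (by omega) ?_ (by omega) ?_
          · rw [e, hr4 hr]
            have : (k : ℤ) - 2 * h - ((r : ℤ) - 2) * h = ((k : ℤ) - r * h) := by ring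
            rw [this]
            exact hk
          · rw [e, hr4 hr]
            have := hr3 hr
            linarith
        · exfalso
          refine nz ((r : ℤ) - 2) (by omega) (by omega) ?_
          have h1' : (k : ℤ) = 2 * h := by rw [← h1]; push_cast; ring
          have : ((r : ℤ) - 2) * h = -((k : ℤ) - r * h) := by rw [h1']; ring
          rw [this]
          exact (dvd_neg).2 hk
        · exact WPowB_gt h1
    rw [t1, t2, t3, t4]
    ring
  · rw [hrec k k0]
    have hkz : (d : ℤ) ∣ (k : ℤ) := by exact_mod_cast hk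
    have hdk : d ≤ k := Nat.le_of_dvd k0 hk
    have t1 : A * qk p k d = d * A ^ (k / d) := by
      rcases hdk.lt_or_eq with h1 | h1
      · rw [WPowB_lt h1]
        have e : ((k - d : ℕ) : ℤ) = (k : ℤ) - d := by push_cast [h1.le]; ring
        rw [(IH (k - d) (by omega)).2 (Nat.dvd_sub hk (dvd_refl _)) (by omega)
          (by rw [e]; linarith)]
        have : k / d = (k - d) / d + 1 := by
          rw [Nat.div_eq_sub_div (by omega) hdk]
        rw [this, pow_succ]
        ring
      · rw [← h1, WPowB_eq, Nat.div_self (by omega)]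
        ring
    have hs : ((2 * h - d : ℕ) : ℤ) = 2 * h - d := by push_cast [show d ≤ 2 * h by omega]; ring
    have q1 : ((d - 1 : ℕ) : ℤ) = (d : ℤ) - 1 := by push_cast [show 1 ≤ d by omega]; ring
    have q2 : ((d - 2 : ℕ) : ℤ) = (d : ℤ) - 2 := by push_cast [show 2 ≤ d by omega]; ring
    have m1 : 2 * ((((d - 1) / 2 : ℕ) : ℤ) * d) ≤ d ^ 2 := by
      have : 2 * (((d - 1) / 2 : ℕ) : ℤ) ≤ d := by omega
      nlinarith
    have m2 : 2 * ((((d - 2) / 2 : ℕ) : ℤ) * d) ≤ d ^ 2 - 2 * d := by
      have : 2 * (((d - 2) / 2 : ℕ) : ℤ) ≤ d - 2 := by omega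
      nlinarith
    have t2 : qk p k h = 0 := by
      rcases lt_trichotomy h k with h1 | h1 | h1
      · rw [WPowB_lt h1]
        have e : ((k - h : ℕ) : ℤ) = (k : ℤ) - h := by push_cast [h1.le]; ring
        refine (IH (k - h) (by omega)).1 (d - 1) (by omega) (by omega) ?_ (by omega) ?_
        · rw [e, q1]
          have : (k : ℤ) - h - ((d : ℤ) - 1) * h = (k : ℤ) - d * h := by ring
          rw [this]
          exact dvd_sub hkz (dvd_mul_right _ _)
        · rw [e, q1]; linarith
      · exfalso
        refine nz 1 (by omega) (by omega) ?_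
        rw [one_mul, h1]
        exact hkz
      · exact WPowB_gt h1
    have t3 : qk p k (2 * h - d) = 0 := by
      rcases lt_trichotomy (2 * h - d) k with h1 | h1 | h1
      · rw [WPowB_lt h1]
        have e : ((k - (2 * h - d) : ℕ) : ℤ) = (k : ℤ) - (2 * h - d) := by
          rw [Nat.cast_sub h1.le, hs]
        refine (IH (k - (2 * h - d)) (by omega)).1 (d - 2) (by omega) (by omega) ?_ (by omega) ?_
        · rw [e, q2]
          have : (k : ℤ) - (2 * h - d) - ((d : ℤ) - 2) * h = (k : ℤ) + d * (1 - h) := by ring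
          rw [this]
          exact dvd_add hkz (dvd_mul_right _ _)
        · rw [e, q2]; linarith
      · exfalso
        refine nz 2 (by omega) (by omega) ?_
        have h1' : (k : ℤ) = 2 * h - d := by rw [← hs, h1]
        have : (2 : ℤ) * h = (k : ℤ) + d := by rw [h1']; ring
        rw [this]
        exact dvd_add hkz (dvd_refl _)
      · exact WPowB_gt h1
    have t4 : qk p k (2 * h) = 0 := by
      rcases lt_trichotomy (2 * h) k with h1 | h1 | h1
      · rw [WPowB_lt h1]
        have e : ((k - (2 * h) : ℕ) : ℤ) = (k : ℤ) - 2 * h := by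
          rw [Nat.cast_sub h1.le]; push_cast; ring
        refine (IH (k - 2 * h) (by omega)).1 (d - 2) (by omega) (by omega) ?_ (by omega) ?_
        · rw [e, q2]
          have : (k : ℤ) - 2 * h - ((d : ℤ) - 2) * h = (k : ℤ) - d * h := by ring
          rw [this]
          exact dvd_sub hkz (dvd_mul_right _ _)
        · rw [e, q2]; linarith
      · exfalso
        refine nz 2 (by omega) (by omega) ?_
        have h1' : (k : ℤ) = 2 * h := by rw [← h1]; push_cast; ring
        rw [← h1']
        exact hkz
      · exact WPowB_gt h1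
    rw [t1, t2, t3, t4]
    ring

/-- PROOF. For `r ≥ 0` let `μ r = r h - (r / 2) d` (integer part). Strong induction on `k` of: (1) for `1 ≤ r < d`,
`k ≡ r h` mod `d`, `0 < k < μ r`: `p k = 0`; (2) for `d ∣ k`, `0 < k`, `2 k < 2 d h - d ^ 2`: `p k = d * A ^ (k / d)`. In the
recurrence for (1): `k - d` is in the same case (or negative; never zero); `k - h` has `r - 1`, and
`μ r - h ≤ μ (r - 1)`; it does not occur for `r = 1` (`k < h`); `k - (2 h - d)` and `k - 2 h` have `r - 2`, and
`μ r - (2 h - d) = μ (r - 2)` for `r ≥ 2`; they do not occur for `r ≤ 2` (`k < 2 h - d`). None of the differences is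
zero in these cases. For (2): `k - h` has `r = d - 1` and `k - h < d h - d ^ 2 / 2 - h ≤ μ (d - 1)`; `k - (2 h - d)`, `k - 2 h` have
`r = d - 2 ≥ 1` and are less than `μ (d - 2)`. The first claim is (2) (`2 j ≤ h`, `d < h`). For the second:
`p d = d A`, `p h = - h b` (`p (h - d) = 0`), `p (2 h - d) = A * p (2 h - 2 d) - b * p (h - d) + (2 h - d) A = (2 h - d) A`
(`2 h - 2 d` has `r = 2 < d`, `2 h - 2 d < μ 2`), `p (2 h) = A * p (2 h - d) - b * p h + A * p d - 2 h`. -/
theorem pow_five {p : ℕ → ℂ} {h d : ℕ} {A b : ℂ}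
    (hrec : ∀ k, 0 < k → p k = A * qk p k d - b * qk p k h + A * qk p k (2 * h - d) - qk p k (2 * h))
    (hd : 3 ≤ d) (hdh : d < h) (hc : Nat.Coprime d h) :
    (∀ j : ℕ, 0 < j → 2 * j ≤ h → p (j * d) = d * A ^ j) ∧
      p (2 * h) = 2 * h * (A ^ 2 - 1) + h * b ^ 2 := by
  have h1 : ∀ j : ℕ, 0 < j → 2 * j ≤ h → p (j * d) = d * A ^ j := by
    intro j j0 jh
    have := (WPowB_aux hrec hd hdh hc (j * d)).2 (Dvd.intro_left j rfl)
      (Nat.mul_pos j0 (by omega)) (by
        push_cast
        have a1 : (2 * (j : ℤ)) ≤ h := by exact_mod_cast jh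
        have a2 : (d : ℤ) + 1 ≤ h := by exact_mod_cast hdh
        have a3 : (3 : ℤ) ≤ d := by exact_mod_cast hd
        nlinarith)
    rw [this, Nat.mul_div_cancel _ (by omega)]
  refine ⟨h1, ?_⟩
  have e1 : p d = d * A := by
    have := h1 1 one_pos (by omega)
    simpa using this
  have z1 : p (h - d) = 0 := by
    have e : ((h - d : ℕ) : ℤ) = (h : ℤ) - d := by push_cast [hdh.le]; ring
    refine (WPowB_aux hrec hd hdh hc (h - d)).1 1 le_rfl (by omega) ?_ (by omega) ?_
    · rw [e]
      have : (h : ℤ) - d - ((1 : ℕ) : ℤ) * h = -d := by push_cast; ring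
      rw [this]
      exact (dvd_neg).2 (dvd_refl _)
    · rw [e]
      norm_num
      omega
  have z2 : p (2 * h - d - d) = 0 := by
    have e : ((2 * h - d - d : ℕ) : ℤ) = 2 * (h : ℤ) - 2 * d := by omega
    refine (WPowB_aux hrec hd hdh hc (2 * h - d - d)).1 2 (by omega) (by omega) ?_ (by omega) ?_
    · rw [e]
      have : 2 * (h : ℤ) - 2 * d - ((2 : ℕ) : ℤ) * h = d * (-2) := by push_cast; ring
      rw [this]
      exact dvd_mul_right _ _
    · rw [e]
      norm_num
      omega
  have e2 : p h = - (b * h) := by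
    rw [hrec h (by omega), WPowB_lt hdh, z1, WPowB_eq, WPowB_gt (show h < 2 * h - d by omega),
      WPowB_gt (show h < 2 * h by omega)]
    ring
  have e3 : p (2 * h - d) = A * (2 * h - d) := by
    rw [hrec (2 * h - d) (by omega), WPowB_lt (show d < 2 * h - d by omega), z2,
      WPowB_lt (show h < 2 * h - d by omega), show 2 * h - d - h = h - d by omega, z1, WPowB_eq,
      WPowB_gt (show 2 * h - d < 2 * h by omega)]
    have : ((2 * h - d : ℕ) : ℂ) = 2 * h - d := by push_cast [show d ≤ 2 * h by omega]; ring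
    rw [this]
    ring
  rw [hrec (2 * h) (by omega), WPowB_lt (show d < 2 * h by omega), e3,
    WPowB_lt (show h < 2 * h by omega), show 2 * h - h = h by omega, e2,
    WPowB_lt (show 2 * h - d < 2 * h by omega), show 2 * h - (2 * h - d) = d by omega, e1,
    WPowB_eq]
  push_cast
  ring

end SalemLen
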