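import Pool.Agent.Lib.MP_9599cf_ntF.WRec
import Pool.Agent.Lib.MP_9599cf_ntF.WPowB
import Pool.Agent.Lib.MP_9599cf_ntF.WBnd
import Pool.Agent.Lib.MP_9599cf_ntF.WInv

/-! # The inequalities, five terms -/

set_option autoImplicit false

namespace SalemLen

open Polynomial

/-- PROOF. `p = ps (wp ..)` satisfies the hypothesis of `pow_five` (`ps_rec` with `a = -A`, `e = 1`, `n = 2 h`). `ps_le` (with
`wp_inv` for the root `s`, `wp_monic` for the degree) for `k = 2 h` (`p (2 h) = 2 h (A ^ 2 - 1) + h b ^ 2`) and `k = j d`. -/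
theorem ineq_five {d h A : ℕ} {b : ℤ} {s : ℝ} (hd : 3 ≤ d) (hdh : d < h) (hA : 2 ≤ A)
    (hc : Nat.Coprime d h) (hs : 1 < s) (hdom : Dom (wp (2 * h) d h (-(A : ℤ)) b 1) s) :
    ((2 * h : ℕ) : ℝ) * ((A : ℝ) ^ 2 - 2 + (b : ℝ) ^ 2 / 2) + 2 ≤ s ^ (2 * h) + (s⁻¹) ^ (2 * h) ∧
      ∀ j : ℕ, 0 < j → 4 * j ≤ 2 * h →
        (d : ℝ) * (A : ℝ) ^ j ≤ ((2 * h : ℕ) : ℝ) - 2 + (s ^ d) ^ j + ((s ^ d)⁻¹) ^ j := by
  have hd0 : 0 < d := by omega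
  have hdn : 2 * d < 2 * h := by omega
  have hh : h < 2 * h := by omega
  obtain ⟨hmon, hdeg⟩ := wp_monic (n := 2 * h) (d := d) (h := h) (a := -(A : ℤ)) (b := b) (e := 1) hd0 hdn hh
  have hs0 : (s : ℂ) ≠ 0 := by
    rw [Ne, Complex.ofReal_eq_zero]
    linarith
  have hroot : (cx (wp (2 * h) d h (-(A : ℤ)) b 1)).eval (s : ℂ) = 0 := by
    obtain ⟨Q, hQ, _⟩ := hdom
    rw [hQ, eval_mul, eval_sub, eval_X, eval_C, sub_self, zero_mul]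
  have hinv := wp_inv hdn (Or.inl rfl) (Or.inr ⟨rfl, rfl⟩) hs0 hroot
  have hrec : ∀ k, 0 < k → ps (wp (2 * h) d h (-(A : ℤ)) b 1) k =
      (A : ℂ) * qk (ps (wp (2 * h) d h (-(A : ℤ)) b 1)) k d -
      (b : ℂ) * qk (ps (wp (2 * h) d h (-(A : ℤ)) b 1)) k h +
      (A : ℂ) * qk (ps (wp (2 * h) d h (-(A : ℤ)) b 1)) k (2 * h - d) -
      qk (ps (wp (2 * h) d h (-(A : ℤ)) b 1)) k (2 * h) := by
    intro k hk
    have h1 := ps_rec (n := 2 * h) (d := d) (h := h) (a := -(A : ℤ)) (b := b) (e := 1) hd0 hdn (Or.inl rfl) hh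
      (Or.inr ⟨rfl, rfl⟩) hk
    push_cast at h1
    linear_combination h1
  obtain ⟨h1, h2⟩ := pow_five hrec hd hdh hc
  have hA' : (2 : ℝ) ≤ (A : ℝ) := by exact_mod_cast hA
  have hn0 : (0 : ℝ) ≤ (h : ℝ) := Nat.cast_nonneg h
  refine ⟨?_, ?_⟩
  · have h3 := ps_le hmon hs hdom hinv (2 * h)
    have h4 : ‖ps (wp (2 * h) d h (-(A : ℤ)) b 1) (2 * h)‖ =
        2 * (h : ℝ) * ((A : ℝ) ^ 2 - 1) + h * (b : ℝ) ^ 2 := by
      have h5 : ps (wp (2 * h) d h (-(A : ℤ)) b 1) (2 * h) =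
          ((2 * (h : ℝ) * ((A : ℝ) ^ 2 - 1) + h * (b : ℝ) ^ 2 : ℝ) : ℂ) := by
        rw [h2]
        push_cast
        ring
      have h6 : 0 ≤ 2 * (h : ℝ) * ((A : ℝ) ^ 2 - 1) + h * (b : ℝ) ^ 2 := by
        have h7 : 0 ≤ 2 * (h : ℝ) * ((A : ℝ) ^ 2 - 1) := mul_nonneg (by linarith) (by nlinarith)
        have h8 : 0 ≤ (h : ℝ) * (b : ℝ) ^ 2 := mul_nonneg hn0 (sq_nonneg _)
        linarith
      rw [h5, Complex.norm_real, Real.norm_eq_abs, abs_of_nonneg h6]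
    rw [h4, hdeg] at h3
    push_cast at h3 ⊢
    linarith
  · intro j hj hj4
    have h3 := ps_le hmon hs hdom hinv (j * d)
    have h4 : ‖ps (wp (2 * h) d h (-(A : ℤ)) b 1) (j * d)‖ = (d : ℝ) * (A : ℝ) ^ j := by
      rw [h1 j hj (by omega), norm_mul, norm_pow, Complex.norm_natCast, Complex.norm_natCast]
    have h5 : s ^ (j * d) = (s ^ d) ^ j := by rw [mul_comm, pow_mul]
    have h6 : (s⁻¹) ^ (j * d) = ((s ^ d)⁻¹) ^ j := by rw [mul_comm, pow_mul, inv_pow]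
    rw [h4, hdeg, h5, h6] at h3
    exact h3

end SalemLen
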