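import Pool.Agent.Lib.MP_9599cf_ntF.VLarge

/-! # The case `a = -1`, `b ≤ -2` -/

set_option autoImplicit false

namespace SalemLen

open Polynomial

private theorem wLargeB_eval {N m k l : ℕ} (b : ℝ) (hN : 0 < N) (h : k * m = N * l + 1 ∨ k * m + 1 = N * l) :
    ∃ σ : ℝ, (σ = 1 ∨ σ = -1) ∧
      ∀ s : ℝ, (cp N - cp m + C b).eval (2 * Real.cos ((2 * Real.pi * k + s) / N)) =
        2 * Real.cos s - 2 * Real.cos ((m / N : ℝ) * (σ * s) + 2 * Real.pi / N) + b := by
  have hN' : (N : ℝ) ≠ 0 := by exact_mod_cast hN.ne'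
  have h0 : ∀ s : ℝ, (cp N - cp m + C b).eval (2 * Real.cos ((2 * Real.pi * k + s) / N)) =
      2 * Real.cos s - 2 * Real.cos (m * ((2 * Real.pi * k + s) / N)) + b := by
    intro s
    have e1 : (N : ℝ) * ((2 * Real.pi * k + s) / N) = s + k * (2 * Real.pi) := by
      field_simp
      ring
    rw [eval_add, eval_sub, cp_cos, cp_cos, eval_C, e1, Real.cos_add_nat_mul_two_pi]
  rcases h with h | h
  · refine ⟨1, Or.inl rfl, fun s => ?_⟩
    have hr : (k : ℝ) * m = N * l + 1 := by exact_mod_cast h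
    have e2 : (m : ℝ) * ((2 * Real.pi * k + s) / N) =
        ((m / N : ℝ) * (1 * s) + 2 * Real.pi / N) + l * (2 * Real.pi) := by
      field_simp
      linear_combination (2 * Real.pi) * hr
    rw [h0, e2, Real.cos_add_nat_mul_two_pi]
  · refine ⟨-1, Or.inr rfl, fun s => ?_⟩
    have hr : (k : ℝ) * m + 1 = N * l := by exact_mod_cast h
    have e2 : (m : ℝ) * ((2 * Real.pi * k + s) / N) =
        -((m / N : ℝ) * (-1 * s) + 2 * Real.pi / N) + l * (2 * Real.pi) := by
      field_simp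
      linear_combination (2 * Real.pi) * hr
    rw [h0, e2, Real.cos_add_nat_mul_two_pi, Real.cos_neg]

/-- PROOF. The proof of `not_large` (file `VLarge`) with `b` in place of `-1`: `g θ = 2 cos (N θ) - 2 cos (m θ) + b`,
`g ≤ 4 sin (π / N) + b < 0` on `[θ1, θ3]`, as `sin (π / N) < 1 / 2` for `N ≥ 7`; `|g θ2| = |b| - (2 - 2 cos ε) < |b|`
(`0 < ε < π`), `|g θ1| = 2 + 2 cos (m θ1) + |b| ≥ |b|`, the same for `θ3`: contradiction to `min_le_abs`. -/
theorem not_large_b {N m : ℕ} {b : ℝ} (hN : 7 ≤ N) (hm : 0 < m) (hmN : m < N) (hc : Nat.Coprime m N)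
    (hb : b ≤ -2) {U : Multiset ℝ} (hU : cp N - cp m + C b = (U.map fun a => X - C a).prod) : False := by
  obtain ⟨k, l, hk1, hkN, hres⟩ := exists_residue (N := N) (m := m) (by omega) hm hc
  obtain ⟨σ, hσ, hev⟩ := wLargeB_eval b (N := N) (m := m) (k := k) (l := l) (by omega) hres
  have hpi := Real.pi_pos
  have hpi2 : Real.pi < 3.15 := Real.pi_lt_d2
  have hN13 : (7 : ℝ) ≤ N := by exact_mod_cast hN
  have hNpos : (0 : ℝ) < N := by linarith
  have hk1' : (1 : ℝ) ≤ k := by exact_mod_cast hk1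
  have hkN' : 2 * (k : ℝ) + 1 ≤ N := by exact_mod_cast hkN
  have hm' : (0 : ℝ) ≤ m := Nat.cast_nonneg m
  have hκ0 : (0 : ℝ) ≤ m / N := div_nonneg hm' hNpos.le
  have hκ1 : (m : ℝ) / N ≤ 1 := by
    rw [div_le_one hNpos]
    exact_mod_cast hmN.le
  have hε0 : 0 < 2 * Real.pi / N := by positivity
  have hε1 : 2 * Real.pi / N ≤ Real.pi := by
    rw [div_le_iff₀ hNpos]
    nlinarith
  have hsin : Real.sin (2 * Real.pi / N / 2) < 1 / 2 := by
    have h1 : Real.sin (2 * Real.pi / N / 2) ≤ 2 * Real.pi / N / 2 := Real.sin_le (by positivity)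
    have h2 : 2 * Real.pi / N / 2 < 1 / 2 := by
      have h3 : 2 * Real.pi / N / 2 = Real.pi / N := by
        field_simp
      rw [h3, div_lt_iff₀ hNpos]
      linarith
    linarith
  -- the polynomial is negative
  have hneg : ∀ s : ℝ, |s| ≤ Real.pi →
      (cp N - cp m + C b).eval (2 * Real.cos ((2 * Real.pi * k + s) / N)) < 0 := by
    intro s hs
    rw [hev s]
    have h1 : |σ * s| ≤ Real.pi := by
      rcases hσ with h | h
      · rw [h, one_mul]; exact hs
      · rw [h, neg_one_mul, abs_neg]; exact hs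
    have h2 : Real.cos (σ * s) = Real.cos s := by
      rcases hσ with h | h
      · rw [h, one_mul]
      · rw [h, neg_one_mul, Real.cos_neg]
    have h3 := cos_sub_cos_le hκ0 hκ1 hε0.le hε1 h1
    rw [h2] at h3
    linarith
  -- the three points
  have hθ1 : 0 ≤ (2 * Real.pi * k + -Real.pi) / N := div_nonneg (by nlinarith) hNpos.le
  have hθ12 : (2 * Real.pi * k + -Real.pi) / N ≤ (2 * Real.pi * k + 0) / N :=
    div_le_div_of_nonneg_right (by linarith) hNpos.le
  have hθ23 : (2 * Real.pi * k + 0) / N ≤ (2 * Real.pi * k + Real.pi) / N :=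
    div_le_div_of_nonneg_right (by linarith) hNpos.le
  have hθ3 : (2 * Real.pi * k + Real.pi) / N ≤ Real.pi := by
    rw [div_le_iff₀ hNpos]
    nlinarith
  have hu12 : 2 * Real.cos ((2 * Real.pi * k + 0) / N) ≤ 2 * Real.cos ((2 * Real.pi * k + -Real.pi) / N) := by
    have h1 := Real.cos_le_cos_of_nonneg_of_le_pi hθ1 (hθ23.trans hθ3) hθ12
    linarith
  have hu23 : 2 * Real.cos ((2 * Real.pi * k + Real.pi) / N) ≤ 2 * Real.cos ((2 * Real.pi * k + 0) / N) := by
    have h1 := Real.cos_le_cos_of_nonneg_of_le_pi (hθ1.trans hθ12) hθ3 hθ23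
    linarith
  have hne : ∀ u ∈ Set.Icc (2 * Real.cos ((2 * Real.pi * k + Real.pi) / N))
      (2 * Real.cos ((2 * Real.pi * k + -Real.pi) / N)),
      ((U.map fun a => X - C a).prod).eval u ≠ 0 := by
    intro u hu
    rw [← hU]
    have hc1 := Real.neg_one_le_cos ((2 * Real.pi * k + Real.pi) / N)
    have hc2 := Real.cos_le_one ((2 * Real.pi * k + -Real.pi) / N)
    have h1 : Real.cos (Real.arccos (u / 2)) = u / 2 :=
      Real.cos_arccos (by linarith [hu.1]) (by linarith [hu.2])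
    have h2 : Real.arccos (u / 2) ≤ (2 * Real.pi * k + Real.pi) / N := by
      rw [← Real.arccos_cos (hθ1.trans (hθ12.trans hθ23)) hθ3]
      exact Real.antitone_arccos (by linarith [hu.1])
    have h3 : (2 * Real.pi * k + -Real.pi) / N ≤ Real.arccos (u / 2) := by
      rw [← Real.arccos_cos hθ1 (hθ12.trans (hθ23.trans hθ3))]
      exact Real.antitone_arccos (by linarith [hu.2])
    have h4 := hneg (N * Real.arccos (u / 2) - 2 * Real.pi * k) (by
      rw [le_div_iff₀ hNpos] at h2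
      rw [div_le_iff₀ hNpos] at h3
      rw [abs_le]
      constructor <;> linarith)
    have h5 : (2 * Real.pi * k + (N * Real.arccos (u / 2) - 2 * Real.pi * k)) / N =
        Real.arccos (u / 2) := by
      field_simp
      ring
    rw [h5, h1] at h4
    have h6 : 2 * (u / 2) = u := by ring
    rw [h6] at h4
    exact h4.ne
  have hmin := min_le_abs U hu23 hu12 hne
  rw [← hU] at hmin
  have hg3 := hev Real.pi
  have hg1 := hev (-Real.pi)
  have hg2 := hev 0
  have hn2 := hneg 0 (by rw [abs_zero]; exact hpi.le)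
  have hn1 := hneg (-Real.pi) (by rw [abs_neg, abs_of_pos hpi])
  have hn3 := hneg Real.pi (by rw [abs_of_pos hpi])
  rw [abs_of_neg hn1, abs_of_neg hn2, abs_of_neg hn3] at hmin
  rw [mul_zero, mul_zero, zero_add, Real.cos_zero] at hg2
  rw [Real.cos_pi] at hg3
  rw [Real.cos_neg, Real.cos_pi] at hg1
  have hcε : Real.cos (2 * Real.pi / N) < 1 := by
    have h1 := Real.cos_lt_cos_of_nonneg_of_le_pi (x := 0) (y := 2 * Real.pi / N) le_rfl hε1 hε0
    rwa [Real.cos_zero] at h1
  have hb3 := Real.neg_one_le_cos ((m / N : ℝ) * (σ * Real.pi) + 2 * Real.pi / N)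
  have hb1 := Real.neg_one_le_cos ((m / N : ℝ) * (σ * -Real.pi) + 2 * Real.pi / N)
  have h7 : -b ≤ min (-(cp N - cp m + C b).eval (2 * Real.cos ((2 * Real.pi * k + Real.pi) / N)))
      (-(cp N - cp m + C b).eval (2 * Real.cos ((2 * Real.pi * k + -Real.pi) / N))) := by
    refine le_min ?_ ?_
    · rw [hg3]; linarith
    · rw [hg1]; linarith
  have h8 := h7.trans hmin
  rw [hg2] at h8
  linarith

end SalemLen
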