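import Pool.Agent.Lib.MP_9599cf_ntF.WDef

/-! # The value at minus one -/

set_option autoImplicit false

namespace SalemLen

open Polynomial

/-- PROOF. `P` has even degree, so it is positive for large negative numbers; if `P (-1) < 0` it has a root `x < -1`, a root of
`Q` with `|x| > 1`, a contradiction. -/
theorem dom_neg_one {P : ℤ[X]} {s : ℝ} (hP : P.Monic) (hs : 1 < s) (hd : Dom P s)
    (he : Even P.natDegree) : 0 ≤ Polynomial.aeval (-1 : ℝ) P := by
  by_contra hneg
  push Not at hneg
  have hev : ∀ x : ℝ, (cx P).eval (x : ℂ) = ((Polynomial.aeval x P : ℝ) : ℂ) := by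
    intro x
    rw [cx, eval_map, ← algebraMap_int_eq, ← aeval_def]
    exact Polynomial.aeval_algebraMap_apply ℂ x P
  have hdeg : 0 < P.natDegree := by
    by_contra h0
    have h1 : P = 1 := hP.natDegree_eq_zero.1 (by omega)
    rw [h1, map_one] at hneg
    linarith
  obtain ⟨q, hq⟩ : ∃ q : ℝ[X], q = (P.map (Int.castRingHom ℝ)).comp (-X) := ⟨_, rfl⟩
  have hqe : ∀ x : ℝ, q.eval x = Polynomial.aeval (-x) P := by
    intro x
    rw [hq, eval_comp, eval_neg, eval_X, eval_map, ← algebraMap_int_eq, ← aeval_def]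
  have hPm : (P.map (Int.castRingHom ℝ)).Monic := hP.map _
  have hnd : (P.map (Int.castRingHom ℝ)).natDegree = P.natDegree := hP.natDegree_map _
  have hqd : q.natDegree = P.natDegree := by
    rw [hq, natDegree_comp, hnd, natDegree_neg, natDegree_X, mul_one]
  have hql : q.leadingCoeff = 1 := by
    rw [hq, leadingCoeff_comp (by rw [natDegree_neg, natDegree_X]; exact one_ne_zero), hPm, one_mul,
      leadingCoeff_neg, leadingCoeff_X, hnd, he.neg_one_pow]
  have hlim : Filter.Tendsto (fun x => q.eval x) Filter.atTop Filter.atTop := by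
    refine q.tendsto_atTop_of_leadingCoeff_nonneg ?_ (by rw [hql]; exact zero_le_one)
    rw [← natDegree_pos_iff_degree_pos, hqd]
    exact hdeg
  obtain ⟨x0, h1, h2⟩ := ((hlim.eventually (Filter.eventually_ge_atTop 0)).and
    (Filter.eventually_ge_atTop 1)).exists
  have hivt := intermediate_value_Icc h2 (f := fun x => q.eval x) q.continuous.continuousOn
  obtain ⟨y, ⟨hy1, _⟩, hy⟩ := hivt ⟨by
    change q.eval 1 ≤ 0
    rw [hqe]
    exact hneg.le, h1⟩
  have hy0 : q.eval y = 0 := hy
  have hy2 : 1 < y := by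
    refine lt_of_le_of_ne hy1 ?_
    rintro rfl
    rw [hqe] at hy0
    linarith
  obtain ⟨Q, hQ1, hQ2⟩ := hd
  have h3 : (cx P).eval ((-y : ℝ) : ℂ) = 0 := by
    rw [hev, ← hqe, hy0, Complex.ofReal_zero]
  rw [hQ1, eval_mul, eval_sub, eval_X, eval_C] at h3
  rcases mul_eq_zero.1 h3 with h4 | h4
  · rw [← Complex.ofReal_sub, Complex.ofReal_eq_zero] at h4
    linarith
  · have h5 := hQ2 _ h4
    rw [Complex.norm_real, Real.norm_eq_abs, abs_neg, abs_of_pos (by linarith)] at h5
    linarith

end SalemLen
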