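import Pool.Agent.Lib.MP_9599cf_ntF.WDef

/-! # Signs -/

set_option autoImplicit false

namespace SalemLen

open Polynomial

private lemma wSgn_ev (q : ℝ[X]) (x : ℝ) :
    (q.map (algebraMap ℝ ℂ)).eval ((algebraMap ℝ ℂ) x) = (algebraMap ℝ ℂ) (q.eval x) := by
  rw [eval_map, eval₂_at_apply]

private lemma wSgn_quot {P : ℤ[X]} {s : ℝ} (hP : P.Monic) (hd : Dom P s) :
    ∃ q : ℝ[X], (∀ x : ℝ, Polynomial.aeval x P = (x - s) * q.eval x) ∧
      (∀ x : ℝ, 1 ≤ x → 0 ≤ q.eval x) ∧ (∀ x : ℝ, 1 < x → 0 < q.eval x) := by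
  obtain ⟨Q, hQ, hz⟩ := hd
  set p : ℝ[X] := P.map (Int.castRingHom ℝ) with hp
  have hpm : p.Monic := hP.map _
  have hpe : ∀ x : ℝ, p.eval x = Polynomial.aeval x P := by
    intro x
    rw [hp, eval_map, aeval_def]
    rfl
  have hpc : p.map (algebraMap ℝ ℂ) = cx P := by
    rw [hp, Polynomial.map_map, cx]
    congr 1
  have hps : p.eval s = 0 := by
    have h1 : (p.map (algebraMap ℝ ℂ)).eval ((s : ℝ) : ℂ) = 0 := by
      rw [hpc, hQ]; simp
    have h2 : (p.map (algebraMap ℝ ℂ)).eval ((algebraMap ℝ ℂ) s) = (algebraMap ℝ ℂ) (p.eval s) :=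
      wSgn_ev p s
    rw [show ((s : ℝ) : ℂ) = (algebraMap ℝ ℂ) s from rfl, h2] at h1
    exact (algebraMap ℝ ℂ).injective (by rw [h1, map_zero])
  obtain ⟨q, hq⟩ := dvd_iff_isRoot.2 hps
  have hqm : q.Monic := by
    have h3 := hpm
    rw [hq] at h3
    exact (monic_X_sub_C s).of_mul_monic_left h3
  have hqc : q.map (algebraMap ℝ ℂ) = Q := by
    have h4 : (X - C (s : ℂ)) * q.map (algebraMap ℝ ℂ) = (X - C (s : ℂ)) * Q := by
      rw [← hQ, ← hpc, hq]
      simp
    exact mul_left_cancel₀ (X_sub_C_ne_zero _) h4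
  have hroot : ∀ x : ℝ, q.eval x = 0 → |x| ≤ 1 := by
    intro x hx
    have h5 : Q.eval (x : ℂ) = 0 := by
      rw [← hqc]
      have h6 : (q.map (algebraMap ℝ ℂ)).eval ((algebraMap ℝ ℂ) x) = (algebraMap ℝ ℂ) (q.eval x) :=
        wSgn_ev q x
      rw [hx, map_zero] at h6
      exact h6
    have h7 := hz _ h5
    rwa [Complex.norm_real, Real.norm_eq_abs] at h7
  have hnn : ∀ x : ℝ, 1 ≤ x → 0 ≤ q.eval x := by
    intro x hx
    by_contra hneg
    rw [not_le] at hneg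
    rcases Nat.eq_zero_or_pos q.natDegree with h0 | h0
    · have h8 : q = 1 := hqm.natDegree_eq_zero.1 h0
      rw [h8, eval_one] at hneg
      linarith
    · have h9 : 0 < q.degree := natDegree_pos_iff_degree_pos.1 h0
      have h10 := q.tendsto_atTop_of_leadingCoeff_nonneg h9 (by rw [hqm.leadingCoeff]; norm_num)
      obtain ⟨y, hy1, hy2⟩ := ((h10.eventually_gt_atTop 0).and
        (Filter.eventually_gt_atTop x)).exists
      obtain ⟨z, hz1, hz2⟩ := intermediate_value_Icc hy2.le q.continuous.continuousOn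
        (⟨hneg.le, hy1.le⟩ : (0:ℝ) ∈ Set.Icc (q.eval x) (q.eval y))
      have h11 := hroot z hz2
      have h12 := le_abs_self z
      have h13 : z = x := by linarith [hz1.1]
      rw [h13] at hz2
      linarith
  refine ⟨q, ?_, hnn, ?_⟩
  · intro x
    rw [← hpe, hq, eval_mul, eval_sub, eval_X, eval_C]
  · intro x hx
    refine lt_of_le_of_ne (hnn x hx.le) fun h => ?_
    have h14 := hroot x h.symm
    have h15 := le_abs_self x
    linarith

/-- PROOF. A real root `x ≠ s` of `P` is a root of `Q` (`cx P = (X - s) * Q`), so `|x| ≤ 1`. `P` is positive for large real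
numbers; if `P y ≤ 0` for some `y > s` there is a root `≥ y > s > 1` (intermediate value theorem), a contradiction. -/
theorem dom_pos {P : ℤ[X]} {s : ℝ} (hP : P.Monic) (hs : 1 < s) (hd : Dom P s) {x : ℝ} (hx : s < x) :
    0 < Polynomial.aeval x P := by
  obtain ⟨q, h1, h2, h3⟩ := wSgn_quot hP hd
  rw [h1]
  exact mul_pos (sub_pos.2 hx) (h3 x (hs.trans hx))

/-- PROOF. `P = (X - s) * Q` with a real polynomial `Q` (divide over `ℝ`), `Q` monic without real roots `> 1`, so `Q > 0` on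
`(1, ∞)` and `Q 1 ≥ 0`. -/
theorem dom_nonpos {P : ℤ[X]} {s : ℝ} (hP : P.Monic) (hs : 1 < s) (hd : Dom P s) {x : ℝ} (hx : 1 ≤ x)
    (hxs : x ≤ s) : Polynomial.aeval x P ≤ 0 := by
  obtain ⟨q, h1, h2, h3⟩ := wSgn_quot hP hd
  rw [h1]
  exact mul_nonpos_of_nonpos_of_nonneg (sub_nonpos.2 hxs) (h2 x hx)

end SalemLen
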