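import Pool.Agent.Lib.MP_9599cf_ntF.WDef

/-! # The shape -/

set_option autoImplicit false

namespace SalemLen

open Polynomial

private theorem WShape_sym {P : ℤ[X]} {s : ℤ} (h : P.reverse = C s * P) {i : ℕ}
    (hi : i ≤ P.natDegree) : P.coeff (P.natDegree - i) = s * P.coeff i := by
  have h1 := congrArg (fun Q => Polynomial.coeff Q i) h
  simp only [coeff_reverse, revAt_le hi, coeff_C_mul] at h1
  exact h1

/-- PROOF. Let `n = P.natDegree`, `P.coeff (n - i) = ε * P.coeff i` with `ε = ± 1` (`P.reverse = ε P`). So the support is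
symmetric under `i ↦ n - i` and contains `0`, `n`; `P.coeff 0 = ε`. With four elements: there is `0 < d` with
`2 d < n` in it or the two middle elements coincide, which is impossible (a fixed point `n / 2` would make the
number odd), so the support is `{0, d, n - d, n}` and `P = wp n d 0 a 0 ε` (with `b = 0`). With five elements: a
fixed point `n = 2 h`, so `ε = 1` (otherwise `P.coeff h = - P.coeff h`), and the support is `{0, d, h, n - d, n}`. -/
theorem shape_wp {P : ℤ[X]} (hP : P.Monic) (h0 : P.coeff 0 ≠ 0) (hc : P.support.card ≤ 5)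
    (hc4 : 4 ≤ P.support.card) (hrev : P.reverse = P ∨ P.reverse = -P) :
    ∃ (n d h : ℕ) (a b e : ℤ), 0 < d ∧ 2 * d < n ∧ h < n ∧ a ≠ 0 ∧ (e = 1 ∨ e = -1) ∧
      (b = 0 ∨ (e = 1 ∧ n = 2 * h)) ∧ P = wp n d h a b e := by
  classical
  obtain ⟨s, hs1, hs⟩ : ∃ s : ℤ, (s = 1 ∨ s = -1) ∧ P.reverse = C s * P := by
    rcases hrev with h | h
    · exact ⟨1, Or.inl rfl, by rw [h, map_one, one_mul]⟩
    · exact ⟨-1, Or.inr rfl, by rw [h, map_neg, map_one, neg_one_mul]⟩
  have hs0 : s ≠ 0 := by omega
  obtain ⟨n, hn⟩ : ∃ n, P.natDegree = n := ⟨_, rfl⟩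
  have hsym : ∀ i, i ≤ n → P.coeff (n - i) = s * P.coeff i := fun i hi => by
    rw [← hn]
    exact WShape_sym hs (by rw [hn]; exact hi)
  have hlead : P.coeff n = 1 := by
    rw [← hn]
    exact hP
  have hdeg : ∀ j, n < j → P.coeff j = 0 := fun j hj =>
    coeff_eq_zero_of_natDegree_lt (by rw [hn]; exact hj)
  have hmem : ∀ i, i ∈ P.support → i ≤ n := fun i hi => by
    by_contra hc'
    exact mem_support_iff.1 hi (hdeg i (by omega))
  -- the two halves
  set A := P.support.filter (fun i => 2 * i < n) with hA
  set M := P.support.filter (fun i => 2 * i = n) with hM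
  set D := P.support.filter (fun i => n < 2 * i) with hD
  have hAD : A.card = D.card := by
    refine Finset.card_bij (fun i _ => n - i) (fun i hi => ?_) (fun i hi j hj hij => ?_)
      (fun j hj => ?_)
    · rw [hA, Finset.mem_filter] at hi
      rw [hD, Finset.mem_filter]
      refine ⟨mem_support_iff.2 ?_, by omega⟩
      rw [hsym i (hmem i hi.1)]
      exact mul_ne_zero hs0 (mem_support_iff.1 hi.1)
    · rw [hA, Finset.mem_filter] at hi hj
      have h1 := hmem i hi.1
      have h2 := hmem j hj.1
      omega
    · rw [hD, Finset.mem_filter] at hj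
      have h1 := hmem j hj.1
      refine ⟨n - j, ?_, by omega⟩
      rw [hA, Finset.mem_filter]
      refine ⟨mem_support_iff.2 ?_, by omega⟩
      rw [hsym j h1]
      exact mul_ne_zero hs0 (mem_support_iff.1 hj.1)
  have hsum : A.card + (M.card + D.card) = P.support.card := by
    have h1 := Finset.card_filter_add_card_filter_not (s := P.support) (fun i => 2 * i < n)
    have h2 := Finset.card_filter_add_card_filter_not
      (s := P.support.filter (fun i => ¬ 2 * i < n)) (fun i => 2 * i = n)
    have e1 : (P.support.filter (fun i => ¬ 2 * i < n)).filter (fun i => 2 * i = n) = M := by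
      rw [hM]
      ext i
      simp only [Finset.mem_filter]
      constructor
      · rintro ⟨⟨q1, q2⟩, q3⟩
        exact ⟨q1, q3⟩
      · rintro ⟨q1, q2⟩
        exact ⟨⟨q1, by omega⟩, q2⟩
    have e2 : (P.support.filter (fun i => ¬ 2 * i < n)).filter (fun i => ¬ 2 * i = n) = D := by
      rw [hD]
      ext i
      simp only [Finset.mem_filter]
      constructor
      · rintro ⟨⟨q1, q2⟩, q3⟩
        exact ⟨q1, by omega⟩
      · rintro ⟨q1, q2⟩
        exact ⟨⟨q1, by omega⟩, by omega⟩
    rw [e1, e2] at h2
    rw [← hA] at h1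
    omega
  have hM1 : M.card ≤ 1 := by
    refine Finset.card_le_one.2 fun i hi j hj => ?_
    rw [hM, Finset.mem_filter] at hi hj
    omega
  have hAc : A.card = 2 := by omega
  have hn0 : 0 < n := by
    by_contra hc'
    have h1 : A = ∅ := by
      rw [hA]
      ext i
      simp only [Finset.mem_filter, Finset.notMem_empty, iff_false]
      rintro ⟨_, q2⟩
      omega
    rw [h1] at hAc
    exact absurd hAc (by norm_num)
  obtain ⟨h, b, hhn, hb, hmid1, hmid2⟩ : ∃ (h : ℕ) (b : ℤ), h < n ∧ (b = 0 ∨ (s = 1 ∧ n = 2 * h)) ∧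
      (∀ j, 2 * j = n → P.coeff j = b * (if j = h then 1 else 0)) ∧
      (∀ j, 2 * j ≠ n → b * (if j = h then 1 else 0) = 0) := by
    rcases Finset.eq_empty_or_nonempty M with hE | ⟨N, hNM⟩
    · refine ⟨0, 0, hn0, Or.inl rfl, fun j hj => ?_, fun j _ => zero_mul _⟩
      rw [zero_mul]
      by_contra hcj
      have h1 : j ∈ M := by
        rw [hM, Finset.mem_filter]
        exact ⟨mem_support_iff.2 hcj, hj⟩
      rw [hE] at h1
      exact Finset.notMem_empty j h1
    · rw [hM, Finset.mem_filter] at hNM
      obtain ⟨hNs, hNn⟩ := hNM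
      have hNc := mem_support_iff.1 hNs
      have hs2 : s = 1 := by
        have h1 := hsym N (by omega)
        have h2 : n - N = N := by omega
        rw [h2] at h1
        have h3 : (s - 1) * P.coeff N = 0 := by linear_combination -h1
        rcases mul_eq_zero.1 h3 with h4 | h4
        · omega
        · exact absurd h4 hNc
      refine ⟨N, P.coeff N, by omega, Or.inr ⟨hs2, hNn.symm⟩, fun j hj => ?_, fun j hj => ?_⟩
      · have h5 : j = N := by omega
        rw [h5, if_pos rfl, mul_one]
      · rw [if_neg (by omega), mul_zero]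
  have h0A : 0 ∈ A := by
    rw [hA, Finset.mem_filter]
    exact ⟨mem_support_iff.2 h0, by omega⟩
  have hEc : (A.erase 0).card = 1 := by rw [Finset.card_erase_of_mem h0A, hAc]
  obtain ⟨i, hi⟩ := Finset.card_eq_one.1 hEc
  have hiE : i ∈ A.erase 0 := by rw [hi]; exact Finset.mem_singleton_self i
  rw [Finset.mem_erase, hA, Finset.mem_filter] at hiE
  obtain ⟨hi0, his, hin⟩ := hiE
  have hic := mem_support_iff.1 his
  have hlow : ∀ j, 2 * j < n → j ≠ 0 → j ≠ i → P.coeff j = 0 := fun j h1 h2 h3 => by
    by_contra hc'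
    have h4 : j ∈ A.erase 0 := by
      rw [Finset.mem_erase, hA, Finset.mem_filter]
      exact ⟨h2, mem_support_iff.2 hc', h1⟩
    rw [hi, Finset.mem_singleton] at h4
    exact h3 h4
  have hc0 : P.coeff 0 = s := by
    have := hsym n le_rfl
    rw [Nat.sub_self, hlead, mul_one] at this
    exact this
  have hci : P.coeff (n - i) = s * P.coeff i := hsym i (by omega)
  have hss : s * s = 1 := by
    rcases hs1 with h | h
    · rw [h]; norm_num
    · rw [h]; norm_num
  have hci' : P.coeff i = s * P.coeff (n - i) := by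
    rw [hci, ← mul_assoc, hss, one_mul]
  refine ⟨n, i, h, P.coeff (n - i), b, s, by omega, hin, hhn, ?_, hs1, hb, ?_⟩
  · rw [hci]
    exact mul_ne_zero hs0 hic
  ext j
  simp only [wp, coeff_add, coeff_C_mul, coeff_X_pow, coeff_C]
  rcases lt_trichotomy (2 * j) n with h1 | h1 | h1
  · rw [hmid2 j (by omega)]
    by_cases h2 : j = 0
    · rw [h2, if_neg (by omega), if_neg (by omega), if_neg (by omega), if_pos rfl, hc0]
      ring
    · by_cases h3 : j = i
      · rw [h3, if_neg (by omega), if_neg (by omega), if_pos rfl, if_neg (by omega), hci']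
        ring
      · rw [hlow j h1 h2 h3, if_neg (by omega), if_neg (by omega), if_neg h3, if_neg h2]
        ring
  · rw [hmid1 j h1, if_neg (by omega : ¬ j = n), if_neg (by omega : ¬ j = n - i),
      if_neg (by omega : ¬ j = i), if_neg (by omega : ¬ j = 0)]
    ring
  · rw [hmid2 j (by omega)]
    by_cases h2 : n < j
    · rw [hdeg j h2, if_neg (by omega), if_neg (by omega), if_neg (by omega), if_neg (by omega)]
      ring
    · by_cases h5 : j = n
      · rw [h5, hlead, if_pos rfl, if_neg (by omega), if_neg (by omega), if_neg (by omega)]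
        ring
      · by_cases h6 : j = n - i
        · rw [h6, if_neg (by omega), if_pos rfl, if_neg (by omega), if_neg (by omega)]
          ring
        · have h3 := hsym (n - j) (by omega)
          have h4 : n - (n - j) = j := by omega
          rw [h4, hlow (n - j) (by omega) (by omega) (by omega), mul_zero] at h3
          rw [h3, if_neg h5, if_neg h6, if_neg (by omega), if_neg (by omega)]
          ring

end SalemLen
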