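import Pool.Agent.Lib.MP_9599cf_ntF.VDef
import Pool.Agent.Lib.MP_9599cf_ntA.QRoot

/-! # An upper bound for Lehmer's number -/

set_option autoImplicit false

namespace SalemLen

open Polynomial

private theorem wtau_root : ∃ x : ℝ, 1 < x ∧ x < 11763 / 10000 ∧
    x ^ 10 + x ^ 9 - x ^ 7 - x ^ 6 - x ^ 5 - x ^ 4 - x ^ 3 + x + 1 = 0 := by
  have hcont : ContinuousOn (fun x : ℝ => x ^ 10 + x ^ 9 - x ^ 7 - x ^ 6 - x ^ 5 - x ^ 4 - x ^ 3 + x + 1)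
      (Set.Icc (1 : ℝ) (11763 / 10000)) := by
    fun_prop
  have h := intermediate_value_Ioo (by norm_num : (1 : ℝ) ≤ 11763 / 10000) hcont
  have h0 : (0 : ℝ) ∈ Set.Ioo ((fun x : ℝ => x ^ 10 + x ^ 9 - x ^ 7 - x ^ 6 - x ^ 5 - x ^ 4 - x ^ 3 + x + 1) 1)
      ((fun x : ℝ => x ^ 10 + x ^ 9 - x ^ 7 - x ^ 6 - x ^ 5 - x ^ 4 - x ^ 3 + x + 1) (11763 / 10000)) := by
    refine ⟨?_, ?_⟩ <;> norm_num
  obtain ⟨x, hx, hx0⟩ := h h0
  exact ⟨x, hx.1, hx.2, hx0⟩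

/-- PROOF. `lehmer 1 = -1 < 0` and `lehmer 1.1763 > 0` (`norm_num`), so there is a root `x` with `1 < x < 1.1763`, and `x = t` by
`Dom` (`Dom.eq_of_root` or directly). -/
theorem lehmer_lt {t : ℝ} (h1 : 1 < t) (hd : Dom lehmer t) : t < 11763 / 10000 := by
  obtain ⟨x, hx1, hx2, hx0⟩ := wtau_root
  obtain ⟨Q, hQ, hQ1⟩ := hd
  have he : (cx lehmer).eval (x : ℂ) = 0 := by
    have h2 : (cx lehmer).eval (x : ℂ) =
        (x : ℂ) ^ 10 + (x : ℂ) ^ 9 - (x : ℂ) ^ 7 - (x : ℂ) ^ 6 - (x : ℂ) ^ 5 - (x : ℂ) ^ 4 -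
          (x : ℂ) ^ 3 + (x : ℂ) + 1 := by
      simp [cx, lehmer]
    rw [h2]
    have h4 : ((x ^ 10 + x ^ 9 - x ^ 7 - x ^ 6 - x ^ 5 - x ^ 4 - x ^ 3 + x + 1 : ℝ) : ℂ) =
        ((0 : ℝ) : ℂ) := congrArg _ hx0
    push_cast at h4
    exact h4
  rw [hQ, eval_mul, eval_sub, eval_X, eval_C, mul_eq_zero] at he
  rcases he with he | he
  · have h3 : (x : ℂ) = (t : ℂ) := sub_eq_zero.1 he
    have h4 : x = t := by exact_mod_cast h3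
    rw [← h4]
    exact hx2
  · have h3 := hQ1 _ he
    rw [Complex.norm_real, Real.norm_of_nonneg (by linarith)] at h3
    exact absurd hx1 (not_lt.2 h3)

end SalemLen
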