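import Pool.Agent.Lib.MP_9599cf_ntF.WDef
import Pool.Agent.Lib.MP_9599cf_ntL.Factor

/-! # The case of positive `a` -/

set_option autoImplicit false

namespace SalemLen

open Polynomial

/-- PROOF. `s` is a root: `s ^ n + a s ^ (n - d) + b s ^ h + e a s ^ d + e = 0`. If `e = -1` (`b = 0`) it is
`(s ^ n - 1) + a (s ^ (n - d) - s ^ d) > 0`. If `e = 1` and `b ≥ 0` it is positive. If `e = 1`, `b < 0`, `n = 2 h` and
`b ≥ -2 - 2 a` it is `(s ^ h - 1) ^ 2 + a s ^ d (s ^ (h - d) - 1) ^ 2 + (2 + 2 a + b) s ^ h > 0`. If `b < -2 - 2 a`: by `hss` there is a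
root `z` of the minimal polynomial of `s` with `‖z‖ = 1`; it is a root of `wp ..` (`exists_factor` or `minpoly.dvd`), but
`‖b z ^ h‖ = |b| > 2 + 2 a ≥ ‖z ^ n + a z ^ (n - d) + a z ^ d + 1‖`. -/
theorem case_pos {n d h : ℕ} {a b e : ℤ} {s : ℝ} (hd : 0 < d) (hdn : 2 * d < n) (ha : 1 ≤ a)
    (he : e = 1 ∨ e = -1) (hb : b = 0 ∨ (e = 1 ∧ n = 2 * h)) (hss : IsSalem s)
    (hdom : Dom (wp n d h a b e) s) : False := by
  have hs1 : 1 < s := hss.2.1
  have hs0 : 0 < s := by linarith
  have ha' : (1 : ℝ) ≤ (a : ℝ) := by exact_mod_cast ha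
  have hroot : (cx (wp n d h a b e)).eval (s : ℂ) = 0 := by
    obtain ⟨Q, hQ, -⟩ := hdom
    rw [hQ, eval_mul, eval_sub, eval_X, eval_C, sub_self, zero_mul]
  have hreal : s ^ n + a * s ^ (n - d) + b * s ^ h + e * a * s ^ d + e = 0 := by
    rw [wp_eval] at hroot
    exact_mod_cast hroot
  have hpd : s ^ d < s ^ (n - d) := pow_lt_pow_right₀ hs1 (by omega)
  have hpn : 1 < s ^ n := one_lt_pow₀ hs1 (by omega)
  have hpd0 : 0 < s ^ d := pow_pos hs0 d
  have hph0 : 0 < s ^ h := pow_pos hs0 h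
  have hpnd0 : 0 < s ^ (n - d) := pow_pos hs0 (n - d)
  rcases hb with hb | ⟨he1, hn⟩
  · rw [hb] at hreal
    rcases he with he | he
    · rw [he] at hreal
      push_cast at hreal
      have h1 : 0 < (a : ℝ) * s ^ (n - d) := mul_pos (by linarith) hpnd0
      have h2 : 0 < (a : ℝ) * s ^ d := mul_pos (by linarith) hpd0
      linarith
    · rw [he] at hreal
      push_cast at hreal
      have h1 : 0 < (a : ℝ) * (s ^ (n - d) - s ^ d) := mul_pos (by linarith) (by linarith)
      linarith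
  · rw [he1] at hreal
    push_cast at hreal
    by_cases hb2 : -2 - 2 * a ≤ b
    · have hb2' : (-2 : ℝ) - 2 * (a : ℝ) ≤ (b : ℝ) := by exact_mod_cast hb2
      have hdh : d < h := by omega
      have e1 : s ^ n = s ^ h * s ^ h := by rw [hn, two_mul, pow_add]
      have e2 : s ^ h = s ^ d * s ^ (h - d) := by rw [← pow_add]; congr 1; omega
      have e3 : s ^ (n - d) = s ^ d * (s ^ (h - d) * s ^ (h - d)) := by
        rw [← pow_add, ← pow_add]
        congr 1
        omega
      have h1 : 1 < s ^ h := one_lt_pow₀ hs1 (by omega)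
      have h2 : 0 < (s ^ h - 1) ^ 2 := pow_pos (by linarith) 2
      have h3 : 0 ≤ (a : ℝ) * s ^ d * (s ^ (h - d) - 1) ^ 2 :=
        mul_nonneg (mul_nonneg (by linarith) hpd0.le) (sq_nonneg _)
      have h4 : 0 ≤ (2 + 2 * (a : ℝ) + b) * s ^ h := mul_nonneg (by linarith) hph0.le
      have h5 : s ^ n + a * s ^ (n - d) + b * s ^ h + 1 * a * s ^ d + 1 =
          (s ^ h - 1) ^ 2 + (a : ℝ) * s ^ d * (s ^ (h - d) - 1) ^ 2 + (2 + 2 * (a : ℝ) + b) * s ^ h := by
        rw [e1, e3, e2]
        ring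
      rw [h5] at hreal
      linarith
    · have hb3 : b < -2 - 2 * a := lt_of_not_ge hb2
      have hb3' : (b : ℝ) < -2 - 2 * (a : ℝ) := by exact_mod_cast hb3
      obtain ⟨z, hz, hz1⟩ := hss.2.2.2
      have hdvd : minpoly ℚ s ∣ (wp n d h a b e).map (algebraMap ℤ ℚ) := by
        apply minpoly.dvd
        rw [aeval_map_algebraMap, wp_aeval, he1]
        push_cast
        exact hreal
      have hz2 : (cx (wp n d h a b e)).eval z = 0 := by
        obtain ⟨M, hM⟩ := hdvd
        have h1 : aeval z ((wp n d h a b e).map (algebraMap ℤ ℚ)) = 0 := by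
          rw [hM, map_mul, hz, zero_mul]
        rw [aeval_map_algebraMap] at h1
        rw [cx, eval_map]
        exact h1
      rw [wp_eval, he1] at hz2
      push_cast at hz2
      have h1 : (b : ℂ) * z ^ h = -(z ^ n + a * z ^ (n - d) + 1 * a * z ^ d + 1) := by linear_combination hz2
      have h2 : ‖(b : ℂ) * z ^ h‖ = -(b : ℝ) := by
        rw [norm_mul, norm_pow, hz1, one_pow, mul_one, Complex.norm_intCast, abs_of_neg (by linarith)]
      have h3 : ‖z ^ n + a * z ^ (n - d) + 1 * a * z ^ d + 1‖ ≤ 1 + (a : ℝ) + (a : ℝ) + 1 := by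
        have q1 : ‖z ^ n‖ = 1 := by rw [norm_pow, hz1, one_pow]
        have q2 : ‖(a : ℂ) * z ^ (n - d)‖ = (a : ℝ) := by
          rw [norm_mul, norm_pow, hz1, one_pow, mul_one, Complex.norm_intCast, abs_of_pos (by linarith)]
        have q3 : ‖1 * (a : ℂ) * z ^ d‖ = (a : ℝ) := by
          rw [one_mul, norm_mul, norm_pow, hz1, one_pow, mul_one, Complex.norm_intCast,
            abs_of_pos (by linarith)]
        refine (norm_add_le _ _).trans ?_
        rw [norm_one]
        refine add_le_add ((norm_add_le _ _).trans ?_) le_rfl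
        rw [q3]
        refine add_le_add ((norm_add_le _ _).trans ?_) le_rfl
        rw [q1, q2]
      rw [h1, norm_neg] at h2
      linarith

end SalemLen
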