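import Mathlib

/-! # Elementary cases -/

set_option autoImplicit false

namespace SalemLen

/-- PROOF. If `e = 1` the left side is `(s ^ (n - d) - 1) (s ^ d - 1) + b s ^ h > 0`, if `e = -1` (`b = 0`) it is
`(s ^ (n - d) + 1) (s ^ d - 1) > 0`. -/
theorem case_one {n d h : ℕ} {b e s : ℝ} (hd : 0 < d) (hdn : 2 * d < n) (he : e = 1 ∨ (e = -1 ∧ b = 0))
    (hb : 0 ≤ b) (hs : 1 < s) :
    s ^ n + (-1) * s ^ (n - d) + b * s ^ h + e * (-1) * s ^ d + e ≠ 0 := by
  have hs0 : 0 < s := by linarith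
  have e1 : s ^ n = s ^ (n - d) * s ^ d := by
    rw [← pow_add]
    congr 1
    omega
  have h1 : 1 < s ^ (n - d) := one_lt_pow₀ hs (by omega)
  have h2 : 1 < s ^ d := one_lt_pow₀ hs (by omega)
  rcases he with rfl | ⟨rfl, rfl⟩
  · have h3 : 0 ≤ b * s ^ h := mul_nonneg hb (pow_pos hs0 h).le
    have h4 : 0 < (s ^ (n - d) - 1) * (s ^ d - 1) := mul_pos (by linarith) (by linarith)
    have h5 : s ^ n + (-1) * s ^ (n - d) + b * s ^ h + 1 * (-1) * s ^ d + 1 =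
        (s ^ (n - d) - 1) * (s ^ d - 1) + b * s ^ h := by
      rw [e1]
      ring
    rw [h5]
    linarith
  · have h4 : 0 < (s ^ (n - d) + 1) * (s ^ d - 1) := mul_pos (by linarith) (by linarith)
    have h5 : s ^ n + (-1) * s ^ (n - d) + 0 * s ^ h + (-1) * (-1) * s ^ d + (-1) =
        (s ^ (n - d) + 1) * (s ^ d - 1) := by
      rw [e1]
      ring
    rw [h5]
    exact h4.ne'

/-- Between 2 and 3. -/
theorem WcB_int {s : ℝ} (hs : 1 < s) (hr : s ≤ 11763 / 10000) (k : ℤ)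
    (h : s ^ 2 + 1 = k * s) : False := by
  have hs0 : 0 < s := by linarith
  have h1 : (2 : ℝ) * s < k * s := by nlinarith
  have h2 : (k : ℝ) * s < 3 * s := by nlinarith
  have h3 : (2 : ℝ) < k := lt_of_mul_lt_mul_right h1 hs0.le
  have h4 : (k : ℝ) < 3 := lt_of_mul_lt_mul_right h2 hs0.le
  have h5 : (2 : ℤ) < k := by exact_mod_cast h3
  have h6 : k < (3 : ℤ) := by exact_mod_cast h4
  omega

/-- PROOF. With `r = 1.1763`. `n ≥ 5`: `r ^ n - 1 - A (r ^ (n - 1) - r) ≤ r ^ n - 1 - 2 (r ^ (n - 1) - r) =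
-(2 - r) r ^ (n - 1) + 2 r - 1 < 0` as `r ^ (n - 1) ≥ r ^ 4 > 1.9 > (2 r - 1) / (2 - r)`: contradiction to `hr0`. `n = 3`: the
equation is `(s - 1) (s ^ 2 + (1 - A) s + 1) = 0`, so `s + 1 / s = A - 1`, but `2 < s + 1 / s < 3`. `n = 4`:
`(s ^ 2 - 1) (s ^ 2 - A s + 1) = 0`, `s + 1 / s = A`. -/
theorem case_anti_one {n A : ℕ} {s : ℝ} (hn : 3 ≤ n) (hA : 2 ≤ A) (hs : 1 < s)
    (hr : s ≤ 11763 / 10000) (hroot : s ^ n - A * s ^ (n - 1) + A * s - 1 = 0)
    (hr0 : (0 : ℝ) ≤ (11763 / 10000) ^ n - A * (11763 / 10000) ^ (n - 1) + A * (11763 / 10000) - 1) :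
    False := by
  have hA' : (2 : ℝ) ≤ A := by exact_mod_cast hA
  by_cases h5 : 5 ≤ n
  · obtain ⟨m, rfl⟩ : ∃ m, n = m + 1 := ⟨n - 1, by omega⟩
    rw [Nat.add_sub_cancel, pow_succ] at hr0
    have h1 : (11763 / 10000 : ℝ) ^ 4 ≤ (11763 / 10000 : ℝ) ^ m :=
      pow_le_pow_right₀ (by norm_num) (by omega)
    obtain ⟨y, hy⟩ : ∃ y : ℝ, y = (11763 / 10000 : ℝ) ^ m := ⟨_, rfl⟩
    rw [← hy] at h1 hr0
    have h2 : (19 / 10 : ℝ) ≤ y := le_trans (by norm_num) h1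
    nlinarith [mul_nonneg (sub_nonneg.2 hA') (sub_nonneg.2 h2)]
  · have h34 : n = 3 ∨ n = 4 := by omega
    rcases h34 with rfl | rfl
    · refine WcB_int hs hr ((A : ℤ) - 1) ?_
      have h1 : (s - 1) * (s ^ 2 + 1 - ((A : ℝ) - 1) * s) = 0 := by
        norm_num at hroot
        linear_combination hroot
      rcases mul_eq_zero.1 h1 with h2 | h2
      · linarith
      · push_cast
        linarith
    · refine WcB_int hs hr (A : ℤ) ?_
      have h1 : (s ^ 2 - 1) * (s ^ 2 + 1 - (A : ℝ) * s) = 0 := by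
        norm_num at hroot
        linear_combination hroot
      rcases mul_eq_zero.1 h1 with h2 | h2
      · nlinarith
      · push_cast
        linarith

/-- PROOF. With `r = 1.1763`. `b ≤ 2 A - 2` (`h1`). (1) `b ≤ 2 A - 3`: with `y = r ^ (h - 1)` the value in `hr0` divided by `r ^ h` is
`-(A - r) y - (A - 1 / r) / y + b ≤ -2 √((A - r) (A - 1 / r)) + 2 A - 3 < 0`, since
`4 (A - r) (A - 1 / r) = 4 (A - 1) ^ 2 - 4 A (r + 1 / r - 2) > (2 A - 3) ^ 2` (`r + 1 / r - 2 < 0.027`); or use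
`(A - r) y + (A - 1 / r) / y ≥ A (y + 1 / y) - r y - 1 / (r y)` directly. (2) `b = 2 A - 2`, `h ≥ 4`: the value in `hr0` is
`(r ^ h - 1) ^ 2 - A r (r ^ (h - 1) - 1) ^ 2 ≤ (r ^ h - 1) ^ 2 - 2 r (r ^ (h - 1) - 1) ^ 2 < 0`, since
`r y - 1 < 1.533 (y - 1)` for `y = r ^ (h - 1) ≥ r ^ 3 > 1.62` and `1.533 ^ 2 < 2 r`. (3) `b = 2 A - 2`, `h = 2`: the equation is
`(s - 1) ^ 2 (s ^ 2 - (A - 2) s + 1) = 0`, so `s + 1 / s = A - 2`, but `2 < s + 1 / s < 2.03`. (4) `b = 2 A - 2`, `h = 3`: with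
`u = s + 1 / s` the equation divided by `s ^ 3` is `(u - 2) (u ^ 2 + (2 - A) u + 1 - 2 A) = 0`, so `A (u + 2) = (u + 1) ^ 2`; for
`2 < u < 2.03` `A = (u + 1) ^ 2 / (u + 2)` is between `2.25` and `2.3`, not an integer. -/
theorem case_d_one {h A : ℕ} {b : ℤ} {s : ℝ} (hh : 2 ≤ h) (hA : 2 ≤ A) (hb : 1 ≤ b) (hs : 1 < s)
    (hr : s ≤ 11763 / 10000)
    (hroot : s ^ (2 * h) - A * s ^ (2 * h - 1) + b * s ^ h - A * s + 1 = 0)
    (hr0 : (0 : ℝ) ≤ (11763 / 10000) ^ (2 * h) - A * (11763 / 10000) ^ (2 * h - 1) +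
      b * (11763 / 10000) ^ h - A * (11763 / 10000) + 1)
    (h1 : b ≤ 2 * A - 2) : False := by
  have hA' : (2 : ℝ) ≤ A := by exact_mod_cast hA
  have hs0 : 0 < s := by linarith
  -- the value at `r`
  have hr1 : ∃ y : ℝ, y = (11763 / 10000 : ℝ) ^ (h - 1) ∧
      (0 : ℝ) ≤ (11763 / 10000) ^ 2 * y ^ 2 - A * (11763 / 10000) * y ^ 2 +
        b * (11763 / 10000) * y - A * (11763 / 10000) + 1 := by
    refine ⟨_, rfl, ?_⟩
    obtain ⟨m, rfl⟩ : ∃ m, h = m + 1 := ⟨h - 1, by omega⟩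
    have e1 : 2 * (m + 1) - 1 = 2 * m + 1 := by omega
    rw [e1] at hr0
    rw [Nat.add_sub_cancel]
    refine hr0.trans (le_of_eq ?_)
    ring
  obtain ⟨y, hy, hV⟩ := hr1
  have hy0 : 0 < y := by
    rw [hy]
    positivity
  by_cases hb3 : b ≤ 2 * A - 3
  · have hb' : (b : ℝ) ≤ 2 * A - 3 := by exact_mod_cast hb3
    have k1 := mul_le_mul_of_nonneg_right hb' (mul_pos (by norm_num : (0 : ℝ) < 11763 / 10000) hy0).le
    have k2 := mul_nonneg (sub_nonneg.2 hA') (sq_nonneg (y - 1))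
    nlinarith [sq_nonneg (y - 1 / 2)]
  · have hb2 : b = 2 * A - 2 := by omega
    have hb' : (b : ℝ) = 2 * A - 2 := by rw [hb2]; push_cast; ring
    rw [hb'] at hV hroot
    by_cases h4 : 4 ≤ h
    · have hy3 : (11763 / 10000 : ℝ) ^ 3 ≤ y := by
        rw [hy]
        exact pow_le_pow_right₀ (by norm_num) (by omega)
      have hy4 : (16 / 10 : ℝ) ≤ y := le_trans (by norm_num) hy3
      have k1 : (11763 / 10000 : ℝ) * y - 1 ≤ 1533 / 1000 * (y - 1) := by linarith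
      have k2 : ((11763 / 10000 : ℝ) * y - 1) ^ 2 ≤ (1533 / 1000 * (y - 1)) ^ 2 :=
        pow_le_pow_left₀ (by linarith) k1 2
      have k3 := mul_nonneg (sub_nonneg.2 hA') (sq_nonneg (y - 1))
      have k4 : 0 < (y - 1) ^ 2 := by
        have : 0 < y - 1 := by linarith
        positivity
      nlinarith
    · have h23 : h = 2 ∨ h = 3 := by omega
      rcases h23 with rfl | rfl
      · refine WcB_int hs hr ((A : ℤ) - 2) ?_
        have h2 : (s - 1) ^ 2 * (s ^ 2 + 1 - ((A : ℝ) - 2) * s) = 0 := by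
          norm_num at hroot
          linear_combination hroot
        rcases mul_eq_zero.1 h2 with h3 | h3
        · have h4 : s - 1 = 0 := pow_eq_zero_iff (two_ne_zero) |>.1 h3
          linarith
        · push_cast
          linarith
      · have h2 : (s - 1) ^ 2 * ((s ^ 2 + s + 1) ^ 2 - (A : ℝ) * (s * (s + 1) ^ 2)) = 0 := by
          norm_num at hroot
          linear_combination hroot
        rcases mul_eq_zero.1 h2 with h3 | h3
        · have h4 : s - 1 = 0 := pow_eq_zero_iff (two_ne_zero) |>.1 h3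
          linarith
        · have hw : 0 < s * (s + 1) ^ 2 := by positivity
          have k0 : 1 < s ^ 2 := by nlinarith
          have k0' : s ^ 2 ≤ 2 := by nlinarith
          have k1 : 2 * (s * (s + 1) ^ 2) < (A : ℝ) * (s * (s + 1) ^ 2) := by
            nlinarith [mul_pos (sub_pos.2 k0) (sub_pos.2 k0)]
          have k2 : (A : ℝ) * (s * (s + 1) ^ 2) < 3 * (s * (s + 1) ^ 2) := by
            nlinarith [mul_nonneg (sub_nonneg.2 k0') (sq_nonneg s), mul_pos hs0 (pow_pos hs0 2)]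
          have k3 := lt_of_mul_lt_mul_right k1 hw.le
          have k4 := lt_of_mul_lt_mul_right k2 hw.le
          have k5 : 2 < A := by exact_mod_cast k3
          have k6 : A < 3 := by exact_mod_cast k4
          omega

end SalemLen
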