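import Pool.Agent.Lib.MP_9599cf_ntF.VEval
import Pool.Agent.Lib.MP_9599cf_ntF.WDef

/-! # Real zeros -/

set_option autoImplicit false

namespace SalemLen

open Polynomial

/-- PROOF. As `real_of_root` (file `VReal`): choose `z ≠ 0` with `z + z⁻¹ = u`; `z` and `z⁻¹` are roots of `P`, so each of them
is `s` or of absolute value at most one. -/
theorem real_of_root_gen {P : ℤ[X]} {q : ℝ[X]} {N : ℕ} {s : ℝ} (hs : 1 < s) (hd : Dom P s)
    (hq : ∀ z : ℂ, z ≠ 0 → z ^ N * Polynomial.aeval (z + z⁻¹) q = (cx P).eval z) {u : ℂ}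
    (hu : Polynomial.aeval u q = 0) : u.im = 0 := by
  obtain ⟨d, hd2⟩ := IsAlgClosed.exists_eq_mul_self (u ^ 2 - 4)
  set z : ℂ := (u + d) / 2 with hz
  have hz2 : z * z + 1 = u * z := by
    rw [hz]
    linear_combination (-1 / 4 : ℂ) * hd2
  have hz0 : z ≠ 0 := by
    intro h0
    rw [h0] at hz2
    simp at hz2
  have hzu : z + z⁻¹ = u := by
    have h1 : (z + z⁻¹) * z = u * z := by
      rw [← hz2, add_mul, inv_mul_cancel₀ hz0]
    exact mul_right_cancel₀ hz0 h1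
  have hzi : z⁻¹ ≠ 0 := inv_ne_zero hz0
  have hzu' : z⁻¹ + (z⁻¹)⁻¹ = u := by
    rw [inv_inv, add_comm]
    exact hzu
  have h1 : (cx P).eval z = 0 := by
    rw [← hq z hz0, hzu, hu, mul_zero]
  have h2 : (cx P).eval z⁻¹ = 0 := by
    rw [← hq _ hzi, hzu', hu, mul_zero]
  obtain ⟨Q, hQ, hQ1⟩ := hd
  have key : ∀ w : ℂ, (cx P).eval w = 0 → w = (s : ℂ) ∨ ‖w‖ ≤ 1 := by
    intro w hw
    rw [hQ, eval_mul, eval_sub, eval_X, eval_C] at hw
    rcases mul_eq_zero.1 hw with h | h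
    · exact Or.inl (sub_eq_zero.1 h)
    · exact Or.inr (hQ1 w h)
  rcases key z h1 with h3 | h3
  · rw [← hzu, h3, ← Complex.ofReal_inv, ← Complex.ofReal_add]
    exact Complex.ofReal_im _
  rcases key z⁻¹ h2 with h4 | h4
  · rw [← hzu', h4, ← Complex.ofReal_inv, ← Complex.ofReal_add]
    exact Complex.ofReal_im _
  have h5 : ‖z‖ = 1 := by
    refine le_antisymm h3 ?_
    rw [norm_inv] at h4
    have h6 : 0 < ‖z‖ := norm_pos_iff.2 hz0
    exact (inv_le_one₀ h6).1 h4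
  rw [← hzu, Complex.inv_eq_conj h5, Complex.add_im, Complex.conj_im]
  ring

/-- PROOF. From `cp_aeval`: `z ^ h * (z ^ h + z⁻¹ ^ h) = z ^ (2 h) + 1`, `z ^ h * (z ^ (h - d) + z⁻¹ ^ (h - d)) =
z ^ (2 h - d) + z ^ d`. -/
theorem wp_aeval_cp {h d : ℕ} {b : ℤ} (hdh : d < h) {z : ℂ} (hz : z ≠ 0) :
    z ^ h * Polynomial.aeval (z + z⁻¹) (cp h - cp (h - d) + C (b : ℝ)) =
      (cx (wp (2 * h) d h (-1) b 1)).eval z := by
  rw [wp_eval, map_add, map_sub, aeval_C, cp_aeval h hz, cp_aeval (h - d) hz]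
  have h1 : ∀ k : ℕ, z ^ k * z⁻¹ ^ k = 1 := fun k => by
    rw [← mul_pow, mul_inv_cancel₀ hz, one_pow]
  have h2 : z ^ h = z ^ d * z ^ (h - d) := by
    rw [← pow_add]
    congr 1
    omega
  have h3 : z ^ h * z⁻¹ ^ (h - d) = z ^ d := by
    rw [h2, mul_assoc, h1, mul_one]
  have h4 := h1 h
  have h5 : z ^ (2 * h) = z ^ h * z ^ h := by
    rw [two_mul, pow_add]
  have h6 : z ^ (2 * h - d) = z ^ h * z ^ (h - d) := by
    rw [← pow_add]
    congr 1
    omega
  have h7 : (algebraMap ℝ ℂ) (b : ℝ) = (b : ℂ) := by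
    simp
  rw [h5, h6, h7]
  push_cast
  linear_combination h4 - h3

private theorem WRealB_deg (n : ℕ) :
    (cp n).natDegree ≤ n ∧ (0 < n → (cp n).Monic ∧ (cp n).natDegree = n) := by
  induction n using Nat.twoStepInduction with
  | zero =>
    refine ⟨?_, fun h => absurd h (lt_irrefl _)⟩
    rw [show cp 0 = 2 from rfl, natDegree_ofNat]
  | one =>
    rw [show cp 1 = X from rfl]
    exact ⟨natDegree_X_le, fun _ => ⟨monic_X, natDegree_X⟩⟩
  | more n ih1 ih2 =>
    obtain ⟨h1, h2⟩ := ih2.2 (Nat.succ_pos n)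
    have h3 : (X * cp (n + 1)).natDegree = n + 2 := by
      rw [monic_X.natDegree_mul h1, natDegree_X, h2]
      ring
    have h4 : (X * cp (n + 1)).Monic := monic_X.mul h1
    have h5 : (cp n).natDegree < (X * cp (n + 1)).natDegree := by
      rw [h3]
      exact lt_of_le_of_lt ih1.1 (by omega)
    have h6 : (X * cp (n + 1) - cp n).natDegree = n + 2 := by
      rw [natDegree_sub_eq_left_of_natDegree_lt h5, h3]
    rw [show cp (n + 2) = X * cp (n + 1) - cp n from rfl]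
    exact ⟨h6.le, fun _ => ⟨h4.sub_of_left (degree_lt_degree h5), h6⟩⟩

/-- PROOF. As in `qp_monic` (file `VEval`). -/
theorem cpb_monic {N m : ℕ} (b : ℝ) (hm : 0 < m) (hN : m < N) : (cp N - cp m + C b).Monic := by
  obtain ⟨h1, h2⟩ := (WRealB_deg N).2 (by omega)
  have h3 : (cp m).natDegree < (cp N).natDegree := by
    rw [h2]
    exact lt_of_le_of_lt (WRealB_deg m).1 hN
  have h4 : (cp N - cp m).natDegree = N := by
    rw [natDegree_sub_eq_left_of_natDegree_lt h3, h2]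
  have h5 : (cp N - cp m).Monic := h1.sub_of_left (degree_lt_degree h3)
  have h6 : (C b : ℝ[X]).natDegree < (cp N - cp m).natDegree := by
    rw [h4, natDegree_C]
    omega
  exact h5.add_of_left (degree_lt_degree h6)

end SalemLen
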