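import Pool.Agent.Lib.MP_9599cf_ntF.VProd
import Pool.Agent.Lib.MP_9599cf_ntF.WLargeB
import Pool.Agent.Lib.MP_9599cf_ntF.WRealB
import Pool.Agent.Lib.MP_9599cf_ntF.WGcd

/-! # The case `a = -1`, `b ≤ -2` -/

set_option autoImplicit false

namespace SalemLen

open Polynomial

/-- PROOF. `m = h - d`. (1) `h ≥ 7`: the equation divided by `s ^ h` is `s ^ h + s⁻¹ ^ h = s ^ m + s⁻¹ ^ m - b ≥ 4`, but for `h ≤ 6`
`s ^ h + s⁻¹ ^ h ≤ r ^ h + r⁻¹ ^ h < 4` (`r = 1.1763`, `x + 1 / x` increasing for `x ≥ 1`). (2) `m`, `h` are coprime by `dom_gcd`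
(`g = gcd m h` divides `d`). (3) `cp h - cp m + b` is a product of real linear factors (`real_of_root_gen`, `wp_aeval_cp`,
`cpb_monic`, `exists_prod`). (4) `not_large_b`. -/
theorem case_one_neg {h d : ℕ} {b : ℤ} {s : ℝ} (hd : 0 < d) (hdh : d < h) (hb : b ≤ -2) (hs : 1 < s)
    (hr : s ≤ 11763 / 10000) (hdom : Dom (wp (2 * h) d h (-1) b 1) s) : False := by
  have hm : 0 < h - d := by omega
  have hmh : h - d < h := by omega
  have hbR : (b : ℝ) ≤ -2 := by exact_mod_cast hb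
  have hs0 : (0 : ℝ) < s := by linarith
  -- the root
  have hroot : s ^ (2 * h) - s ^ (2 * h - d) + b * s ^ h - s ^ d + 1 = 0 := by
    obtain ⟨Q, hQ, -⟩ := hdom
    have h1 : (cx (wp (2 * h) d h (-1) b 1)).eval (s : ℂ) = 0 := by
      rw [hQ, eval_mul]
      simp
    rw [wp_eval] at h1
    have h2 : (((s ^ (2 * h) - s ^ (2 * h - d) + b * s ^ h - s ^ d + 1 : ℝ)) : ℂ) = 0 := by
      push_cast
      push_cast at h1
      linear_combination h1
    exact_mod_cast h2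
  -- (1)
  have h7 : 7 ≤ h := by
    by_contra hc
    have h6 : h ≤ 6 := by omega
    have e1 : s ^ h = s ^ d * s ^ (h - d) := by
      rw [← pow_add]
      congr 1
      omega
    have e2 : s ^ (2 * h) = s ^ h * s ^ h := by rw [two_mul, pow_add]
    have e3 : s ^ (2 * h - d) = s ^ h * s ^ (h - d) := by
      rw [← pow_add]
      congr 1
      omega
    have hx : 0 < s ^ d := pow_pos hs0 d
    have hy1 : 1 ≤ s ^ h := one_le_pow₀ hs.le
    have hy2 : s ^ h ≤ (11763 / 10000 : ℝ) ^ 6 :=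
      (pow_le_pow_left₀ hs0.le hr h).trans (pow_le_pow_right₀ (by norm_num) h6)
    have hy3 : s ^ h ≤ 3 := hy2.trans (by norm_num)
    have hsq : 0 ≤ s ^ d * (s ^ (h - d) - 1) ^ 2 := by positivity
    have hbs : (b : ℝ) * s ^ h ≤ -2 * s ^ h := mul_le_mul_of_nonneg_right hbR (by linarith)
    have e4 : s ^ d * (s ^ (h - d) - 1) ^ 2 = s ^ (2 * h - d) - 2 * s ^ h + s ^ d := by
      rw [e3, e1]
      ring
    rw [e2] at hroot
    nlinarith [mul_nonneg (sub_nonneg.2 hy1) (sub_nonneg.2 hy3)]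
  -- (2)
  have hcop : Nat.Coprime (h - d) h := by
    have hg1 : Nat.gcd (h - d) h ∣ h := Nat.gcd_dvd_right _ _
    have hg2 : Nat.gcd (h - d) h ∣ h - d := Nat.gcd_dvd_left _ _
    have hg3 : Nat.gcd (h - d) h ∣ d := by
      have h8 := Nat.dvd_sub hg1 hg2
      rwa [Nat.sub_sub_self hdh.le] at h8
    exact dom_gcd hs hdom (by omega) (Nat.gcd_pos_of_pos_right _ (by omega)) (hg1.mul_left 2) hg3
      (Or.inr hg1)
  -- (3)
  obtain ⟨U, hU⟩ := exists_prod (cpb_monic (b : ℝ) hm hmh) fun u hu =>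
    real_of_root_gen hs hdom (fun z hz => wp_aeval_cp hdh hz) hu
  -- (4)
  exact not_large_b h7 hm hmh hcop hbR hU

end SalemLen
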