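import Pool.Agent.Lib.MP_9599cf_ntF.VMain
import Pool.Agent.Lib.MP_9599cf_ntF.WShape
import Pool.Agent.Lib.MP_9599cf_ntF.WSgn
import Pool.Agent.Lib.MP_9599cf_ntF.WNeg
import Pool.Agent.Lib.MP_9599cf_ntF.WGcd
import Pool.Agent.Lib.MP_9599cf_ntF.WcA
import Pool.Agent.Lib.MP_9599cf_ntF.WcB
import Pool.Agent.Lib.MP_9599cf_ntF.WcC
import Pool.Agent.Lib.MP_9599cf_ntF.WIneqA
import Pool.Agent.Lib.MP_9599cf_ntF.WIneqB
import Pool.Agent.Lib.MP_9599cf_ntF.WEnd1
import Pool.Agent.Lib.MP_9599cf_ntF.WEnd2
import Pool.Agent.Lib.MP_9599cf_ntF.WEnd3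
import Pool.Agent.Lib.MP_9599cf_ntF.WTau
import Pool.Agent.Lib.MP_9599cf_ntL.StripC
import Pool.Agent.Lib.MP_9599cf_ntL.LenL
import Pool.Agent.Lib.MP_9599cf_ntL.TTDef

/-! # The least Salem number of the polynomials with at most five monomials -/

set_option autoImplicit false

namespace SalemLen

open Polynomial

private theorem wmain_one : len (1 : ℤ[X]) ≤ 1 := by
  rw [len_eq_range 1 (n := 1) (by simp)]
  simp

private theorem wmain_X (k : ℕ) : len (X ^ k : ℤ[X]) ≤ 1 := by
  have h := len_X_pow_mul 1 k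
  rw [mul_one] at h
  rw [h]
  exact wmain_one

/-- `wp (2 h) d h (-1) (-1) 1` has length at most five. -/
theorem wp_len_five (h d : ℕ) : len (wp (2 * h) d h (-1) (-1) 1) ≤ 5 := by
  unfold wp
  have e1 : len (C (-1) * X ^ (2 * h - d) : ℤ[X]) ≤ 1 := by
    rw [len_C_mul _ (by norm_num)]
    exact wmain_X _
  have e2 : len (C (-1) * X ^ h : ℤ[X]) ≤ 1 := by
    rw [len_C_mul _ (by norm_num)]
    exact wmain_X _
  have e3 : len (C (1 * (-1)) * X ^ d : ℤ[X]) ≤ 1 := by
    rw [len_C_mul _ (by norm_num)]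
    exact wmain_X _
  have e4 : len (C 1 : ℤ[X]) ≤ 1 := by
    rw [C_1]
    exact wmain_one
  have e5 := wmain_X (2 * h)
  have f1 := len_add_le (X ^ (2 * h) + C (-1) * X ^ (2 * h - d) + C (-1) * X ^ h +
    C (1 * (-1)) * X ^ d : ℤ[X]) (C 1)
  have f2 := len_add_le (X ^ (2 * h) + C (-1) * X ^ (2 * h - d) + C (-1) * X ^ h : ℤ[X])
    (C (1 * (-1)) * X ^ d)
  have f3 := len_add_le (X ^ (2 * h) + C (-1) * X ^ (2 * h - d) : ℤ[X]) (C (-1) * X ^ h)
  have f4 := len_add_le (X ^ (2 * h) : ℤ[X]) (C (-1) * X ^ (2 * h - d))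
  omega

/-- The case `a = -A`, `A ≥ 2`. -/
theorem big_case {n d h A : ℕ} {b e : ℤ} {s : ℝ} (hd : 0 < d) (hdn : 2 * d < n) (hh : h < n)
    (hA : 2 ≤ A) (he : e = 1 ∨ e = -1) (hb : b = 0 ∨ (e = 1 ∧ n = 2 * h)) (hs : 1 < s)
    (hr : s < 11763 / 10000) (hdom : Dom (wp n d h (-(A : ℤ)) b e) s) : False := by
  obtain ⟨hmon, hdeg⟩ := wp_monic (a := -(A : ℤ)) (b := b) (e := e) hd hdn hh
  have hA' : (2 : ℝ) ≤ (A : ℝ) := by exact_mod_cast hA
  -- the root
  have hs0 : (cx (wp n d h (-(A : ℤ)) b e)).eval (s : ℂ) = 0 := by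
    obtain ⟨Q, hQ, -⟩ := hdom
    rw [hQ, eval_mul, eval_sub, eval_X, eval_C, sub_self, zero_mul]
  have hsr : Polynomial.aeval s (wp n d h (-(A : ℤ)) b e) = 0 := by
    rw [eval_cx_real] at hs0
    exact_mod_cast hs0
  rw [wp_aeval] at hsr
  have hpos := dom_pos hmon hs hdom hr
  rw [wp_aeval] at hpos
  have hone := dom_nonpos hmon hs hdom (x := 1) le_rfl hs.le
  rw [wp_aeval] at hone
  push_cast at hsr hpos hone
  rcases he with rfl | rfl
  · -- e = 1
    rcases le_or_gt b 0 with hb0 | hb0
    · -- b ≤ 0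
      have hroot : s ^ n - A * s ^ (n - d) + b * s ^ h - A * s ^ d + 1 = 0 := by
        rw [← hsr]; push_cast; ring
      have hr0 : (0 : ℝ) ≤ (11763 / 10000) ^ n - A * (11763 / 10000) ^ (n - d) +
          b * (11763 / 10000) ^ h - A * (11763 / 10000) ^ d + 1 := by
        refine hpos.le.trans_eq ?_
        push_cast; ring
      -- d ≥ 5
      have hd5 : 5 ≤ d := by
        by_contra hcon
        have h4 : ((11763 : ℝ) / 10000) ^ d ≤ A := by
          have : ((11763 : ℝ) / 10000) ^ d ≤ (11763 / 10000) ^ 4 :=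
            pow_le_pow_right₀ (by norm_num) (by omega)
          have h5 : ((11763 : ℝ) / 10000) ^ 4 ≤ 2 := by norm_num
          linarith
        have h6 : ((11763 : ℝ) / 10000) ^ n = (11763 / 10000) ^ (n - d) * (11763 / 10000) ^ d := by
          rw [← pow_add]
          congr 1
          omega
        rw [h6] at hr0
        have h7 : (0 : ℝ) < (11763 / 10000) ^ (n - d) := by positivity
        have h8 : (1 : ℝ) ≤ (11763 / 10000) ^ d := one_le_pow₀ (by norm_num)
        have h9 : (0 : ℝ) < (11763 / 10000) ^ h := by positivity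
        have h10 : (b : ℝ) ≤ 0 := by exact_mod_cast hb0
        have h11 : (b : ℝ) * (11763 / 10000) ^ h ≤ 0 := mul_nonpos_of_nonpos_of_nonneg h10 h9.le
        have h12 : (11763 / 10000 : ℝ) ^ (n - d) * ((11763 / 10000) ^ d - A) ≤ 0 :=
          mul_nonpos_of_nonneg_of_nonpos h7.le (by linarith)
        nlinarith
      rcases eq_or_ne b 0 with rfl | hbne
      · have hc : Nat.Coprime d n := by
          have h1 := dom_gcd hs hdom (g := Nat.gcd d n) (by omega)
            (Nat.gcd_pos_of_pos_left _ hd) (Nat.gcd_dvd_right _ _) (Nat.gcd_dvd_left _ _) (Or.inl rfl)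
          exact h1
        obtain ⟨h3, hj⟩ := ineq_zero (by omega) hdn hh (Or.inl rfl) hA hc hs hdom
        refine end_neg (by omega) hdn hA hs hr.le le_rfl (Or.inl rfl) hroot hr0 ?_ hj
        have : ((0 : ℤ) : ℝ) ^ 2 / 2 = 0 := by norm_num
        rw [this, add_zero]
        exact h3
      · obtain ⟨-, hn⟩ := hb.resolve_left hbne
        subst hn
        have hc : Nat.Coprime d h := by
          have h1 := dom_gcd hs hdom (g := Nat.gcd d h) (by omega)
            (Nat.gcd_pos_of_pos_left _ hd) (dvd_mul_of_dvd_right (Nat.gcd_dvd_right _ _) 2)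
            (Nat.gcd_dvd_left _ _) (Or.inr (Nat.gcd_dvd_right _ _))
          exact h1
        obtain ⟨h3, hj⟩ := ineq_five (by omega) (by omega) hA hc hs hdom
        exact end_neg (by omega) hdn hA hs hr.le hb0 (Or.inr rfl) hroot hr0 h3 hj
    · -- b ≥ 1
      obtain ⟨-, hn⟩ := hb.resolve_left (by omega)
      subst hn
      have hroot : s ^ (2 * h) - A * s ^ (2 * h - d) + b * s ^ h - A * s ^ d + 1 = 0 := by
        rw [← hsr]; push_cast; ring
      have hc : Nat.Coprime d h := by
        have h1 := dom_gcd hs hdom (g := Nat.gcd d h) (by omega)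
          (Nat.gcd_pos_of_pos_left _ hd) (dvd_mul_of_dvd_right (Nat.gcd_dvd_right _ _) 2)
          (Nat.gcd_dvd_left _ _) (Or.inr (Nat.gcd_dvd_right _ _))
        exact h1
      rcases lt_or_ge d 3 with hd3 | hd3
      · have hd12 : d = 1 ∨ d = 2 := by omega
        rcases hd12 with rfl | rfl
        · refine case_d_one (h := h) (A := A) (b := b) (s := s) (by omega) hA (by omega) hs hr.le
            ?_ ?_ ?_
          · rw [← hroot]; ring
          · refine hpos.le.trans_eq ?_
            push_cast; ring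
          · have h1 : (b : ℝ) ≤ 2 * A - 2 := by
              have : (1 : ℝ) ^ (2 * h) = 1 := one_pow _
              simp only [one_pow, mul_one] at hone
              push_cast at hone
              linarith
            exact_mod_cast h1
        · -- d = 2
          have h2 := dom_neg_one hmon hs hdom (by rw [hdeg]; exact even_two_mul h)
          rw [wp_aeval] at h2
          have hodd : Odd h := by
            rcases Nat.even_or_odd h with h5 | h5
            · exfalso
              obtain ⟨k, hk⟩ := h5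
              have : Nat.gcd 2 h = 2 := Nat.gcd_eq_left ⟨k, by omega⟩
              rw [Nat.Coprime] at hc
              omega
            · exact h5
          have e1 : (-1 : ℝ) ^ (2 * h) = 1 := by rw [pow_mul]; norm_num
          have e2 : (-1 : ℝ) ^ (2 * h - 2) = 1 := by
            rw [show 2 * h - 2 = 2 * (h - 1) by omega, pow_mul]; norm_num
          have e3 : (-1 : ℝ) ^ h = -1 := hodd.neg_one_pow
          rw [e1, e2, e3] at h2
          push_cast at h2
          have h10 : (1 : ℝ) ≤ (b : ℝ) := by exact_mod_cast hb0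
          norm_num at h2
          linarith
      · obtain ⟨h3, hj⟩ := ineq_five hd3 (by omega) hA hc hs hdom
        exact end_pos hd3 (by omega) hA hs hr.le (by omega) hroot h3 hj
  · -- e = -1
    have hb0 : b = 0 := by
      rcases hb with h1 | ⟨h1, -⟩
      · exact h1
      · norm_num at h1
    subst hb0
    have hroot : s ^ n - A * s ^ (n - d) + A * s ^ d - 1 = 0 := by
      rw [← hsr]; push_cast; ring
    rcases Nat.lt_or_ge d 2 with hd2 | hd2
    · have hd1 : d = 1 := by omega
      subst hd1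
      refine case_anti_one (n := n) (A := A) (s := s) (by omega) hA hs hr.le ?_ ?_
      · rw [← hroot]; ring
      · refine hpos.le.trans_eq ?_
        push_cast; ring
    · have hc : Nat.Coprime d n := by
        have h1 := dom_gcd hs hdom (g := Nat.gcd d n) (by omega)
          (Nat.gcd_pos_of_pos_left _ hd) (Nat.gcd_dvd_right _ _) (Nat.gcd_dvd_left _ _) (Or.inl rfl)
        exact h1
      obtain ⟨h3, hj⟩ := ineq_zero hd2 hdn hh (Or.inr rfl) hA hc hs hdom
      exact end_anti hd2 hdn hA hs hr.le hroot h3 hj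

/-- The set `TT ⊤ 5` has a least element, Lehmer's number. -/
theorem lehmer_terms : ∃ t ∈ TT ⊤ 5, Polynomial.aeval t lehmer = 0 ∧ ∀ s ∈ TT ⊤ 5, t ≤ s := by
  obtain ⟨t, ht5, ht0, htmin⟩ := lehmer_five
  refine ⟨t, ?_, ht0, ?_⟩
  · obtain ⟨hs, P, hP, hl, hd⟩ := ht5
    exact ⟨hs, P, hP, le_top, (card_le_len P).trans hl, hd⟩
  · rintro s ⟨hss, P0, hP0, -, hc0, hd0⟩
    by_contra hlt
    push Not at hlt
    have hs : 1 < s := hss.2.1
    have ht1 : 1 < t := ht5.1.2.1
    obtain ⟨t', hs', hdl, h1', -, hr'⟩ := exists_lehmer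
    have htt : t = t' := by
      refine hdl.eq_of_root ht1 ?_
      rw [eval_cx_real, ht0]
      simp
    have htr : t < 11763 / 10000 := by
      rw [htt]
      exact lehmer_lt h1' hdl
    have hr : s < 11763 / 10000 := hlt.trans htr
    obtain ⟨P, hP, -, hcP, hdP, hP00⟩ := exists_coeff_zero_card hP0 hs hd0
    obtain ⟨c1, -⟩ := card_cases hss hP hP00 hdP
    obtain ⟨n, d, h, a, b, e, hd, hdn, hh, ha, he, hb, rfl⟩ :=
      shape_wp hP hP00 (by omega) c1 (hss.reverse_eq hP hP00 hdP)
    rcases lt_trichotomy a 0 with hneg | h0 | hpos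
    · -- a < 0
      obtain ⟨A, hA⟩ : ∃ A : ℕ, a = -(A : ℤ) := ⟨a.natAbs, by omega⟩
      subst hA
      rcases Nat.lt_or_ge A 2 with hA2 | hA2
      · have hA1 : A = 1 := by omega
        subst hA1
        have hs0 : (cx (wp n d h (-((1 : ℕ) : ℤ)) b e)).eval (s : ℂ) = 0 := by
          obtain ⟨Q, hQ, -⟩ := hdP
          rw [hQ, eval_mul, eval_sub, eval_X, eval_C, sub_self, zero_mul]
        have hsr : Polynomial.aeval s (wp n d h (-((1 : ℕ) : ℤ)) b e) = 0 := by
          rw [eval_cx_real] at hs0
          exact_mod_cast hs0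
        rw [wp_aeval] at hsr
        rcases le_or_gt 0 b with hb0 | hb0
        · refine case_one (n := n) (d := d) (h := h) (b := (b : ℝ)) (e := (e : ℝ)) (s := s) hd hdn ?_
            (by exact_mod_cast hb0) hs ?_
          · rcases he with rfl | rfl
            · left; norm_num
            · right
              refine ⟨by norm_num, ?_⟩
              rcases hb with h1 | ⟨h1, -⟩
              · rw [h1]; norm_num
              · norm_num at h1
          · rw [← hsr]
            push_cast
            ring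
        · obtain ⟨rfl, hn⟩ := hb.resolve_left (by omega)
          subst hn
          rcases eq_or_ne b (-1) with rfl | hb1
          · have hs5 : s ∈ T 5 := ⟨hss, _, hP, wp_len_five h d, hdP⟩
            have := htmin s hs5
            linarith
          · exact case_one_neg hd (by omega) (by omega) hs hr.le hdP
      · exact big_case hd hdn hh hA2 he hb hs hr hdP
    · exact ha h0
    · exact case_pos hd hdn hpos he hb hss hdP

end SalemLen
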