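import Pool.Agent.Lib.MP_9599cf_ntF.WDef

/-! # The identities of Newton -/

set_option autoImplicit false

namespace SalemLen

open Polynomial

/-- The product of the factors `1 - z X`. -/
private noncomputable def WNewton_F (Z : Multiset ℂ) : ℂ[X] :=
  (Z.map fun z => (1 - C z * X : ℂ[X])).prod

/-- The generating function of the sums of the powers. -/
private noncomputable def WNewton_S (Z : Multiset ℂ) : PowerSeries ℂ :=
  PowerSeries.mk fun k => if k = 0 then 0 else (Z.map fun z => z ^ k).sum

private theorem WNewton_one (a : ℂ) :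
    (1 - PowerSeries.C a * PowerSeries.X : PowerSeries ℂ) *
      (PowerSeries.mk fun k => if k = 0 then 0 else a ^ k) = PowerSeries.C a * PowerSeries.X := by
  ext n
  rw [sub_mul, one_mul, map_sub, PowerSeries.coeff_mk, mul_assoc, PowerSeries.coeff_C_mul,
    PowerSeries.coeff_C_mul]
  rcases n with _ | n
  · simp
  · rw [mul_comm PowerSeries.X, PowerSeries.coeff_succ_mul_X, PowerSeries.coeff_mk,
      PowerSeries.coeff_X]
    rcases n with _ | n
    · simp
    · have h1 : ¬ (n + 1 + 1 = 1) := by omega
      have h2 : ¬ (n + 1 + 1 = 0) := by omega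
      have h3 : ¬ (n + 1 = 0) := by omega
      rw [if_neg h1, if_neg h2, if_neg h3]
      ring

private theorem WNewton_ps (Z : Multiset ℂ) :
    ((WNewton_F Z : ℂ[X]) : PowerSeries ℂ) * WNewton_S Z =
      -(PowerSeries.X * ((derivative (WNewton_F Z) : ℂ[X]) : PowerSeries ℂ)) := by
  induction Z using Multiset.induction_on with
  | empty =>
    have h1 : WNewton_F 0 = 1 := by simp [WNewton_F]
    have h2 : WNewton_S 0 = 0 := by
      ext n
      simp [WNewton_S]
    rw [h1, h2]
    simp
  | cons a Z ih =>
    have h1 : WNewton_F (a ::ₘ Z) = (1 - C a * X) * WNewton_F Z := by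
      simp [WNewton_F]
    have h2 : WNewton_S (a ::ₘ Z) =
        (PowerSeries.mk fun k => if k = 0 then 0 else a ^ k) + WNewton_S Z := by
      ext n
      rw [map_add, WNewton_S, WNewton_S, PowerSeries.coeff_mk, PowerSeries.coeff_mk,
        PowerSeries.coeff_mk]
      by_cases hn : n = 0
      · simp [hn]
      · simp [hn]
    have h3 : derivative ((1 - C a * X) * WNewton_F Z) =
        -(C a) * WNewton_F Z + (1 - C a * X) * derivative (WNewton_F Z) := by
      rw [derivative_mul, derivative_sub, derivative_one, derivative_mul, derivative_C,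
        derivative_X]
      ring
    have h4 : (((1 - C a * X : ℂ[X])) : PowerSeries ℂ) =
        1 - PowerSeries.C a * PowerSeries.X := by
      rw [Polynomial.coe_sub, Polynomial.coe_mul, Polynomial.coe_one, Polynomial.coe_C,
        Polynomial.coe_X]
    rw [h1, h2, h3, Polynomial.coe_mul, Polynomial.coe_add, Polynomial.coe_mul,
      Polynomial.coe_mul, Polynomial.coe_neg, Polynomial.coe_C, h4]
    have h5 := WNewton_one a
    calc (1 - PowerSeries.C a * PowerSeries.X) * ((WNewton_F Z : ℂ[X]) : PowerSeries ℂ) *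
          ((PowerSeries.mk fun k => if k = 0 then 0 else a ^ k) + WNewton_S Z)
        = ((1 - PowerSeries.C a * PowerSeries.X) *
            (PowerSeries.mk fun k => if k = 0 then 0 else a ^ k)) *
              ((WNewton_F Z : ℂ[X]) : PowerSeries ℂ) +
            (1 - PowerSeries.C a * PowerSeries.X) *
              (((WNewton_F Z : ℂ[X]) : PowerSeries ℂ) * WNewton_S Z) := by ring
      _ = _ := by
          rw [h5, ih]
          ring

/-- PROOF. Induction on `Z` of the identity of power series `F * S = - X * F'`, `F = ∏ (1 - z X)`,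
`S = ∑_{k ≥ 1} p_k X ^ k` (for one factor `(1 - z X) * ∑_{k ≥ 1} z ^ k X ^ k = z X`); or a direct induction on `Z`
of the coefficient identity; or from `MvPolynomial` (Newton identities). -/
theorem newton (Z : Multiset ℂ) {k : ℕ} (hk : 0 < k) :
    ∑ i ∈ Finset.range k, ((Z.map fun z => (1 - C z * X : ℂ[X])).prod).coeff i *
      (Z.map fun z => z ^ (k - i)).sum =
      -((k : ℂ) * ((Z.map fun z => (1 - C z * X : ℂ[X])).prod).coeff k) := by
  obtain ⟨n, rfl⟩ : ∃ n, k = n + 1 := ⟨k - 1, by omega⟩
  have h1 := congrArg (PowerSeries.coeff (n + 1)) (WNewton_ps Z)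
  rw [PowerSeries.coeff_mul, Finset.Nat.sum_antidiagonal_eq_sum_range_succ
    (fun i j => PowerSeries.coeff i ((WNewton_F Z : ℂ[X]) : PowerSeries ℂ) *
      PowerSeries.coeff j (WNewton_S Z)) (n + 1), Finset.sum_range_succ, Nat.sub_self, map_neg,
    mul_comm PowerSeries.X, PowerSeries.coeff_succ_mul_X,
    Polynomial.coeff_coe (derivative (WNewton_F Z)),
    Polynomial.coeff_derivative] at h1
  have h2 : PowerSeries.coeff 0 (WNewton_S Z) = 0 := by
    rw [WNewton_S, PowerSeries.coeff_mk, if_pos rfl]
  rw [h2, mul_zero, add_zero] at h1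
  have h3 : ∀ i ∈ Finset.range (n + 1),
      ((Z.map fun z => (1 - C z * X : ℂ[X])).prod).coeff i *
        (Z.map fun z => z ^ (n + 1 - i)).sum =
      PowerSeries.coeff i ((WNewton_F Z : ℂ[X]) : PowerSeries ℂ) *
        PowerSeries.coeff (n + 1 - i) (WNewton_S Z) := by
    intro i hi
    have hi' := Finset.mem_range.1 hi
    rw [Polynomial.coeff_coe, WNewton_S, PowerSeries.coeff_mk, if_neg (by omega)]
    rfl
  rw [Finset.sum_congr rfl h3, h1]
  show -((WNewton_F Z).coeff (n + 1) * ((n : ℂ) + 1)) =
    -(((n + 1 : ℕ) : ℂ) * (WNewton_F Z).coeff (n + 1))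
  push_cast
  ring

end SalemLen
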