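import Pool.Agent.Lib.MP_9599cf_ntF.WNewton

/-! # The recurrence for the power sums of `wp` -/

set_option autoImplicit false

namespace SalemLen

open Polynomial

theorem WRec_coeff (n d h : ℕ) (a b e : ℤ) (i : ℕ) : (wp n d h a b e).coeff i =
    (if i = n then 1 else 0) + a * (if i = n - d then 1 else 0) + b * (if i = h then 1 else 0) +
      e * a * (if i = d then 1 else 0) + e * (if i = 0 then 1 else 0) := by
  rw [wp, coeff_add, coeff_add, coeff_add, coeff_add, coeff_X_pow, coeff_C_mul_X_pow, coeff_C_mul_X_pow,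
    coeff_C_mul_X_pow, coeff_C]
  simp only [mul_ite, mul_one, mul_zero]

/-- PROOF. `wp` is monic of degree `n`. -/
theorem wp_monic {n d h : ℕ} {a b e : ℤ} (hd : 0 < d) (hdn : 2 * d < n) (hh : h < n) :
    (wp n d h a b e).Monic ∧ (wp n d h a b e).natDegree = n := by
  have h1 : (wp n d h a b e).coeff n = 1 := by
    rw [WRec_coeff, if_pos rfl, if_neg (by omega), if_neg (by omega), if_neg (by omega), if_neg (by omega)]
    ring
  have h2 : (wp n d h a b e).natDegree ≤ n := by
    rw [natDegree_le_iff_coeff_eq_zero]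
    intro i hi
    rw [WRec_coeff, if_neg (by omega), if_neg (by omega), if_neg (by omega), if_neg (by omega), if_neg (by omega)]
    ring
  have h3 : (wp n d h a b e).natDegree = n := by
    refine le_antisymm h2 (le_natDegree_of_ne_zero ?_)
    rw [h1]
    exact one_ne_zero
  exact ⟨monic_of_natDegree_le_of_coeff_eq_one n h2 h1, h3⟩

theorem WRec_rev1 (z : ℂ) : (X - C z : ℂ[X]).reverse = 1 - C z * X := by
  ext i
  rw [coeff_reverse, natDegree_X_sub_C, coeff_sub, coeff_sub, coeff_one, coeff_C_mul, coeff_X, coeff_C, coeff_X]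
  rcases i with _ | _ | i
  · have : revAt 1 0 = 1 := by decide
    rw [this]
    simp
  · have : revAt 1 (0 + 1) = 0 := by decide
    rw [this]
    simp
  · have : revAt 1 (i + 1 + 1) = i + 1 + 1 := revAt_eq_self_of_lt (by omega)
    rw [this]
    simp

theorem WRec_rev (Z : Multiset ℂ) :
    (Z.map fun z => (1 - C z * X : ℂ[X])).prod = (Z.map fun z => (X - C z : ℂ[X])).prod.reverse := by
  induction Z using Multiset.induction_on with
  | empty =>
    rw [Multiset.map_zero, Multiset.prod_zero, Multiset.map_zero, Multiset.prod_zero]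
    rw [← C_1, reverse_C]
  | cons a Z ih =>
    rw [Multiset.map_cons, Multiset.prod_cons, Multiset.map_cons, Multiset.prod_cons, reverse_mul_of_domain,
      WRec_rev1, ih]

theorem WRec_F {n d h : ℕ} {a b e : ℤ} (hd : 0 < d) (hdn : 2 * d < n) (hh : h < n)
    (hb : b = 0 ∨ (e = 1 ∧ n = 2 * h)) (i : ℕ) :
    (((cx (wp n d h a b e)).roots.map fun z => (1 - C z * X : ℂ[X])).prod).coeff i =
      (if i = 0 then 1 else 0) + a * (if i = d then 1 else 0) + b * (if i = h then 1 else 0) +
      e * a * (if i = n - d then 1 else 0) + e * (if i = n then 1 else 0) := by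
  obtain ⟨h1, h2⟩ := wp_monic (a := a) (b := b) (e := e) hd hdn hh
  have h3 : (cx (wp n d h a b e)).Monic := h1.map _
  have h4 : (cx (wp n d h a b e)).natDegree = n := by
    rw [cx, h1.natDegree_map, h2]
  have h5 : (((cx (wp n d h a b e)).roots.map fun z => (X - C z : ℂ[X])).prod) = cx (wp n d h a b e) :=
    ((IsAlgClosed.splits _).eq_prod_roots_of_monic h3).symm
  rw [WRec_rev, h5, coeff_reverse, h4]
  have h6 : ∀ j, (cx (wp n d h a b e)).coeff j = ((wp n d h a b e).coeff j : ℂ) := by
    intro j
    rw [cx, coeff_map]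
    rfl
  rw [h6, WRec_coeff]
  push_cast
  rcases le_or_gt i n with hi | hi
  · rw [revAt_le hi]
    have e1 : (n - i = n) ↔ i = 0 := by omega
    have e2 : (n - i = n - d) ↔ i = d := by omega
    have e4 : (n - i = d) ↔ i = n - d := by omega
    have e5 : (n - i = 0) ↔ i = n := by omega
    rcases hb with hb | ⟨_, hb⟩
    · subst hb
      simp only [e1, e2, e4, e5, Int.cast_zero, zero_mul]
    · have e3 : (n - i = h) ↔ i = h := by omega
      simp only [e1, e2, e3, e4, e5]
  · rw [revAt_eq_self_of_lt hi]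
    rw [if_neg (by omega), if_neg (by omega), if_neg (by omega), if_neg (by omega), if_neg (by omega)]

theorem WRec_sum (p : ℕ → ℂ) {k : ℕ} (c : ℕ) :
    ∑ i ∈ Finset.range (k + 1), (if i = c then (1 : ℂ) else 0) * qk p k i = qk p k c := by
  simp only [ite_mul, one_mul, zero_mul, Finset.sum_ite_eq']
  split_ifs with h
  · rfl
  · rw [Finset.mem_range] at h
    rw [qk, if_neg (by omega), if_neg (by omega)]

/-- `F = ∏_{z root} (1 - z X)` is the reverse of `∏ (X - z) = cx P` (`P = wp ..`), that is `e • cx P` (as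
`X ^ n * P (1 / X) = e * P`, `e ^ 2 = 1`, using `h = n - h`, `e = 1` if `b ≠ 0`). So `F` has the coefficients
`1` at `0`, `a` at `d`, `b` at `h`, `e a` at `n - d`, `e` at `n`, and `0` elsewhere (these exponents are different
if `b ≠ 0`; if `b = 0` forget `h`). Insert this in `newton`: the sum over `i < k` has at most five nonzero terms. -/
theorem ps_rec {n d h : ℕ} {a b e : ℤ} (hd : 0 < d) (hdn : 2 * d < n) (he : e = 1 ∨ e = -1) (hh : h < n)
    (hb : b = 0 ∨ (e = 1 ∧ n = 2 * h)) {k : ℕ} (hk : 0 < k) :
    ps (wp n d h a b e) k = -(a * qk (ps (wp n d h a b e)) k d) - b * qk (ps (wp n d h a b e)) k h -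
      e * a * qk (ps (wp n d h a b e)) k (n - d) - e * qk (ps (wp n d h a b e)) k n := by
  have h1 := newton (cx (wp n d h a b e)).roots hk
  have h2 : ∑ i ∈ Finset.range (k + 1),
      (((cx (wp n d h a b e)).roots.map fun z => (1 - C z * X : ℂ[X])).prod).coeff i *
        qk (ps (wp n d h a b e)) k i = 0 := by
    rw [Finset.sum_range_succ]
    have h3 : ∑ i ∈ Finset.range k,
      (((cx (wp n d h a b e)).roots.map fun z => (1 - C z * X : ℂ[X])).prod).coeff i *
        qk (ps (wp n d h a b e)) k i = ∑ i ∈ Finset.range k,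
      (((cx (wp n d h a b e)).roots.map fun z => (1 - C z * X : ℂ[X])).prod).coeff i *
        ((cx (wp n d h a b e)).roots.map fun z => z ^ (k - i)).sum := by
      refine Finset.sum_congr rfl fun i hi => ?_
      rw [Finset.mem_range] at hi
      rw [qk, if_pos hi, ps]
    rw [h3, h1, qk, if_neg (lt_irrefl k), if_pos rfl]
    ring
  have h4 : ∑ i ∈ Finset.range (k + 1),
      (((cx (wp n d h a b e)).roots.map fun z => (1 - C z * X : ℂ[X])).prod).coeff i *
        qk (ps (wp n d h a b e)) k i =
      qk (ps (wp n d h a b e)) k 0 + a * qk (ps (wp n d h a b e)) k d + b * qk (ps (wp n d h a b e)) k h +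
      e * a * qk (ps (wp n d h a b e)) k (n - d) + e * qk (ps (wp n d h a b e)) k n := by
    rw [← WRec_sum (ps (wp n d h a b e)) (k := k) 0, ← WRec_sum (ps (wp n d h a b e)) (k := k) d,
      ← WRec_sum (ps (wp n d h a b e)) (k := k) h, ← WRec_sum (ps (wp n d h a b e)) (k := k) (n - d),
      ← WRec_sum (ps (wp n d h a b e)) (k := k) n, Finset.mul_sum, Finset.mul_sum, Finset.mul_sum, Finset.mul_sum,
      ← Finset.sum_add_distrib, ← Finset.sum_add_distrib, ← Finset.sum_add_distrib, ← Finset.sum_add_distrib]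
    refine Finset.sum_congr rfl fun i _ => ?_
    rw [WRec_F hd hdn hh hb i]
    ring
  have h5 : qk (ps (wp n d h a b e)) k 0 = ps (wp n d h a b e) k := by
    rw [qk, if_pos hk, Nat.sub_zero]
  rw [h4, h5] at h2
  linear_combination h2

end SalemLen
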