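import Mathlib

/-!
The values of `t ^ N + t ^ (-N) - A (t ^ m + t ^ (-m)) + b` for small `t > 1`.
-/

set_option autoImplicit false

namespace SalemLen

theorem wtau_inv {t : ℝ} (h1 : 1 < t) : t * t⁻¹ = 1 ∧ 0 < t⁻¹ ∧ t⁻¹ < 1 :=
  ⟨mul_inv_cancel₀ (by linarith), inv_pos.mpr (by linarith), inv_lt_one_of_one_lt₀ h1⟩

theorem wtau_pow {t : ℝ} (h1 : 1 < t) (k : ℕ) :
    t ^ k * t⁻¹ ^ k = 1 ∧ 1 ≤ t ^ k ∧ 0 < t⁻¹ ^ k ∧ t⁻¹ ^ k ≤ 1 := by
  obtain ⟨a, b, c⟩ := wtau_inv h1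
  exact ⟨by rw [← mul_pow, a, one_pow], one_le_pow₀ h1.le, pow_pos b k, pow_le_one₀ b.le c.le⟩

theorem wtau_c {t : ℝ} (h1 : 1 < t) (k : ℕ) : 2 ≤ t ^ k + t⁻¹ ^ k := by
  obtain ⟨a, b, c, d⟩ := wtau_pow h1 k
  nlinarith [sq_nonneg (t ^ k - t⁻¹ ^ k), sq_nonneg (t ^ k - 1)]

/-- `A ≥ 2`, `b ≤ 2 A - 3`, `N - m ≤ 3`: negative. -/
theorem wtau_one (t A b : ℝ) (m d : ℕ) (h1 : 1 < t) (h2 : t < 119 / 100) (hA : 2 ≤ A)
    (hb : b ≤ 2 * A - 3) (hd : d ≤ 3) :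
    t ^ (m + d) + t⁻¹ ^ (m + d) - A * (t ^ m + t⁻¹ ^ m) + b < 0 := by
  have hc := wtau_c h1 m
  obtain ⟨y1, y2, y3, y4⟩ := wtau_pow h1 m
  obtain ⟨x1, x2, x3, x4⟩ := wtau_pow h1 d
  have x5 : t ^ d < 1686 / 1000 := by
    calc t ^ d ≤ t ^ 3 := pow_le_pow_right₀ h1.le hd
      _ < (119 / 100) ^ 3 := pow_lt_pow_left₀ h2 (by linarith) (by norm_num)
      _ < 1686 / 1000 := by norm_num
  rw [pow_add, pow_add]
  set y := t ^ m
  set y' := t⁻¹ ^ m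
  set x := t ^ d
  set x' := t⁻¹ ^ d
  have e1 : y * x + y' * x' - A * (y + y') + b ≤ y * x + y' * x' - 2 * (y + y') + 1 := by
    nlinarith
  have e2 : 1 < (2 - x) * y + (2 - x') * y' := by
    have hx' : x' ≤ 1 := x4
    have k1 : 0 < (2 - x) * y := mul_pos (by linarith) (by linarith)
    have k2 : 0 < (2 - x') * y' := mul_pos (by linarith) (by linarith)
    have k3 : (2 - x) * y * ((2 - x') * y') = (2 - x) * (2 - x') := by
      have : (2 - x) * y * ((2 - x') * y') = (2 - x) * (2 - x') * (y * y') := by ring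
      rw [this, y1, mul_one]
    have k4 : 1 / 4 < (2 - x) * (2 - x') := by
      have : (2 - x) * (2 - x') = 5 - 2 * (x + x') := by nlinarith
      rw [this]
      -- x + x' < 2.28
      have : x + x' < 19 / 8 := by
        have : x * (x + x') = x ^ 2 + 1 := by nlinarith
        by_contra hcon
        push Not at hcon
        nlinarith
      linarith
    nlinarith [sq_nonneg ((2 - x) * y - (2 - x') * y')]
  nlinarith

/-- `b = 2 A - 2`, `N = m + 1`: not zero. -/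
theorem wtau_two (t : ℝ) (A : ℤ) (m : ℕ) (h1 : 1 < t) (h2 : t < 119 / 100) (hA : 2 ≤ A)
    (hm : 1 ≤ m) :
    t ^ (m + 1) + t⁻¹ ^ (m + 1) - A * (t ^ m + t⁻¹ ^ m) + (2 * A - 2) ≠ 0 := by
  obtain ⟨i1, i2, i3⟩ := wtau_inv h1
  have hA' : (2 : ℝ) ≤ A := by exact_mod_cast hA
  have u1 : 2 < t + t⁻¹ := by nlinarith [mul_pos (sub_pos.mpr h1) (sub_pos.mpr i3)]
  have u2 : t + t⁻¹ < 2031 / 1000 := by
    by_contra hcon
    push Not at hcon
    have : t * (t + t⁻¹) = t ^ 2 + 1 := by nlinarith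
    nlinarith
  rcases Nat.lt_or_ge m 3 with h3 | h3
  · interval_cases m
    · intro h0
      have e : t ^ (1 + 1) + t⁻¹ ^ (1 + 1) - A * (t ^ 1 + t⁻¹ ^ 1) + (2 * A - 2) =
          (t + t⁻¹ - 2) * (t + t⁻¹ + 2 - A) := by
        have : t ^ (1 + 1) + t⁻¹ ^ (1 + 1) = (t + t⁻¹) ^ 2 - 2 := by nlinarith
        rw [this]; ring
      rw [e] at h0
      rcases mul_eq_zero.mp h0 with h | h
      · linarith
      · have k1 : (4 : ℝ) < A := by linarith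
        have k2 : (A : ℝ) < 5 := by linarith
        have k1' : (4 : ℤ) < A := by exact_mod_cast k1
        have k2' : A < (5 : ℤ) := by exact_mod_cast k2
        omega
    · intro h0
      have e : t ^ (2 + 1) + t⁻¹ ^ (2 + 1) - A * (t ^ 2 + t⁻¹ ^ 2) + (2 * A - 2) =
          (t + t⁻¹ - 2) * ((t + t⁻¹ + 1) ^ 2 - A * (t + t⁻¹ + 2)) := by
        have e1 : t ^ 2 + t⁻¹ ^ 2 = (t + t⁻¹) ^ 2 - 2 := by nlinarith
        have e2 : t ^ (2 + 1) + t⁻¹ ^ (2 + 1) = (t + t⁻¹) ^ 3 - 3 * (t + t⁻¹) := by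
          have : (t + t⁻¹) ^ 3 = t ^ (2 + 1) + t⁻¹ ^ (2 + 1) + 3 * (t * t⁻¹) * (t + t⁻¹) := by ring
          rw [this, i1]; ring
        rw [e1, e2]; ring
      rw [e] at h0
      rcases mul_eq_zero.mp h0 with h | h
      · linarith
      · set u := t + t⁻¹
        have k1 : (2 : ℝ) < A := by nlinarith
        have k2 : (A : ℝ) < 3 := by nlinarith
        have k1' : (2 : ℤ) < A := by exact_mod_cast k1
        have k2' : A < (3 : ℤ) := by exact_mod_cast k2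
        omega
  · apply ne_of_lt
    have hc := wtau_c h1 m
    obtain ⟨y1, y2, y3, y4⟩ := wtau_pow h1 m
    have y5 : t ^ 3 ≤ t ^ m := pow_le_pow_right₀ h1.le h3
    have key : 2 < (2 - t) * t ^ m + (2 - t⁻¹) * t⁻¹ ^ m := by
      have g0 : 2 < (2 - t) * t ^ 3 + (2 - t⁻¹) * t⁻¹ ^ 3 := by
        set u := t + t⁻¹ with hu
        have e2 : t ^ 3 + t⁻¹ ^ 3 = u ^ 3 - 3 * u := by
          have : u ^ 3 = t ^ 3 + t⁻¹ ^ 3 + 3 * (t * t⁻¹) * (t + t⁻¹) := by rw [hu]; ring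
          rw [this, i1]; ring
        have e3 : t ^ 4 + t⁻¹ ^ 4 = u ^ 4 - 4 * u ^ 2 + 2 := by
          have : u ^ 4 = t ^ 4 + t⁻¹ ^ 4 + 4 * (t * t⁻¹) * (t ^ 2 + t⁻¹ ^ 2) + 6 * (t * t⁻¹) ^ 2 := by
            rw [hu]; ring
          have h4 : u ^ 2 = t ^ 2 + t⁻¹ ^ 2 + 2 * (t * t⁻¹) := by rw [hu]; ring
          rw [this, h4, i1]; ring
        have : (2 - t) * t ^ 3 + (2 - t⁻¹) * t⁻¹ ^ 3 = 2 * (t ^ 3 + t⁻¹ ^ 3) - (t ^ 4 + t⁻¹ ^ 4) := by
          ring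
        rw [this, e2, e3]
        have : 0 < (u - 2) * (4 * u + 2 - u ^ 3) := by
          apply mul_pos (by linarith)
          nlinarith [mul_pos (by linarith : 0 < u) (by linarith : 0 < 2031 / 1000 - u),
            mul_pos (mul_pos (by linarith : 0 < u) (by linarith : 0 < u)) (by linarith : 0 < 2031 / 1000 - u)]
        nlinarith
      obtain ⟨z1, z2, z3, z4⟩ := wtau_pow h1 3
      have z5 : (119 / 100 : ℝ)⁻¹ < t⁻¹ := inv_strictAnti₀ (by linarith) h2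
      have z6 : (2 - t⁻¹) ≤ (2 - t) * (t ^ 3) ^ 2 := by
        -- 2 - 1/t ≤ (2 - t) t ^ 6
        have hq : 2 * t - 1 ≤ (2 - t) * t ^ 7 := by
          have p7 : 1 + 7 * (t - 1) ≤ t ^ 7 := by
            have := one_add_mul_le_pow (a := t - 1) (by linarith) 7
            simpa using this
          nlinarith [mul_le_mul_of_nonneg_left p7 (by linarith : 0 ≤ 2 - t)]
        have : 0 ≤ t⁻¹ * ((2 - t) * t ^ 7 - (2 * t - 1)) := mul_nonneg i2.le (by linarith)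
        have e : t⁻¹ * ((2 - t) * t ^ 7 - (2 * t - 1)) = (2 - t) * (t ^ 3) ^ 2 * (t * t⁻¹) - 2 * (t * t⁻¹) + t⁻¹ := by ring
        rw [e, i1] at this
        linarith
      -- monotonicity
      set y := t ^ m
      set y' := t⁻¹ ^ m
      set z := t ^ 3
      set z' := t⁻¹ ^ 3
      have hyz : z' * y' ≤ z' ^ 2 := by
        have : y' ≤ z' := by
          by_contra hcon
          push Not at hcon
          nlinarith
        nlinarith
      have : 0 ≤ (y - z) * ((2 - t) - (2 - t⁻¹) * (z' * y')) := by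
        apply mul_nonneg (by linarith)
        have w1 : (2 - t⁻¹) * (z' * y') ≤ (2 - t⁻¹) * z' ^ 2 :=
          mul_le_mul_of_nonneg_left hyz (by linarith)
        have w2 : (2 - t⁻¹) * z' ^ 2 ≤ (2 - t) * z ^ 2 * z' ^ 2 :=
          mul_le_mul_of_nonneg_right z6 (sq_nonneg _)
        have w3 : (2 - t) * z ^ 2 * z' ^ 2 = 2 - t := by
          have : (2 - t) * z ^ 2 * z' ^ 2 = (2 - t) * (z * z') ^ 2 := by ring
          rw [this, z1]; ring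
        linarith
      have e : (y - z) * ((2 - t) - (2 - t⁻¹) * (z' * y')) =
          ((2 - t) * y + (2 - t⁻¹) * y') - ((2 - t) * z + (2 - t⁻¹) * z') := by
        have : (y - z) * ((2 - t) - (2 - t⁻¹) * (z' * y')) =
          (2 - t) * y - (2 - t) * z - (2 - t⁻¹) * z' * (y * y') + (2 - t⁻¹) * y' * (z * z') := by ring
        rw [this, y1, z1]; ring
      linarith
    rw [pow_succ, pow_succ]
    nlinarith

/-- `A = 1`, `b ≤ -2`, `N = m + 2 ≤ 12`: negative. -/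
theorem wtau_three (t b : ℝ) (m : ℕ) (h1 : 1 < t) (h2 : t < 11763 / 10000) (hb : b ≤ -2)
    (hm : m ≤ 10) :
    t ^ (m + 2) + t⁻¹ ^ (m + 2) - (t ^ m + t⁻¹ ^ m) + b < 0 := by
  obtain ⟨i1, i2, i3⟩ := wtau_inv h1
  have e : t ^ (m + 2) + t⁻¹ ^ (m + 2) - (t ^ m + t⁻¹ ^ m) =
      (t - t⁻¹) * (t ^ (m + 1) - t⁻¹ ^ (m + 1)) := by
    have : (t - t⁻¹) * (t ^ (m + 1) - t⁻¹ ^ (m + 1)) =
      t ^ (m + 2) + t⁻¹ ^ (m + 2) - (t * t⁻¹) * (t ^ m + t⁻¹ ^ m) := by ring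
    rw [this, i1, one_mul]
  rw [e]
  have r1 : (11763 / 10000 : ℝ)⁻¹ < t⁻¹ := inv_strictAnti₀ (by linarith) h2
  have r2 : t ^ (m + 1) ≤ (11763 / 10000) ^ 11 :=
    calc t ^ (m + 1) ≤ t ^ 11 := pow_le_pow_right₀ h1.le (by omega)
      _ ≤ _ := pow_le_pow_left₀ (by linarith) h2.le 11
  have r3 : ((11763 / 10000 : ℝ)⁻¹) ^ 11 ≤ t⁻¹ ^ (m + 1) :=
    calc _ ≤ t⁻¹ ^ 11 := pow_le_pow_left₀ (by positivity) r1.le 11
      _ ≤ _ := pow_le_pow_of_le_one i2.le i3.le (by omega)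
  have r4 : (t - t⁻¹) * (t ^ (m + 1) - t⁻¹ ^ (m + 1)) ≤
      (11763 / 10000 - (11763 / 10000)⁻¹) * ((11763 / 10000) ^ 11 - ((11763 / 10000 : ℝ)⁻¹) ^ 11) := by
    apply mul_le_mul (by linarith) (by linarith) _ (by norm_num)
    have := one_le_pow₀ h1.le (n := m + 1)
    have := pow_le_one₀ i2.le i3.le (n := m + 1)
    linarith
  have r5 : (11763 / 10000 - (11763 / 10000)⁻¹) * ((11763 / 10000) ^ 11 - ((11763 / 10000 : ℝ)⁻¹) ^ 11) < 2 := by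
    norm_num
  linarith

/-- `A = 1`, `b ≤ -2`, `N ≤ 5`: negative. -/
theorem wtau_four (t b : ℝ) (m N : ℕ) (h1 : 1 < t) (h2 : t < 119 / 100) (hb : b ≤ -2)
    (hN : N ≤ 5) :
    t ^ N + t⁻¹ ^ N - (t ^ m + t⁻¹ ^ m) + b < 0 := by
  have hc := wtau_c h1 m
  obtain ⟨y1, y2, y3, y4⟩ := wtau_pow h1 N
  have : t ^ N ≤ (119 / 100) ^ 5 :=
    calc t ^ N ≤ t ^ 5 := pow_le_pow_right₀ h1.le hN
      _ ≤ _ := pow_le_pow_left₀ (by linarith) h2.le 5
  have : (119 / 100 : ℝ) ^ 5 < 3 := by norm_num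
  linarith

end SalemLen
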