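import Pool.Agent.Lib.MP_9599cf_ntF.XRt

/-! # Moments of the roots on the unit circle -/

set_option autoImplicit false

namespace SalemLen.XM

open Polynomial

/-- `z ^ k + z ^ (-k)` on the unit circle. -/
noncomputable def w (k : ℕ) (z : ℂ) : ℝ := 2 * (z ^ k).re

/-- The sum of `w k` over `Z`. -/
noncomputable def T (Z : Multiset ℂ) (k : ℕ) : ℝ := (Z.map fun z => w k z).sum

/-- `s ^ k + s ^ (-k)`. -/
noncomputable def c (s : ℝ) (k : ℕ) : ℝ := s ^ k + (s⁻¹) ^ k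

private theorem XKey_sq {z : ℂ} (hz : ‖z‖ = 1) (k : ℕ) : (z ^ k).re ^ 2 + (z ^ k).im ^ 2 = 1 := by
  have h1 : ‖z ^ k‖ = 1 := by rw [norm_pow, hz, one_pow]
  have h2 := Complex.sq_norm (z ^ k)
  rw [h1, Complex.normSq_apply] at h2
  linarith

theorem w_two {z : ℂ} (hz : ‖z‖ = 1) (k : ℕ) : w (2 * k) z = w k z ^ 2 - 2 := by
  have h1 := XKey_sq hz k
  rw [w, w, pow_mul', pow_two (z ^ k), Complex.mul_re]
  linear_combination (-2) * h1

theorem w_three {z : ℂ} (hz : ‖z‖ = 1) (k : ℕ) : w (3 * k) z = w k z ^ 3 - 3 * w k z := by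
  have h1 := XKey_sq hz k
  have h2 : (z ^ k) ^ 3 = z ^ k * z ^ k * z ^ k := by ring
  rw [w, w, pow_mul', h2, Complex.mul_re, Complex.mul_re, Complex.mul_im]
  linear_combination (-6) * (z ^ k).re * h1

theorem w_bd {z : ℂ} (hz : ‖z‖ = 1) (k : ℕ) : -2 ≤ w k z ∧ w k z ≤ 2 := by
  have h1 := XKey_sq hz k
  rw [w]
  constructor <;> nlinarith [sq_nonneg ((z ^ k).re), sq_nonneg ((z ^ k).im), sq_nonneg ((z ^ k).re - 1),
    sq_nonneg ((z ^ k).re + 1)]

theorem c_two {s : ℝ} (hs : s ≠ 0) (k : ℕ) : c s (2 * k) = c s k ^ 2 - 2 := by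
  have h1 : s ^ k * s⁻¹ ^ k = 1 := by rw [← mul_pow, mul_inv_cancel₀ hs, one_pow]
  rw [c, c, pow_mul', pow_mul']
  linear_combination (-2) * h1

theorem c_three {s : ℝ} (hs : s ≠ 0) (k : ℕ) : c s (3 * k) = c s k ^ 3 - 3 * c s k := by
  have h1 : s ^ k * s⁻¹ ^ k = 1 := by rw [← mul_pow, mul_inv_cancel₀ hs, one_pow]
  rw [c, c, pow_mul', pow_mul']
  linear_combination (-3) * (s ^ k + s⁻¹ ^ k) * h1

theorem c_gt {s : ℝ} (hs : 1 < s) {k : ℕ} (hk : 0 < k) : 2 < c s k := by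
  have h0 : s ≠ 0 := by linarith
  have h1 : s ^ k * s⁻¹ ^ k = 1 := by rw [← mul_pow, mul_inv_cancel₀ h0, one_pow]
  have h2 : 1 < s ^ k := one_lt_pow₀ hs hk.ne'
  rw [c]
  have h3 : 0 < s⁻¹ ^ k := pow_pos (inv_pos.2 (by linarith)) k
  nlinarith [mul_pos (show 0 < s ^ k - 1 by linarith) h3, sq_nonneg (s ^ k - 1)]

theorem T_cons (a : ℂ) (Z : Multiset ℂ) (k : ℕ) : T (a ::ₘ Z) k = w k a + T Z k := by
  rw [T, T, Multiset.map_cons, Multiset.sum_cons]

theorem T_eq (Z : Multiset ℂ) (k : ℕ) : T Z k = 2 * (ps Z k).re := by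
  induction Z using Multiset.induction_on with
  | empty => simp [T, ps]
  | cons a Z ih => rw [T_cons, ps_cons, ih, w, Complex.add_re]; ring

/-- The moment inequality. -/
theorem key {Z : Multiset ℂ} (hc : ∀ z ∈ Z, ‖z‖ = 1) (m : ℕ) (q0 q1 q2 q3 : ℝ)
    (h : ∀ z ∈ Z, 0 ≤ q0 + q1 * w m z + q2 * w m z ^ 2 + q3 * w m z ^ 3) :
    0 ≤ (q0 + 2 * q2) * Z.card + (q1 + 3 * q3) * T Z m + q2 * T Z (2 * m) + q3 * T Z (3 * m) := by
  induction Z using Multiset.induction_on with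
  | empty => simp [T]
  | cons a Z ih =>
    have ha := h a (Multiset.mem_cons_self a Z)
    have ha1 := hc a (Multiset.mem_cons_self a Z)
    have h1 := ih (fun z hz => hc z (Multiset.mem_cons_of_mem hz))
      (fun z hz => h z (Multiset.mem_cons_of_mem hz))
    rw [Multiset.card_cons, T_cons, T_cons, T_cons, w_two ha1, w_three ha1]
    push_cast
    nlinarith

theorem T_all {s : ℝ} (hs : s ≠ 0) (Z : Multiset ℂ) (k : ℕ) {p : ℝ}
    (hp : ps ((s : ℂ) ::ₘ (s : ℂ)⁻¹ ::ₘ Z) k = (p : ℂ)) : T Z k = 2 * p - 2 * c s k := by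
  have _ := hs
  rw [ps_cons, ps_cons] at hp
  have h1 := congrArg Complex.re hp
  rw [Complex.add_re, Complex.add_re, Complex.ofReal_re, ← Complex.ofReal_inv, ← Complex.ofReal_pow,
    ← Complex.ofReal_pow, Complex.ofReal_re, Complex.ofReal_re] at h1
  rw [T_eq, c]
  linarith

end SalemLen.XM
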