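import Mathlib

/-! # Power sums and Newton's identities -/

set_option autoImplicit false

namespace SalemLen.XM

open Polynomial

/-- The power sums. -/
noncomputable def ps (Z : Multiset ℂ) (k : ℕ) : ℂ := (Z.map fun z => z ^ k).sum

/-- The polynomial with the reciprocal roots. -/
noncomputable def rp (Z : Multiset ℂ) : ℂ[X] := (Z.map fun z => 1 - C z * X).prod

theorem ps_cons (a : ℂ) (Z : Multiset ℂ) (k : ℕ) : ps (a ::ₘ Z) k = a ^ k + ps Z k := by
  rw [ps, ps, Multiset.map_cons, Multiset.sum_cons]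

theorem rp_cons (a : ℂ) (Z : Multiset ℂ) : rp (a ::ₘ Z) = (1 - C a * X) * rp Z := by
  rw [rp, rp, Multiset.map_cons, Multiset.prod_cons]

theorem rp_coeff_zero (Z : Multiset ℂ) : (rp Z).coeff 0 = 1 := by
  induction Z using Multiset.induction_on with
  | empty => simp [rp]
  | cons a Z ih => rw [rp_cons, mul_coeff_zero, ih]; simp

/-- The generating function of the power sums. -/
private noncomputable def XPs_L (Z : Multiset ℂ) : PowerSeries ℂ :=
  PowerSeries.mk fun k => if k = 0 then 0 else ps Z k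

private theorem XPs_single (a : ℂ) :
    (PowerSeries.mk fun k => if k = 0 then (0 : ℂ) else a ^ k) * ((1 - C a * X : ℂ[X]) : PowerSeries ℂ) =
      ((C a * X : ℂ[X]) : PowerSeries ℂ) := by
  ext k
  rw [Polynomial.coeff_coe, Polynomial.coe_sub, Polynomial.coe_one, Polynomial.coe_mul, Polynomial.coe_C,
    Polynomial.coe_X, mul_sub, mul_one, map_sub, ← mul_assoc, mul_comm _ (PowerSeries.C a), mul_assoc,
    PowerSeries.coeff_C_mul, PowerSeries.coeff_mk, coeff_C_mul, coeff_X]
  cases k with
  | zero => simp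
  | succ k =>
    rw [PowerSeries.coeff_succ_mul_X, PowerSeries.coeff_mk]
    cases k with
    | zero => simp
    | succ k => simp [pow_succ]; ring

private theorem XPs_gen (Z : Multiset ℂ) :
    XPs_L Z * (rp Z : PowerSeries ℂ) = - ((X * derivative (rp Z) : ℂ[X]) : PowerSeries ℂ) := by
  induction Z using Multiset.induction_on with
  | empty =>
    have h1 : XPs_L 0 = 0 := by
      ext k
      simp [XPs_L, ps]
    rw [h1, zero_mul, rp, Multiset.map_zero, Multiset.prod_zero, derivative_one, mul_zero,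
      Polynomial.coe_zero, neg_zero]
  | cons a Z ih =>
    have h1 : XPs_L (a ::ₘ Z) = (PowerSeries.mk fun k => if k = 0 then (0 : ℂ) else a ^ k) + XPs_L Z := by
      ext k
      rw [XPs_L, XPs_L, map_add, PowerSeries.coeff_mk, PowerSeries.coeff_mk, PowerSeries.coeff_mk]
      split_ifs with h
      · simp
      · rw [ps_cons]
    have h2 : ((X * derivative (rp (a ::ₘ Z)) : ℂ[X]) : PowerSeries ℂ) =
        - ((C a * X : ℂ[X]) : PowerSeries ℂ) * (rp Z : PowerSeries ℂ) +
        ((1 - C a * X : ℂ[X]) : PowerSeries ℂ) * ((X * derivative (rp Z) : ℂ[X]) : PowerSeries ℂ) := by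
      rw [← Polynomial.coe_neg, ← Polynomial.coe_mul, ← Polynomial.coe_mul, ← Polynomial.coe_add]
      congr 1
      rw [rp_cons, derivative_mul]
      simp only [derivative_sub, derivative_one, derivative_mul, derivative_C, derivative_X]
      ring
    rw [h1, h2, rp_cons, Polynomial.coe_mul]
    linear_combination (rp Z : PowerSeries ℂ) * XPs_single a + ((1 - C a * X : ℂ[X]) : PowerSeries ℂ) * ih

/-- Newton's identities. -/
theorem ps_newton (Z : Multiset ℂ) {k : ℕ} (hk : 0 < k) :
    ∑ j ∈ Finset.range k, (rp Z).coeff j * ps Z (k - j) = - (k : ℂ) * (rp Z).coeff k := by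
  have h1 := congrArg (PowerSeries.coeff k) (XPs_gen Z)
  rw [mul_comm, PowerSeries.coeff_mul, map_neg, Polynomial.coeff_coe] at h1
  rw [Finset.Nat.sum_antidiagonal_eq_sum_range_succ (fun i j => PowerSeries.coeff i (rp Z : PowerSeries ℂ) *
    PowerSeries.coeff j (XPs_L Z)), Finset.sum_range_succ] at h1
  have h2 : PowerSeries.coeff (k - k) (XPs_L Z) = 0 := by
    rw [Nat.sub_self, XPs_L, PowerSeries.coeff_mk, if_pos rfl]
  rw [h2, mul_zero, add_zero] at h1
  have h3 : (X * derivative (rp Z)).coeff k = (k : ℂ) * (rp Z).coeff k := by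
    obtain ⟨l, rfl⟩ : ∃ l, k = l + 1 := ⟨k - 1, by omega⟩
    rw [coeff_X_mul, coeff_derivative]
    push_cast
    ring
  rw [h3] at h1
  rw [neg_mul, ← h1]
  refine Finset.sum_congr rfl fun j hj => ?_
  have hj' := Finset.mem_range.1 hj
  rw [Polynomial.coeff_coe, XPs_L, PowerSeries.coeff_mk, if_neg (by omega)]

/-- The same, solved for the power sum. -/
theorem ps_eq (Z : Multiset ℂ) {k : ℕ} (hk : 0 < k) :
    ps Z k = - (k : ℂ) * (rp Z).coeff k - ∑ j ∈ Finset.Ico 1 k, (rp Z).coeff j * ps Z (k - j) := by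
  have h1 := ps_newton Z hk
  rw [Finset.range_eq_Ico, Finset.sum_eq_sum_Ico_succ_bot hk, rp_coeff_zero, one_mul, Nat.sub_zero,
    zero_add] at h1
  rw [← h1]
  ring

/-- Semigroups: if the exponents of `rp Z` are in `G`, the power sums vanish outside `G`. -/
theorem ps_zero {Z : Multiset ℂ} (G : ℕ → Prop) (hadd : ∀ i j, G i → G j → G (i + j))
    (hG : ∀ j, 0 < j → (rp Z).coeff j ≠ 0 → G j) {k : ℕ} (hk : 0 < k) (hkG : ¬ G k) : ps Z k = 0 := by
  induction k using Nat.strong_induction_on with
  | _ k ih =>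
    rw [ps_eq Z hk]
    have h1 : (rp Z).coeff k = 0 := by
      by_contra h
      exact hkG (hG k hk h)
    rw [h1, mul_zero, zero_sub, neg_eq_zero]
    refine Finset.sum_eq_zero fun j hj => ?_
    rw [Finset.mem_Ico] at hj
    by_cases hj0 : (rp Z).coeff j = 0
    · rw [hj0, zero_mul]
    · have h2 : ¬ G (k - j) := by
        intro h
        have h3 := hadd _ _ (hG j (by omega) hj0) h
        rw [Nat.add_sub_cancel' hj.2.le] at h3
        exact hkG h3
      rw [ih (k - j) (by omega) (by omega) h2, mul_zero]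

end SalemLen.XM
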