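import Pool.Agent.Lib.MP_9599cf_ntF.XPs
import Pool.Agent.Lib.MP_9599cf_ntL.Defs

/-! # The roots of a reciprocal polynomial with one large root -/

set_option autoImplicit false

namespace SalemLen.XM

open Polynomial

private theorem XRt_rev (a : ℂ) : (X - C a : ℂ[X]).reverse = 1 - C a * X := by
  ext n
  rw [coeff_reverse, natDegree_X_sub_C, coeff_sub, coeff_sub, coeff_C_mul, coeff_one, coeff_X, coeff_X,
    coeff_C]
  rcases Nat.lt_or_ge 1 n with h | h
  · rw [Polynomial.revAt_eq_self_of_lt h]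
    simp [show n ≠ 0 by omega, show ¬ (1 = n) by omega]
  · interval_cases n
    · rw [revAt_le (by norm_num)]
      simp
    · rw [revAt_le (by norm_num)]
      simp

private theorem XRt_prod (Z : Multiset ℂ) : ((Z.map fun z => X - C z).prod).reverse = rp Z := by
  induction Z using Multiset.induction_on with
  | empty =>
    rw [Multiset.map_zero, Multiset.prod_zero, rp, Multiset.map_zero, Multiset.prod_zero]
    ext n
    rw [coeff_reverse, natDegree_one]
    rcases Nat.eq_zero_or_pos n with h | h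
    · rw [h, revAt_le (le_refl 0)]
    · rw [Polynomial.revAt_eq_self_of_lt h]
  | cons a Z ih => rw [Multiset.map_cons, Multiset.prod_cons, reverse_mul_of_domain, ih, XRt_rev, rp_cons]

private theorem XRt_cx_reverse (P : ℤ[X]) : cx P.reverse = (cx P).reverse := by
  have hinj : Function.Injective (Int.castRingHom ℂ) := RingHom.injective_int _
  ext n
  rw [cx, cx, coeff_map, coeff_reverse, coeff_reverse, coeff_map, natDegree_map_eq_of_injective hinj]

private theorem XRt_one {W : Multiset ℝ} (h0 : ∀ w ∈ W, 0 ≤ w) (h1 : ∀ w ∈ W, w ≤ 1) (hp : W.prod = 1) :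
    ∀ w ∈ W, w = 1 := by
  induction W using Multiset.induction_on with
  | empty => intro w hw; simp at hw
  | cons a W ih =>
    rw [Multiset.prod_cons] at hp
    have ha0 := h0 a (Multiset.mem_cons_self a W)
    have ha1 := h1 a (Multiset.mem_cons_self a W)
    have hW0 : ∀ w ∈ W, 0 ≤ w := fun w hw => h0 w (Multiset.mem_cons_of_mem hw)
    have hW1 : ∀ w ∈ W, w ≤ 1 := fun w hw => h1 w (Multiset.mem_cons_of_mem hw)
    have hWp0 : 0 ≤ W.prod := Multiset.prod_nonneg hW0
    have hWp1 : W.prod ≤ 1 := by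
      clear ih hp h0 h1 hWp0
      induction W using Multiset.induction_on with
      | empty => simp
      | cons b W ih =>
        rw [Multiset.prod_cons]
        have hb0 := hW0 b (Multiset.mem_cons_self b W)
        have hb1 := hW1 b (Multiset.mem_cons_self b W)
        have hW0' : ∀ w ∈ W, 0 ≤ w := fun w hw => hW0 w (Multiset.mem_cons_of_mem hw)
        have h2 := ih hW0' (fun w hw => hW1 w (Multiset.mem_cons_of_mem hw))
        exact mul_le_one₀ hb1 (Multiset.prod_nonneg hW0') h2
    have haeq : a = 1 := by nlinarith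
    rw [haeq, one_mul] at hp
    intro w hw
    rcases Multiset.mem_cons.1 hw with h | h
    · rw [h, haeq]
    · exact ih hW0 hW1 hp w h

/-- The roots of `P`: `t`, `1 / t` and numbers on the unit circle. -/
theorem exists_Z {P : ℤ[X]} (hP : P.Monic) (hrev : P.reverse = P ∨ P.reverse = -P) {t : ℝ}
    (ht : 1 < t) (hd : Dom P t) :
    ∃ Z : Multiset ℂ, Z.card + 2 = P.natDegree ∧ (∀ z ∈ Z, ‖z‖ = 1) ∧ (∀ z ∈ Z, (cx P).eval z = 0) ∧
      cx P.reverse = rp ((t : ℂ) ::ₘ (t : ℂ)⁻¹ ::ₘ Z) := by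
  obtain ⟨Q, hQ, hQ1⟩ := hd
  have hcP : (cx P).Monic := hP.map _
  have ht0 : (t : ℂ) ≠ 0 := by
    rw [Ne, Complex.ofReal_eq_zero]
    linarith
  have hPt : (cx P).eval (t : ℂ) = 0 := by
    rw [hQ, eval_mul, eval_sub, eval_X, eval_C, sub_self, zero_mul]
  have hPi : (cx P).eval ((t : ℂ)⁻¹) = 0 := by
    let _ : Invertible (t : ℂ) := invertibleOfNonzero ht0
    have h1 : (cx P).reverse.eval ((t : ℂ)⁻¹) = 0 := by
      have h2 := (eval₂_reverse_eq_zero_iff (RingHom.id ℂ) (t : ℂ) (cx P)).2 (by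
        rw [eval₂_id]
        exact hPt)
      rw [invOf_eq_inv, eval₂_id] at h2
      exact h2
    rw [← XRt_cx_reverse] at h1
    rcases hrev with h | h
    · rw [h] at h1
      exact h1
    · rw [h, cx, Polynomial.map_neg, eval_neg, neg_eq_zero] at h1
      exact h1
  have hne : (t : ℂ)⁻¹ - (t : ℂ) ≠ 0 := by
    intro h
    have h1 : (((t⁻¹ - t : ℝ)) : ℂ) = 0 := by
      push_cast
      exact h
    rw [Complex.ofReal_eq_zero] at h1
    have h2 : t⁻¹ < 1 := inv_lt_one_of_one_lt₀ ht
    linarith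
  have hQi : Q.eval ((t : ℂ)⁻¹) = 0 := by
    rw [hQ, eval_mul, eval_sub, eval_X, eval_C] at hPi
    exact (mul_eq_zero.1 hPi).resolve_left hne
  obtain ⟨Q2, hQ2⟩ := dvd_iff_isRoot.2 (show Q.IsRoot ((t : ℂ)⁻¹) from hQi)
  have hQm : Q.Monic := by
    rw [hQ] at hcP
    exact (monic_X_sub_C (t : ℂ)).of_mul_monic_left hcP
  have hQ2m : Q2.Monic := by
    rw [hQ2] at hQm
    exact (monic_X_sub_C ((t : ℂ)⁻¹)).of_mul_monic_left hQm
  have hprod : Q2 = (Q2.roots.map (X - C ·)).prod := (IsAlgClosed.splits Q2).eq_prod_roots_of_monic hQ2m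
  have hcPe : cx P = (((t : ℂ) ::ₘ (t : ℂ)⁻¹ ::ₘ Q2.roots).map fun z => X - C z).prod := by
    rw [Multiset.map_cons, Multiset.map_cons, Multiset.prod_cons, Multiset.prod_cons, ← hprod, ← hQ2, ← hQ]
  have hroot : ∀ z ∈ Q2.roots, Q2.eval z = 0 := fun z hz => (mem_roots hQ2m.ne_zero).1 hz
  have hle : ∀ z ∈ Q2.roots, ‖z‖ ≤ 1 := fun z hz => hQ1 z (by rw [hQ2, eval_mul, hroot z hz, mul_zero])
  have hnorm : ∀ z ∈ Q2.roots, ‖z‖ = 1 := by
    have h1 : ‖(cx P).coeff 0‖ = 1 := by
      have h2 : P.reverse.coeff 0 = 1 := by rw [coeff_zero_reverse, hP.leadingCoeff]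
      have h3 : P.coeff 0 = 1 ∨ P.coeff 0 = -1 := by
        rcases hrev with h | h
        · left
          rw [← h, h2]
        · right
          rw [h, coeff_neg] at h2
          omega
      rw [cx, coeff_map]
      rcases h3 with h | h
      · rw [h]; simp
      · rw [h]; simp
    have h4 : (cx P).coeff 0 = ((Q2.roots).map fun z => -z).prod := by
      rw [hcPe, Multiset.map_cons, Multiset.map_cons, Multiset.prod_cons, Multiset.prod_cons,
        mul_coeff_zero, mul_coeff_zero, coeff_zero_multiset_prod, Multiset.map_map]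
      have h5 : (Q2.roots.map ((fun f : ℂ[X] => f.coeff 0) ∘ fun z => X - C z)) = Q2.roots.map fun z => -z := by
        refine Multiset.map_congr rfl fun z _ => ?_
        simp
      rw [h5]
      have h6 : (X - C (t : ℂ)).coeff 0 * (X - C ((t : ℂ)⁻¹)).coeff 0 = 1 := by
        rw [coeff_sub, coeff_sub, coeff_X_zero, coeff_C_zero, coeff_C_zero]
        field_simp
        ring
      rw [← mul_assoc, h6, one_mul]
    have h7 : (Q2.roots.map fun z => ‖z‖).prod = 1 := by
      rw [← h1, h4]
      have h8 := map_multiset_prod (normHom : ℂ →*₀ ℝ) ((Q2.roots).map fun z => -z)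
      rw [Multiset.map_map] at h8
      have h9 : (Q2.roots.map ((normHom : ℂ →*₀ ℝ) ∘ fun z => -z)) = Q2.roots.map fun z => ‖z‖ := by
        refine Multiset.map_congr rfl fun z _ => ?_
        change ‖-z‖ = ‖z‖
        rw [norm_neg]
      rw [h9] at h8
      exact h8.symm
    intro z hz
    refine XRt_one (W := Q2.roots.map fun z => ‖z‖) ?_ ?_ h7 ‖z‖ (Multiset.mem_map_of_mem _ hz)
    · intro w hw
      obtain ⟨z', _, rfl⟩ := Multiset.mem_map.1 hw
      exact norm_nonneg _
    · intro w hw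
      obtain ⟨z', hz', rfl⟩ := Multiset.mem_map.1 hw
      exact hle z' hz'
  refine ⟨Q2.roots, ?_, hnorm, ?_, ?_⟩
  · have h1 : (cx P).natDegree = P.natDegree :=
      natDegree_map_eq_of_injective (RingHom.injective_int _) P
    rw [← h1, hcPe, natDegree_multiset_prod_X_sub_C_eq_card, Multiset.card_cons, Multiset.card_cons]
  · intro z hz
    rw [hQ, hQ2, eval_mul, eval_mul, hroot z hz, mul_zero, mul_zero]
  · rw [XRt_cx_reverse, hcPe, XRt_prod]

end SalemLen.XM
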