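import Pool.Agent.Lib.MP_9599cf_ntF.XKey

/-! # The power sums -/

set_option autoImplicit false

namespace SalemLen.XM

open Polynomial

/-- The semigroup of the exponents. -/
def G (m d k : ℕ) : Prop := ∃ i j : ℕ, 1 ≤ j ∧ k = i * m + j * d

theorem G.add {m d a b : ℕ} (ha : G m d a) (hb : G m d b) : G m d (a + b) := by
  obtain ⟨i, j, h1, h2⟩ := ha
  obtain ⟨i', j', h3, h4⟩ := hb
  exact ⟨i + i', j + j', by omega, by rw [h2, h4]; ring⟩

theorem not_G {m d l : ℕ} (hd : 0 < d) (hco : Nat.Coprime m d) (hl : l < d) : ¬ G m d (l * m) := by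
  rintro ⟨i, j, h1, h2⟩
  have h0 : 0 < j * d := Nat.mul_pos h1 hd
  have h3 : i < l := by
    by_contra hc
    have h4 : l * m ≤ i * m := Nat.mul_le_mul_right m (by omega)
    omega
  have h5 : (l - i) * m = j * d := by
    rw [Nat.sub_mul]
    omega
  have h6 : d ∣ (l - i) * m := ⟨j, by rw [h5]; ring⟩
  have h7 : d ∣ l - i := (Nat.Coprime.symm hco).dvd_of_dvd_mul_right h6
  have h8 := Nat.le_of_dvd (by omega) h7
  omega

/-- The terms of the recurrence. -/
noncomputable def qk (p : ℕ → ℂ) (k i : ℕ) : ℂ := if i < k then p (k - i) else if i = k then (k : ℂ) else 0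

private theorem XSem_sum (f : ℕ → ℂ) {i k : ℕ} (hi : 0 < i) :
    ∑ j ∈ Finset.Ico 1 k, (if j = i then (1 : ℂ) else 0) * f j = if i < k then f i else 0 := by
  have h1 : ∀ j ∈ Finset.Ico 1 k, (if j = i then (1 : ℂ) else 0) * f j = if j = i then f j else 0 := by
    intro j _
    split_ifs
    · rw [one_mul]
    · rw [zero_mul]
  rw [Finset.sum_congr rfl h1, Finset.sum_ite_eq']
  by_cases h2 : i < k
  · rw [if_pos h2, if_pos (Finset.mem_Ico.2 ⟨hi, h2⟩)]
  · rw [if_neg h2, if_neg (fun h => h2 (Finset.mem_Ico.1 h).2)]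

private theorem XSem_q (p : ℕ → ℂ) {k i : ℕ} :
    qk p k i = (if i < k then p (k - i) else 0) + (k : ℂ) * (if k = i then 1 else 0) := by
  rw [qk]
  rcases lt_trichotomy i k with h | h | h
  · rw [if_pos h, if_pos h, if_neg (by omega), mul_zero, add_zero]
  · rw [if_neg (by omega), if_pos h, if_neg (by omega), if_pos h.symm]
    ring
  · rw [if_neg (by omega), if_neg (by omega), if_neg (by omega), if_neg (by omega)]
    ring

/-- The recurrence, five terms. -/
theorem rec5 {Y : Multiset ℂ} {N m d : ℕ} {A b : ℂ} (hd : 0 < d) (hN : N = m + d)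
    (hR : rp Y = 1 - C A * X ^ d + C b * X ^ N - C A * X ^ (N + m) + X ^ (2 * N)) {k : ℕ} (hk : 0 < k) :
    ps Y k = A * qk (ps Y) k d - b * qk (ps Y) k N + A * qk (ps Y) k (N + m) - qk (ps Y) k (2 * N) := by
  have hc : ∀ j, 0 < j → (rp Y).coeff j = -(A * (if j = d then 1 else 0)) + b * (if j = N then 1 else 0) -
      A * (if j = N + m then 1 else 0) + (if j = 2 * N then 1 else 0) := by
    intro j hj
    rw [hR]
    simp only [coeff_add, coeff_sub, coeff_C_mul, coeff_X_pow, coeff_one]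
    rw [if_neg (by omega : ¬ j = 0)]
    ring
  have h1 : ∑ j ∈ Finset.Ico 1 k, (rp Y).coeff j * ps Y (k - j) =
      -(A * (if d < k then ps Y (k - d) else 0)) + b * (if N < k then ps Y (k - N) else 0) -
      A * (if N + m < k then ps Y (k - (N + m)) else 0) + (if 2 * N < k then ps Y (k - 2 * N) else 0) := by
    have e : ∀ j ∈ Finset.Ico 1 k, (rp Y).coeff j * ps Y (k - j) =
        -(A * ((if j = d then (1 : ℂ) else 0) * ps Y (k - j))) +
        b * ((if j = N then (1 : ℂ) else 0) * ps Y (k - j)) -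
        A * ((if j = N + m then (1 : ℂ) else 0) * ps Y (k - j)) +
        (if j = 2 * N then (1 : ℂ) else 0) * ps Y (k - j) := by
      intro j hj
      rw [hc j (by have := (Finset.mem_Ico.1 hj).1; omega)]
      ring
    rw [Finset.sum_congr rfl e, Finset.sum_add_distrib, Finset.sum_sub_distrib, Finset.sum_add_distrib,
      Finset.sum_neg_distrib, ← Finset.mul_sum, ← Finset.mul_sum, ← Finset.mul_sum,
      XSem_sum (fun j => ps Y (k - j)) hd, XSem_sum (fun j => ps Y (k - j)) (by omega : 0 < N),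
      XSem_sum (fun j => ps Y (k - j)) (by omega : 0 < N + m),
      XSem_sum (fun j => ps Y (k - j)) (by omega : 0 < 2 * N)]
  rw [ps_eq Y hk, h1, hc k hk, XSem_q, XSem_q, XSem_q, XSem_q]
  ring

/-- Vanishing power sums, five terms. -/
theorem zero5 {Y : Multiset ℂ} {N m d : ℕ} {A b : ℂ} (hd : 0 < d) (hN : N = m + d)
    (hR : rp Y = 1 - C A * X ^ d + C b * X ^ N - C A * X ^ (N + m) + X ^ (2 * N)) {k : ℕ} (hk : 0 < k)
    (hkG : ¬ G m d k) : ps Y k = 0 := by
  refine ps_zero (G m d) (fun _ _ => G.add) ?_ hk hkG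
  intro j hj hcj
  by_contra hG
  apply hcj
  rw [hR]
  simp only [coeff_add, coeff_sub, coeff_C_mul, coeff_X_pow, coeff_one]
  rw [if_neg (by omega : ¬ j = 0), if_neg (fun h => hG ⟨0, 1, le_refl _, by rw [h]; ring⟩),
    if_neg (fun h => hG ⟨1, 1, le_refl _, by rw [h, hN]; ring⟩),
    if_neg (fun h => hG ⟨2, 1, le_refl _, by rw [h, hN]; ring⟩),
    if_neg (fun h => hG ⟨2, 2, by omega, by rw [h, hN]; ring⟩)]
  ring

/-- Vanishing power sums, four terms; `n = m + 2 d`. -/
theorem zero4 {Y : Multiset ℂ} {n m d : ℕ} {a e : ℂ} (hd : 0 < d) (hn : n = m + 2 * d)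
    (hR : rp Y = 1 + C a * X ^ d + C (e * a) * X ^ (n - d) + C e * X ^ n) {k : ℕ} (hk : 0 < k)
    (hkG : ¬ G m d k) : ps Y k = 0 := by
  refine ps_zero (G m d) (fun _ _ => G.add) ?_ hk hkG
  intro j hj hcj
  by_contra hG
  apply hcj
  rw [hR]
  simp only [coeff_add, coeff_C_mul, coeff_X_pow, coeff_one]
  rw [if_neg (by omega : ¬ j = 0), if_neg (fun h => hG ⟨0, 1, le_refl _, by rw [h]; ring⟩),
    if_neg (fun h => hG ⟨1, 1, le_refl _, by rw [h, hn]; omega⟩),
    if_neg (fun h => hG ⟨1, 2, by omega, by rw [h, hn]; ring⟩)]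
  ring

end SalemLen.XM
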